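import Pool.Agent.LibV44.Defs
import Pool.Agent.LibT44.A1

namespace V44
open T44

/-- Row DE. The proof of `T44.descent` (file LibT44/A1.lean) gives also `y = αβ²u³`. -/
theorem descent4 (a b x y : ℤ) (hx : x ≠ 0) (h : y * (y + a * x + b) = x ^ 3) :
    ∃ (α β : ℕ) (u v : ℤ), 1 ≤ α ∧ 1 ≤ β ∧ Squarefree α ∧ Squarefree β ∧ Nat.Coprime α β ∧
      u ≠ 0 ∧ v ≠ 0 ∧ (a, b, x, y) = Rep α β (a, u, v) := by
  have hy : y ≠ 0 := by
    rintro rfl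
    rw [zero_mul] at h
    exact hx (pow_eq_zero_iff (by norm_num) |>.1 h.symm)
  obtain ⟨α, β, u, hα, hβ, sα, sβ, hc, hu, hyy⟩ := cube_class y hy
  have hα0 : (α : ℤ) ≠ 0 := by exact_mod_cast (by omega : α ≠ 0)
  have hβ0 : (β : ℤ) ≠ 0 := by exact_mod_cast (by omega : β ≠ 0)
  have hk : (α : ℤ) * β * u ≠ 0 := mul_ne_zero (mul_ne_zero hα0 hβ0) hu
  obtain ⟨v, hv⟩ : (α : ℤ) * β * u ∣ x := by
    refine a1_dvd sα sβ hc _ _ hk ⟨y + a * x + b, ?_⟩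
    rw [← h]
    nth_rewrite 1 [hyy]
    ring
  have hv0 : v ≠ 0 := by
    rintro rfl
    rw [mul_zero] at hv
    exact hx hv
  have hy2 : y + a * x + b = (α : ℤ) ^ 2 * β * v ^ 3 := by
    have hne : (α : ℤ) * β ^ 2 * u ^ 3 ≠ 0 := by rw [← hyy]; exact hy
    apply mul_left_cancel₀ hne
    rw [← hyy, h, hv]
    rw [hyy]
    ring
  refine ⟨α, β, u, v, hα, hβ, sα, sβ, hc, hu, hv0, ?_⟩
  have hb : b = (α : ℤ) * β * F α β (a, u, v) := by
    have hb' : b = (α : ℤ) ^ 2 * β * v ^ 3 - y - a * x := by linarith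
    rw [hb', hyy, hv]
    unfold F
    ring
  unfold Rep
  simp only
  rw [← hb, hv, hyy]

end V44
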