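import Pool.Agent.LibV44.TA
import Pool.Agent.LibT44.A2

namespace V44
open T44

section
open Finset

/-- the pairs -/
noncomputable def sm_U (H : ℕ) : Finset (ℤ × ℤ × ℤ × ℤ) :=
  (Icc 1 (36 * H ^ 3)).biUnion fun n => ({1, -1} : Finset ℤ).biUnion fun s =>
    ({1, -1} : Finset ℤ).biUnion fun t => (Nat.divisors (n ^ 3)).biUnion fun d =>
      (a2_A H (s * n) (t * d)).image fun a => (a, (s * n) ^ 3 / (t * d) - t * d - a * (s * n), s * n, t * d)

theorem sm_mem (H : ℕ) (z : ℤ × ℤ) (h1 : |z.1| ≤ (H : ℤ)) (h2 : |z.2| ≤ (H : ℤ) ^ 3) (x y : ℤ)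
    (hx : x ≠ 0) (hxH : |x| ≤ 36 * (H : ℤ) ^ 3) (h : y * (y + z.1 * x + z.2) = x ^ 3) :
    (z.1, z.2, x, y) ∈ sm_U H := by
  have hx3 : x ^ 3 ≠ 0 := pow_ne_zero 3 hx
  have hy : y ≠ 0 := by
    rintro rfl
    rw [zero_mul] at h
    exact hx3 h.symm
  obtain ⟨s, hs, hs'⟩ := a2_sign x
  obtain ⟨t, ht, ht'⟩ := a2_sign y
  have hdiv : x ^ 3 / y = y + z.1 * x + z.2 := by
    rw [← h]
    exact Int.mul_ediv_cancel_left _ hy
  unfold sm_U
  rw [mem_biUnion]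
  refine ⟨x.natAbs, ?_, ?_⟩
  · rw [mem_Icc]
    refine ⟨Nat.one_le_iff_ne_zero.2 (Int.natAbs_ne_zero.2 hx), ?_⟩
    have h3 : ((x.natAbs : ℕ) : ℤ) ≤ 36 * (H : ℤ) ^ 3 := by
      rw [Int.natCast_natAbs]
      exact hxH
    exact_mod_cast h3
  rw [mem_biUnion]
  refine ⟨s, hs, ?_⟩
  rw [mem_biUnion]
  refine ⟨t, ht, ?_⟩
  rw [mem_biUnion]
  refine ⟨y.natAbs, ?_, ?_⟩
  · rw [Nat.mem_divisors]
    refine ⟨?_, pow_ne_zero 3 (Int.natAbs_ne_zero.2 hx)⟩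
    rw [← Int.natAbs_pow]
    exact Int.natAbs_dvd_natAbs.2 ⟨_, h.symm⟩
  rw [← hs', ← ht', mem_image]
  refine ⟨z.1, ?_, ?_⟩
  · unfold a2_A
    rw [mem_filter, mem_Icc]
    refine ⟨abs_le.1 h1, ?_⟩
    have e : x ^ 3 / y - y - z.1 * x = z.2 := by rw [hdiv]; ring
    rw [e]
    exact h2
  · have e : x ^ 3 / y - y - z.1 * x = z.2 := by
      rw [hdiv]
      ring
    rw [e]

theorem sm_card_U (H : ℕ) : ((sm_U H).card : ℝ) ≤
    ∑ n ∈ Icc 1 (36 * H ^ 3), 4 * ((Nat.divisors (n ^ 3)).card : ℝ) * (2 * (H : ℝ) ^ 3 / n + 1) := by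
  have h1 : ((sm_U H).card : ℝ) ≤ ∑ n ∈ Icc 1 (36 * H ^ 3), (((({1, -1} : Finset ℤ).biUnion fun s =>
    ({1, -1} : Finset ℤ).biUnion fun t => (Nat.divisors (n ^ 3)).biUnion fun d =>
      (a2_A H (s * n) (t * d)).image fun a =>
        (a, (s * n) ^ 3 / (t * d) - t * d - a * (s * n), s * n, t * d)).card : ℕ) : ℝ) := by
    rw [← Nat.cast_sum]
    exact_mod_cast card_biUnion_le
  refine h1.trans (sum_le_sum fun n hn => ?_)
  have hn0 : n ≠ 0 := by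
    rw [mem_Icc] at hn
    omega
  have hB : ∀ s ∈ ({1, -1} : Finset ℤ), ∀ t : ℤ, ∀ d : ℕ,
      (((a2_A H (s * n) (t * d)).image fun a =>
        (a, (s * n) ^ 3 / (t * d) - t * d - a * (s * n), s * n, t * d)).card : ℝ) ≤ 2 * (H : ℝ) ^ 3 / n + 1 := by
    intro s hs t d
    have hsn : s * (n : ℤ) ≠ 0 := by
      refine mul_ne_zero ?_ (by exact_mod_cast hn0)
      rintro rfl
      simp at hs
    have hsa : |((s * (n : ℤ) : ℤ) : ℝ)| = n := by
      have : |s| = 1 := by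
        rw [mem_insert, mem_singleton] at hs
        rcases hs with rfl | rfl <;> simp
      rw [← Int.cast_abs, abs_mul, this, one_mul, Nat.abs_cast]
      simp
    have h2 := a2_card_A H (s * n) (t * d) hsn
    rw [hsa] at h2
    refine le_trans ?_ h2
    exact_mod_cast card_image_le
  have hC : ∀ s ∈ ({1, -1} : Finset ℤ), ∀ t : ℤ,
      ((((Nat.divisors (n ^ 3)).biUnion fun d => (a2_A H (s * n) (t * d)).image fun a =>
        (a, (s * n) ^ 3 / (t * d) - t * d - a * (s * n), s * n, t * d)).card : ℕ) : ℝ) ≤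
      ((Nat.divisors (n ^ 3)).card : ℝ) * (2 * (H : ℝ) ^ 3 / n + 1) := by
    intro s hs t
    have h2 : ((((Nat.divisors (n ^ 3)).biUnion fun d => (a2_A H (s * n) (t * d)).image fun a =>
        (a, (s * n) ^ 3 / (t * d) - t * d - a * (s * n), s * n, t * d)).card : ℕ) : ℝ) ≤
        ∑ d ∈ Nat.divisors (n ^ 3), ((((a2_A H (s * n) (t * d)).image fun a =>
        (a, (s * n) ^ 3 / (t * d) - t * d - a * (s * n), s * n, t * d)).card : ℕ) : ℝ) := by
      rw [← Nat.cast_sum]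
      exact_mod_cast card_biUnion_le
    refine h2.trans ((sum_le_sum fun d _ => hB s hs t d).trans (le_of_eq ?_))
    rw [sum_const, nsmul_eq_mul]
  have hc2 : ({1, -1} : Finset ℤ).card = 2 := by decide
  have hD : ∀ s ∈ ({1, -1} : Finset ℤ),
      (((({1, -1} : Finset ℤ).biUnion fun t => (Nat.divisors (n ^ 3)).biUnion fun d =>
        (a2_A H (s * n) (t * d)).image fun a =>
        (a, (s * n) ^ 3 / (t * d) - t * d - a * (s * n), s * n, t * d)).card : ℕ) : ℝ) ≤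
      2 * (((Nat.divisors (n ^ 3)).card : ℝ) * (2 * (H : ℝ) ^ 3 / n + 1)) := by
    intro s hs
    have h2 : (((({1, -1} : Finset ℤ).biUnion fun t => (Nat.divisors (n ^ 3)).biUnion fun d =>
        (a2_A H (s * n) (t * d)).image fun a =>
        (a, (s * n) ^ 3 / (t * d) - t * d - a * (s * n), s * n, t * d)).card : ℕ) : ℝ) ≤
        ∑ t ∈ ({1, -1} : Finset ℤ), ((((Nat.divisors (n ^ 3)).biUnion fun d =>
        (a2_A H (s * n) (t * d)).image fun a =>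
        (a, (s * n) ^ 3 / (t * d) - t * d - a * (s * n), s * n, t * d)).card : ℕ) : ℝ) := by
      rw [← Nat.cast_sum]
      exact_mod_cast card_biUnion_le
    refine h2.trans ((sum_le_sum fun t _ => hC s hs t).trans (le_of_eq ?_))
    rw [sum_const, hc2, nsmul_eq_mul]
    norm_num
  have h3 : ((((({1, -1} : Finset ℤ).biUnion fun s =>
    ({1, -1} : Finset ℤ).biUnion fun t => (Nat.divisors (n ^ 3)).biUnion fun d =>
      (a2_A H (s * n) (t * d)).image fun a =>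
        (a, (s * n) ^ 3 / (t * d) - t * d - a * (s * n), s * n, t * d)).card : ℕ) : ℝ)) ≤
      ∑ s ∈ ({1, -1} : Finset ℤ), (((({1, -1} : Finset ℤ).biUnion fun t =>
        (Nat.divisors (n ^ 3)).biUnion fun d =>
        (a2_A H (s * n) (t * d)).image fun a =>
        (a, (s * n) ^ 3 / (t * d) - t * d - a * (s * n), s * n, t * d)).card : ℕ) : ℝ) := by
    rw [← Nat.cast_sum]
    exact_mod_cast card_biUnion_le
  refine h3.trans ((sum_le_sum fun s hs => hD s hs).trans (le_of_eq ?_))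
  rw [sum_const, hc2, nsmul_eq_mul]
  push_cast
  ring


end

/-- Row SM. As `T44.small_count` (file LibT44/A2.lean, copy `a2_U`, `a2_mem`, `a2_card_U` with quadruples `(a, x³/y - y - a x, x, y)`, `x = s n`, `y = t d`):
`card ≤ ∑_{n ≤ N} 4 τ(n³) (2H³/n + 1)`, `N = 36H³`, and `2H³/n + 1 ≤ 38H³/n`: `≤ 152 H³ ∑ τ(n³)/n ≤ 152 H³ (1 + log (36H³))^4` (`tau_sum`),
`1 + log 36 + 3 log H ≤ 5 (1 + log H)`. -/
theorem small_sharp : ∃ C : ℝ, 0 < C ∧ ∀ H : ℕ, 2 ≤ H → ∀ S : Finset (ℤ × ℤ × ℤ × ℤ),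
    (∀ w ∈ S, |w.1| ≤ (H : ℤ) ∧ |w.2.1| ≤ (H : ℤ) ^ 3 ∧ w.2.2.1 ≠ 0 ∧ |w.2.2.1| ≤ 36 * (H : ℤ) ^ 3 ∧
      w.2.2.2 * (w.2.2.2 + w.1 * w.2.2.1 + w.2.1) = w.2.2.1 ^ 3) →
    (S.card : ℝ) ≤ C * ((H : ℝ) ^ 3 * (1 + Real.log H) ^ 4) := by
  refine ⟨152 * 36 ^ 4, by norm_num, fun H hH S hS => ?_⟩
  have hH1 : (1 : ℝ) ≤ H := by exact_mod_cast (by omega : 1 ≤ H)
  have hH0 : (0 : ℝ) < H := by linarith
  have hl : 0 ≤ Real.log H := Real.log_nonneg hH1
  have hS1 : (S.card : ℝ) ≤ ((sm_U H).card : ℝ) := by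
    have : S ⊆ sm_U H := by
      intro w hw
      obtain ⟨h1, h2, h3, h4, h5⟩ := hS w hw
      exact sm_mem H (w.1, w.2.1) h1 h2 w.2.2.1 w.2.2.2 h3 h4 h5
    exact_mod_cast Finset.card_le_card this
  refine hS1.trans ((sm_card_U H).trans ?_)
  have h1 : ∑ n ∈ Finset.Icc 1 (36 * H ^ 3), 4 * ((Nat.divisors (n ^ 3)).card : ℝ) * (2 * (H : ℝ) ^ 3 / n + 1) ≤
      152 * (H : ℝ) ^ 3 * ∑ n ∈ Finset.Icc 1 (36 * H ^ 3), ((Nat.divisors (n ^ 3)).card : ℝ) / n := by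
    rw [Finset.mul_sum]
    refine Finset.sum_le_sum fun n hn => ?_
    rw [Finset.mem_Icc] at hn
    have hn0 : (0 : ℝ) < n := by exact_mod_cast (by omega : 0 < n)
    have hnM : (n : ℝ) ≤ 36 * (H : ℝ) ^ 3 := by exact_mod_cast hn.2
    have h2 : 2 * (H : ℝ) ^ 3 / n + 1 ≤ 38 * (H : ℝ) ^ 3 / n := by
      rw [div_add_one hn0.ne']
      exact div_le_div_of_nonneg_right (by linarith) hn0.le
    refine (mul_le_mul_of_nonneg_left h2 (by positivity)).trans (le_of_eq ?_)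
    ring
  refine h1.trans ?_
  have h2 := tau_sum (36 * H ^ 3)
  have h3 : 1 + Real.log ((36 * H ^ 3 : ℕ) : ℝ) ≤ 36 * (1 + Real.log H) := by
    push_cast
    rw [Real.log_mul (by norm_num) (by positivity), Real.log_pow]
    have h5 : Real.log 36 ≤ 35 := by
      have := Real.log_le_sub_one_of_pos (show (0 : ℝ) < 36 by norm_num)
      linarith
    push_cast
    linarith
  have h4 : 0 ≤ 1 + Real.log ((36 * H ^ 3 : ℕ) : ℝ) := by
    have : (1 : ℝ) ≤ ((36 * H ^ 3 : ℕ) : ℝ) := by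
      have : 1 ≤ 36 * H ^ 3 := Nat.one_le_iff_ne_zero.2 (by positivity)
      exact_mod_cast this
    have := Real.log_nonneg this
    linarith
  have h5 := h2.trans (pow_le_pow_left₀ h4 h3 4)
  refine (mul_le_mul_of_nonneg_left h5 (by positivity)).trans (le_of_eq ?_)
  ring

end V44
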