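import Pool.Agent.LibV44.MS
import Pool.Agent.LibV44.GG
import Pool.Agent.LibV44.SM
import Pool.Agent.LibV44.DE
import Pool.Agent.LibT44.B2

namespace V44
open T44

theorem ab_rep_neg (α β : ℕ) (z : ℤ × ℤ × ℤ) :
    Rep α β (-z) = (-(Rep α β z).1, -(Rep α β z).2.1, (Rep α β z).2.2.1, -(Rep α β z).2.2.2) := by
  obtain ⟨a, u, v⟩ := z
  simp only [Rep, F, Prod.neg_mk, Prod.mk.injEq]
  refine ⟨trivial, ?_, ?_, ?_⟩ <;> ring

theorem ab_neg_inj : Function.Injective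
    (fun w : ℤ × ℤ × ℤ × ℤ => ((-w.1, -w.2.1, w.2.2.1, -w.2.2.2) : ℤ × ℤ × ℤ × ℤ)) := by
  rintro ⟨a, b, x, y⟩ ⟨a', b', x', y'⟩ h
  simp only [Prod.mk.injEq, neg_inj] at h
  obtain ⟨rfl, rfl, rfl, rfl⟩ := h
  rfl

/-- Row AB. As `U44.ab_all` (file LibU44/AB.lean, copy its proof): `|x| ≤ 36H³`: `small_sharp`; otherwise `descent4`, `(a, b, x, y) = Rep α β z`, `Sol H α β z`,
`α β > 1` (`class_one`), `cl_exists`; `S > 0`: `mid_sharp` or `gig_sharp`; `S < 0`: the map `(a, b, x, y) ↦ (-a, -b, x, -y)` (injective) and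
`Rep α β (-z) = (-a, -b, x, -y)`, `sol_neg`. -/
theorem ab_sharp : ∃ C : ℝ, 0 < C ∧ ∀ H : ℕ, 2 ≤ H → ∀ S : Finset (ℤ × ℤ × ℤ × ℤ),
    (∀ w ∈ S, w.1 ≠ 0 ∧ |w.1| ≤ (H : ℤ) ∧ |w.2.1| ≤ (H : ℤ) ^ 3 ∧ w.2.1 ≠ 0 ∧ w.1 ^ 3 ≠ 27 * w.2.1 ∧
      w.2.2.1 ≠ 0 ∧ w.2.2.2 * (w.2.2.2 + w.1 * w.2.2.1 + w.2.1) = w.2.2.1 ^ 3) →
    (S.card : ℝ) ≤ C * ((H : ℝ) ^ 3 * (1 + Real.log H) ^ 4) := by
  classical
  obtain ⟨C₁, hC₁, h₁⟩ := small_sharp
  obtain ⟨C₂, hC₂, h₂⟩ := mid_sharp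
  refine ⟨C₁ + 2 * C₂ + 792, by positivity, fun H hH2 S hS => ?_⟩
  have hH : 1 ≤ H := by omega
  have hH1 : (1 : ℝ) ≤ H := by exact_mod_cast hH
  have hL : 0 ≤ Real.log H := Real.log_nonneg hH1
  obtain ⟨nu, hnu⟩ : ∃ nu : ℤ × ℤ × ℤ × ℤ → ℤ × ℤ × ℤ × ℤ,
      nu = fun w => (-w.1, -w.2.1, w.2.2.1, -w.2.2.2) := ⟨_, rfl⟩
  have hinj : Function.Injective nu := by rw [hnu]; exact ab_neg_inj
  set P0 : ℤ × ℤ × ℤ × ℤ → Prop := fun w => |w.2.2.1| ≤ 36 * (H : ℤ) ^ 3 with hP0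
  set Pm : ℤ × ℤ × ℤ × ℤ → Prop := fun w => ∃ (α β : ℕ) (p q : ℝ) (z : ℤ × ℤ × ℤ), Cl α β p q ∧
      Sol H α β z ∧ w = Rep α β z ∧
      0 < sS p q z ∧ sS p q z < (10 * (H : ℝ)) ^ 300000 with hPm
  set Pl : ℤ × ℤ × ℤ × ℤ → Prop := fun w => w.1 ≠ 0 ∧ ∃ (α β : ℕ) (p q : ℝ) (z : ℤ × ℤ × ℤ),
      Cl α β p q ∧ Sol H α β z ∧ w = Rep α β z ∧ (10 * (H : ℝ)) ^ 300000 ≤ sS p q z with hPl
  have hcov : S ⊆ ((((S.filter P0 ∪ S.filter Pm) ∪ S.filter Pl) ∪ S.filter fun w => Pm (nu w)) ∪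
      S.filter fun w => Pl (nu w)) := by
    rintro w hw
    obtain ⟨ha0, ha, hb, hb0, hab, hx0, hxy⟩ := hS w hw
    obtain ⟨a, b, x, y⟩ := w
    simp only at ha0 ha hb hb0 hab hx0 hxy
    simp only [Finset.mem_union, Finset.mem_filter]
    by_cases hsm : |x| ≤ 36 * (H : ℤ) ^ 3
    · left; left; left; left
      exact ⟨hw, hsm⟩
    rw [not_le] at hsm
    obtain ⟨α, β, u, v, hα, hβ, sα, sβ, cop, hu, hv, hrep⟩ := descent4 a b x y hx0 hxy
    set z : ℤ × ℤ × ℤ := (a, u, v) with hz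
    have hrep' := hrep
    simp only [Rep, Prod.mk.injEq] at hrep'
    obtain ⟨-, hbe, hxe, -⟩ := hrep'
    have hαβ : (0 : ℤ) < (α : ℤ) * β := by
      have h1 : (0 : ℤ) < α := by exact_mod_cast hα
      have h2 : (0 : ℤ) < β := by exact_mod_cast hβ
      exact mul_pos h1 h2
    have hF0 : F α β z ≠ 0 := by
      intro h0
      apply hb0
      rw [hbe, h0, mul_zero]
    have hsol : Sol H α β z := by
      refine ⟨ha, hF0, ?_, ?_, ?_⟩
      · rw [hbe, abs_mul, abs_of_pos hαβ] at hb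
        exact hb
      · show a ^ 3 ≠ 27 * ((α : ℤ) * β * F α β z)
        rw [← hbe]
        exact hab
      · show 36 * (H : ℤ) ^ 3 < |(α : ℤ) * β * u * v|
        have e : (α : ℤ) * β * u * v = x := hxe.symm
        rw [e]
        exact hsm
    have hne : 1 < α * β := by
      rcases Nat.lt_or_ge 1 (α * β) with h1 | h1
      · exact h1
      · exfalso
        have h2 : α * β = 1 := le_antisymm h1 (Nat.mul_pos hα hβ)
        have hα1 : α = 1 := Nat.eq_one_of_mul_eq_one_right h2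
        have hβ1 : β = 1 := Nat.eq_one_of_mul_eq_one_left h2
        subst hα1
        subst hβ1
        exact class_one hH z hsol
    obtain ⟨p, q, hcl⟩ := cl_exists α β hα hβ sα sβ cop hne
    obtain ⟨e1, -, -, -, -, e2⟩ := size hcl hH z hsol
    have hH3 : (1 : ℝ) ≤ (H : ℝ) ^ 3 := one_le_pow₀ hH1
    have hS2 : 144 ≤ sS p q z ^ 2 := by linarith
    rcases lt_trichotomy (sS p q z) 0 with hneg | hzero | hpos
    · -- negative
      obtain ⟨hsol', hF', hSn⟩ := sol_neg z hsol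
      have hr' : nu (a, b, x, y) = Rep α β (-z) := by
        rw [ab_rep_neg, hnu, hrep]
      by_cases hcase : sS p q (-z) < (10 * (H : ℝ)) ^ 300000
      · left; right
        refine ⟨hw, α, β, p, q, -z, hcl, hsol', hr', ?_, hcase⟩
        rw [hSn]
        linarith
      · right
        refine ⟨hw, ?_, α, β, p, q, -z, hcl, hsol', hr', not_lt.1 hcase⟩
        rw [hnu]
        exact neg_ne_zero.2 ha0
    · exfalso
      rw [hzero] at hS2
      norm_num at hS2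
    · by_cases hcase : sS p q z < (10 * (H : ℝ)) ^ 300000
      · left; left; left; right
        exact ⟨hw, α, β, p, q, z, hcl, hsol, hrep, hpos, hcase⟩
      · left; left; right
        exact ⟨hw, ha0, α, β, p, q, z, hcl, hsol, hrep, not_lt.1 hcase⟩
  have c0 : ((S.filter P0).card : ℝ) ≤ C₁ * ((H : ℝ) ^ 3 * (1 + Real.log H) ^ 4) := by
    refine h₁ H hH2 (S.filter P0) ?_
    intro w hw
    rw [Finset.mem_filter] at hw
    obtain ⟨-, ha, hb, -, -, hx0, hxy⟩ := hS w hw.1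
    exact ⟨ha, hb, hx0, hw.2, hxy⟩
  have c1 : ((S.filter Pm).card : ℝ) ≤ C₂ * ((H : ℝ) ^ 3 * (1 + Real.log H) ^ 3) :=
    h₂ H hH2 _ fun w hw => (Finset.mem_filter.1 hw).2
  have c2 : ((S.filter Pl).card : ℝ) ≤ 44 * ((H : ℝ) ^ 3 * (1 + 3 * Real.log H) ^ 2) :=
    gig_sharp H hH2 _ fun w hw => (Finset.mem_filter.1 hw).2
  have c3 : ((S.filter fun w => Pm (nu w)).card : ℝ) ≤
      C₂ * ((H : ℝ) ^ 3 * (1 + Real.log H) ^ 3) := by
    have h4 : ((S.filter fun w => Pm (nu w)).image nu).card =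
        (S.filter fun w => Pm (nu w)).card :=
      Finset.card_image_of_injective _ hinj
    rw [← h4]
    refine h₂ H hH2 _ fun w hw => ?_
    rw [Finset.mem_image] at hw
    obtain ⟨w', hw', rfl⟩ := hw
    exact (Finset.mem_filter.1 hw').2
  have c4 : ((S.filter fun w => Pl (nu w)).card : ℝ) ≤
      44 * ((H : ℝ) ^ 3 * (1 + 3 * Real.log H) ^ 2) := by
    have h4 : ((S.filter fun w => Pl (nu w)).image nu).card =
        (S.filter fun w => Pl (nu w)).card :=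
      Finset.card_image_of_injective _ hinj
    rw [← h4]
    refine gig_sharp H hH2 _ fun w hw => ?_
    rw [Finset.mem_image] at hw
    obtain ⟨w', hw', rfl⟩ := hw
    exact (Finset.mem_filter.1 hw').2
  have hcard : S.card ≤ (S.filter P0).card + (S.filter Pm).card + (S.filter Pl).card +
      (S.filter fun w => Pm (nu w)).card + (S.filter fun w => Pl (nu w)).card := by
    refine (Finset.card_le_card hcov).trans ?_
    refine (Finset.card_union_le _ _).trans (Nat.add_le_add_right ?_ _)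
    refine (Finset.card_union_le _ _).trans (Nat.add_le_add_right ?_ _)
    refine (Finset.card_union_le _ _).trans (Nat.add_le_add_right ?_ _)
    exact Finset.card_union_le _ _
  have hcard' : (S.card : ℝ) ≤ (S.filter P0).card + (S.filter Pm).card + (S.filter Pl).card +
      (S.filter fun w => Pm (nu w)).card + (S.filter fun w => Pl (nu w)).card := by
    exact_mod_cast hcard
  obtain ⟨L, hLe⟩ : ∃ L, L = 1 + Real.log H := ⟨_, rfl⟩
  have hL1 : 1 ≤ L := by rw [hLe]; linarith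
  have hH3 : 0 ≤ (H : ℝ) ^ 3 := by positivity
  have d1 : (H : ℝ) ^ 3 * (1 + Real.log H) ^ 3 ≤ (H : ℝ) ^ 3 * (1 + Real.log H) ^ 4 := by
    rw [← hLe]
    exact mul_le_mul_of_nonneg_left (pow_le_pow_right₀ hL1 (by norm_num)) hH3
  have d2 : (H : ℝ) ^ 3 * (1 + 3 * Real.log H) ^ 2 ≤
      9 * ((H : ℝ) ^ 3 * (1 + Real.log H) ^ 4) := by
    have e1 : (1 + 3 * Real.log H) ^ 2 ≤ 9 * L ^ 2 := by rw [hLe]; nlinarith
    have e2 : L ^ 2 ≤ L ^ 4 := pow_le_pow_right₀ hL1 (by norm_num)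
    have e3 : (1 + 3 * Real.log H) ^ 2 ≤ 9 * L ^ 4 := by linarith
    rw [← hLe]
    calc (H : ℝ) ^ 3 * (1 + 3 * Real.log H) ^ 2 ≤ (H : ℝ) ^ 3 * (9 * L ^ 4) :=
          mul_le_mul_of_nonneg_left e3 hH3
      _ = 9 * ((H : ℝ) ^ 3 * L ^ 4) := by ring
  have d3 := mul_le_mul_of_nonneg_left d1 hC₂.le
  linarith

end V44
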