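import Pool.Agent.LibV44.TZ1

namespace V44
open T44

/-- Row TZ2a (real numbers only). `g = 10H ≥ 20`. `k` with `(S₁²)^k ≤ S₂ < (S₁²)^(k+1)` (`exists_nat_pow_near`), `k ≥ 350`; `s = k` or `k + 1`.
First term `≤ S₁^(1 + 2k + 2 + 3s - 3(2s+1)) g^(3(s+1) + 6(2s+1)) ≤ S₁^(-k) g^(15k + 24) ≤ 1/4` (`7200 ≤ g³`, `27H⁶ ≤ g⁶`); second term
`≤ S₁^(1 + 3s) S₂^(-2) · 600^(s+1) g⁶ ≤ S₁^(4-k) g^(3k+12) ≤ 1/4`. -/
theorem real0 (H : ℕ) (hH : 2 ≤ H) (S₁ S₂ : ℝ) (h1 : (10 * (H : ℝ)) ^ 300000 ≤ S₁) (h2 : S₁ ^ 700 ≤ S₂)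
    (h : ∀ k : ℕ, ∃ s : ℕ, (s = k ∨ s = k + 1) ∧ 1 ≤ S₁ * S₂ * S₁ ^ (3 * s) *
      (7200 ^ (s + 1) * (27 * (H : ℝ) ^ 6 / S₁ ^ 3) ^ (2 * s + 1) +
        (s + 1) * 300 ^ (s + 1) * (54 * (H : ℝ) ^ 6 / S₂ ^ 3))) : False := by
  obtain ⟨g, hg⟩ : ∃ g : ℝ, g = 10 * (H : ℝ) := ⟨_, rfl⟩
  have hHr : (2 : ℝ) ≤ H := by exact_mod_cast hH
  have hg20 : 20 ≤ g := by rw [hg]; linarith
  have hg1 : 1 ≤ g := by linarith
  rw [← hg] at h1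
  have hA1 : 1 < S₁ := by
    refine lt_of_lt_of_le ?_ h1
    exact one_lt_pow₀ (by linarith) (by norm_num)
  have hA0 : 0 < S₁ := by linarith
  have hB1 : 1 ≤ S₂ := (one_le_pow₀ hA1.le).trans h2
  have hB0 : 0 < S₂ := by linarith
  obtain ⟨k, hk1, hk2⟩ := exists_nat_pow_near hB1 (one_lt_pow₀ hA1 (two_ne_zero))
  rw [← pow_mul] at hk1 hk2
  have hk : 350 ≤ k := by
    have h3 : S₁ ^ 700 < S₁ ^ (2 * (k + 1)) := h2.trans_lt hk2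
    have h4 := (pow_lt_pow_iff_right₀ hA1).1 h3
    omega
  obtain ⟨s, hs, hs1⟩ := h k
  have hsk : k ≤ s := by omega
  have hsk' : s ≤ k + 1 := by omega
  have e1 : (7200 : ℝ) ≤ g ^ 3 := by
    calc (7200 : ℝ) ≤ 20 ^ 3 := by norm_num
      _ ≤ g ^ 3 := pow_le_pow_left₀ (by norm_num) hg20 3
  have e2 : 27 * (H : ℝ) ^ 6 ≤ g ^ 6 := by
    rw [hg, mul_pow]
    have : (0 : ℝ) ≤ (H : ℝ) ^ 6 := by positivity
    nlinarith
  have e3 : 54 * (H : ℝ) ^ 6 ≤ g ^ 6 := by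
    rw [hg, mul_pow]
    have : (0 : ℝ) ≤ (H : ℝ) ^ 6 := by positivity
    nlinarith
  have e4 : ∀ m : ℕ, g ^ (300000 * m) ≤ S₁ ^ m := by
    intro m
    rw [pow_mul]
    exact pow_le_pow_left₀ (by positivity) h1 m
  have e5 : ((s : ℝ) + 1) ≤ 2 ^ (s + 1) := by
    have h5 : s + 1 < 2 ^ (s + 1) := Nat.lt_two_pow_self
    have h6 : ((s + 1 : ℕ) : ℝ) < ((2 ^ (s + 1) : ℕ) : ℝ) := by exact_mod_cast h5
    push_cast at h6
    exact h6.le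
  -- the first term
  have t1 : S₁ * S₂ * S₁ ^ (3 * s) *
      (7200 ^ (s + 1) * (27 * (H : ℝ) ^ 6 / S₁ ^ 3) ^ (2 * s + 1)) ≤ 1 / 4 := by
    have h5 : S₁ * S₂ * S₁ ^ (3 * s) *
        (7200 ^ (s + 1) * (27 * (H : ℝ) ^ 6 / S₁ ^ 3) ^ (2 * s + 1)) =
        (S₂ * S₁ ^ (3 * s + 1) * (7200 ^ (s + 1) * (27 * (H : ℝ) ^ 6) ^ (2 * s + 1))) /
          S₁ ^ (6 * s + 3) := by
      rw [div_pow, ← pow_mul, show 3 * (2 * s + 1) = 6 * s + 3 by ring, pow_succ]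
      ring
    rw [h5, div_le_iff₀ (by positivity)]
    have h6 : (7200 : ℝ) ^ (s + 1) ≤ g ^ (3 * (s + 1)) := by
      rw [pow_mul]
      exact pow_le_pow_left₀ (by norm_num) e1 _
    have h7 : (27 * (H : ℝ) ^ 6) ^ (2 * s + 1) ≤ g ^ (6 * (2 * s + 1)) := by
      rw [pow_mul]
      exact pow_le_pow_left₀ (by positivity) e2 _
    have h8 : (7200 : ℝ) ^ (s + 1) * (27 * (H : ℝ) ^ 6) ^ (2 * s + 1) ≤ g ^ (15 * s + 9) := by
      calc (7200 : ℝ) ^ (s + 1) * (27 * (H : ℝ) ^ 6) ^ (2 * s + 1)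
          ≤ g ^ (3 * (s + 1)) * g ^ (6 * (2 * s + 1)) :=
            mul_le_mul h6 h7 (by positivity) (by positivity)
        _ = g ^ (15 * s + 9) := by rw [← pow_add]; congr 1; ring
    have h9 : 4 * g ^ (15 * s + 9) ≤ S₁ ^ s := by
      calc 4 * g ^ (15 * s + 9) ≤ g * g ^ (15 * s + 9) :=
            mul_le_mul_of_nonneg_right (by linarith) (by positivity)
        _ = g ^ (15 * s + 10) := by rw [← pow_succ']
        _ ≤ g ^ (300000 * s) := pow_le_pow_right₀ hg1 (by omega)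
        _ ≤ S₁ ^ s := e4 s
    have h10 : 4 * (S₂ * S₁ ^ (3 * s + 1) *
        (7200 ^ (s + 1) * (27 * (H : ℝ) ^ 6) ^ (2 * s + 1))) ≤ S₁ ^ (6 * s + 3) := by
      calc 4 * (S₂ * S₁ ^ (3 * s + 1) * (7200 ^ (s + 1) * (27 * (H : ℝ) ^ 6) ^ (2 * s + 1)))
          ≤ 4 * (S₁ ^ (2 * (k + 1)) * S₁ ^ (3 * s + 1) * g ^ (15 * s + 9)) := by
            gcongr
        _ = S₁ ^ (2 * (k + 1) + (3 * s + 1)) * (4 * g ^ (15 * s + 9)) := by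
            rw [pow_add S₁ (2 * (k + 1)) (3 * s + 1)]; ring
        _ ≤ S₁ ^ (2 * (k + 1) + (3 * s + 1)) * S₁ ^ s :=
            mul_le_mul_of_nonneg_left h9 (by positivity)
        _ = S₁ ^ (2 * (k + 1) + (3 * s + 1) + s) := by rw [← pow_add]
        _ ≤ S₁ ^ (6 * s + 3) := pow_le_pow_right₀ hA1.le (by omega)
    linarith
  -- the second term
  have t2 : S₁ * S₂ * S₁ ^ (3 * s) *
      ((s + 1) * 300 ^ (s + 1) * (54 * (H : ℝ) ^ 6 / S₂ ^ 3)) ≤ 1 / 4 := by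
    have h5 : S₁ * S₂ * S₁ ^ (3 * s) *
        ((s + 1) * 300 ^ (s + 1) * (54 * (H : ℝ) ^ 6 / S₂ ^ 3)) =
        (S₁ ^ (3 * s + 1) * ((s + 1) * 300 ^ (s + 1) * (54 * (H : ℝ) ^ 6))) / S₂ ^ 2 := by
      rw [pow_succ S₁ (3 * s)]
      field_simp
    rw [h5, div_le_iff₀ (by positivity)]
    have h6 : ((s : ℝ) + 1) * 300 ^ (s + 1) ≤ g ^ (3 * (s + 1)) := by
      calc ((s : ℝ) + 1) * 300 ^ (s + 1) ≤ 2 ^ (s + 1) * 300 ^ (s + 1) :=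
            mul_le_mul_of_nonneg_right e5 (by positivity)
        _ = 600 ^ (s + 1) := by rw [← mul_pow]; norm_num
        _ ≤ (g ^ 3) ^ (s + 1) := pow_le_pow_left₀ (by norm_num) (by linarith) _
        _ = g ^ (3 * (s + 1)) := by rw [← pow_mul]
    have h7 : ((s : ℝ) + 1) * 300 ^ (s + 1) * (54 * (H : ℝ) ^ 6) ≤ g ^ (3 * k + 12) := by
      calc ((s : ℝ) + 1) * 300 ^ (s + 1) * (54 * (H : ℝ) ^ 6)
          ≤ g ^ (3 * (s + 1)) * g ^ 6 := mul_le_mul h6 e3 (by positivity) (by positivity)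
        _ = g ^ (3 * (s + 1) + 6) := by rw [← pow_add]
        _ ≤ g ^ (3 * k + 12) := pow_le_pow_right₀ hg1 (by omega)
    have h8 : 4 * g ^ (3 * k + 12) ≤ S₁ ^ (k - 4) := by
      calc 4 * g ^ (3 * k + 12) ≤ g * g ^ (3 * k + 12) :=
            mul_le_mul_of_nonneg_right (by linarith) (by positivity)
        _ = g ^ (3 * k + 13) := by rw [← pow_succ']
        _ ≤ g ^ (300000 * (k - 4)) := pow_le_pow_right₀ hg1 (by omega)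
        _ ≤ S₁ ^ (k - 4) := e4 _
    have h9 : 4 * (S₁ ^ (3 * s + 1) * ((s + 1) * 300 ^ (s + 1) * (54 * (H : ℝ) ^ 6))) ≤
        S₂ ^ 2 := by
      calc 4 * (S₁ ^ (3 * s + 1) * ((s + 1) * 300 ^ (s + 1) * (54 * (H : ℝ) ^ 6)))
          ≤ 4 * (S₁ ^ (3 * k + 4) * g ^ (3 * k + 12)) := by
            have h10 : S₁ ^ (3 * s + 1) ≤ S₁ ^ (3 * k + 4) :=
              pow_le_pow_right₀ hA1.le (by omega)
            have h11 := mul_le_mul h10 h7 (by positivity) (by positivity)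
            linarith
        _ = S₁ ^ (3 * k + 4) * (4 * g ^ (3 * k + 12)) := by ring
        _ ≤ S₁ ^ (3 * k + 4) * S₁ ^ (k - 4) := mul_le_mul_of_nonneg_left h8 (by positivity)
        _ = S₁ ^ (3 * k + 4 + (k - 4)) := by rw [← pow_add]
        _ = (S₁ ^ (2 * k)) ^ 2 := by
            rw [← pow_mul]
            congr 1
            omega
        _ ≤ S₂ ^ 2 := pow_le_pow_left₀ (by positivity) hk1 2
    linarith
  rw [mul_add] at hs1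
  linarith

/-- Row TZ2b. `pade0` and `real0`. -/
theorem thue0 {H α β : ℕ} {p q : ℝ} (h : Cl α β p q) (hH : 2 ≤ H) (z₁ z₂ : ℤ × ℤ × ℤ)
    (hz₁ : Sol H α β z₁) (hz₂ : Sol H α β z₂) (ha₁ : z₁.1 = 0) (ha₂ : z₂.1 = 0)
    (h1 : (10 * (H : ℝ)) ^ 300000 ≤ sS p q z₁) (h2 : sS p q z₁ ^ 700 ≤ sS p q z₂) : False := by
  have hH' : 1 ≤ H := by omega
  have hHr : (1 : ℝ) ≤ H := by exact_mod_cast hH'
  have p1 : 0 < sS p q z₁ := lt_of_lt_of_le (by positivity) h1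
  have p2 : 0 < sS p q z₂ := lt_of_lt_of_le (by positivity) h2
  exact real0 H hH _ _ h1 h2 (fun k => pade0 h hH' z₁ z₂ hz₁ hz₂ ha₁ ha₂ p1 p2 k)

end V44
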