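import Pool.Agent.LibU44.GC
import Pool.Agent.LibV44.TZ2

namespace V44
open T44 U44

/-- `U44.gigantic` for `a = 0` -/
theorem gigantic0 {H α β : ℕ} {p q : ℝ} (h : Cl α β p q) (hH : 2 ≤ H) (J : ℕ) (T : Finset (ℤ × ℤ × ℤ))
    (hT : ∀ z ∈ T, Sol H α β z ∧ z.1 = 0 ∧ (10 * (H : ℝ)) ^ 300000 ≤ sS p q z ∧
      Nat.gcd z.1.natAbs (Nat.gcd z.2.1.natAbs z.2.2.natAbs) ≤ J) :
    (T.card : ℝ) ≤ J * 44 := by
  classical
  have hH' : 1 ≤ H := by omega
  have hH1 : (1 : ℝ) ≤ H := by exact_mod_cast hH'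
  have hbig : 10 ^ 7 * (H : ℝ) ^ 20 ≤ (10 * (H : ℝ)) ^ 300000 := by
    have b1 : (10 * (H : ℝ)) ^ 20 ≤ (10 * (H : ℝ)) ^ 300000 := by
      apply pow_le_pow_right₀ (by linarith)
      norm_num
    refine le_trans ?_ b1
    rw [mul_pow]
    apply mul_le_mul_of_nonneg_right _ (by positivity)
    norm_num
  have hT2 : ∀ z ∈ T, 10 ^ 7 * (H : ℝ) ^ 20 ≤ sS p q z := fun z hz => hbig.trans (hT z hz).2.2.1
  have hHp : (1 : ℝ) ≤ (H : ℝ) ^ 20 := one_le_pow₀ hH1
  have hSpos : ∀ z ∈ T, 10 ^ 7 ≤ sS p q z := by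
    intro z hz
    have h1 := hT2 z hz
    nlinarith
  have hgpos : ∀ z ∈ T, 0 < g4_g z := by
    intro z hz
    rcases Nat.eq_zero_or_pos (g4_g z) with h0 | h0
    · exfalso
      have h1 := hSpos z hz
      rw [g4_sS, h0] at h1
      norm_num at h1
    · exact h0
  have hfib : T.card ≤ J * (T.image g4_dir).card := by
    apply Finset.card_le_mul_card_image
    intro d _
    have h1 : ((T.filter fun z => g4_dir z = d).image g4_g).card =
        (T.filter fun z => g4_dir z = d).card := by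
      apply Finset.card_image_of_injOn
      intro z hz w hw hzw
      simp only [Finset.coe_filter, Set.mem_ofPred_eq] at hz hw
      obtain ⟨m1, m2, m3⟩ := g4_mul z
      obtain ⟨n1, n2, n3⟩ := g4_mul w
      have hzw' : g4_g z = g4_g w := hzw
      refine Prod.ext ?_ (Prod.ext ?_ ?_)
      · rw [m1, n1, hzw', hz.2, hw.2]
      · rw [m2, n2, hzw', hz.2, hw.2]
      · rw [m3, n3, hzw', hz.2, hw.2]
    rw [← h1]
    have h2 : (T.filter fun z => g4_dir z = d).image g4_g ⊆ Finset.Icc 1 J := by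
      intro g hg
      rw [Finset.mem_image] at hg
      obtain ⟨z, hz, rfl⟩ := hg
      rw [Finset.mem_filter] at hz
      rw [Finset.mem_Icc]
      exact ⟨hgpos z hz.1, (hT z hz.1).2.2.2⟩
    calc _ ≤ (Finset.Icc 1 J).card := Finset.card_le_card h2
      _ = J := by simp
  have hrep : ∀ d ∈ T.image g4_dir, ∃ z ∈ T, g4_dir z = d := by
    intro d hd
    rw [Finset.mem_image] at hd
    exact hd
  choose! rep hrep1 hrep2 using hrep
  have key : ∀ z ∈ T, ∀ w ∈ T, g4_dir z ≠ g4_dir w → sS p q z ≤ sS p q w →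
      sS p q z ^ 7 ≤ sS p q w ^ 6 := by
    intro z hz w hw hne hle
    have hn : ¬ (z.1 * w.2.1 = w.1 * z.2.1 ∧ z.1 * w.2.2 = w.1 * z.2.2 ∧
        z.2.1 * w.2.2 = w.2.1 * z.2.2) := by
      rintro ⟨c1, c2, c3⟩
      rcases g4_par (hgpos z hz) (hgpos w hw) c1 c2 c3 with h1 | ⟨h1, h2, h3⟩
      · exact hne h1.symm
      · have hz1 := hSpos z hz
        have hw1 := hSpos w hw
        rw [g4_sS] at hz1 hw1
        have hs : sS p q (g4_dir w) = -sS p q (g4_dir z) := by
          unfold sS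
          rw [h2, h3]
          push_cast
          ring
        rw [hs] at hw1
        have hgz : (0 : ℝ) < g4_g z := by exact_mod_cast hgpos z hz
        have hgw : (0 : ℝ) < g4_g w := by exact_mod_cast hgpos w hw
        have hp1 : 0 < sS p q (g4_dir z) := by
          by_contra hcon
          rw [not_lt] at hcon
          have := mul_nonpos_of_nonneg_of_nonpos hgz.le hcon
          linarith
        have hp2 := mul_pos hgw hp1
        nlinarith
    have h1 := gap h hH' z w (hT z hz).1 (hT w hw).1 (by have := hSpos z hz; linarith) hle hn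
    have hsz := hT2 z hz
    have hz7 := hSpos z hz
    have hw7 := hSpos w hw
    set s := sS p q z with hs
    set t := sS p q w with ht
    have hs0 : 0 < s := by linarith
    have ht0 : 0 < t := by linarith
    have h2 : (s ^ 4) ^ 2 ≤ (3000 * (H : ℝ) ^ 10 * t ^ 3) ^ 2 :=
      pow_le_pow_left₀ (by positivity) h1 2
    have h3 : s ^ 7 * (9 * 10 ^ 6 * (H : ℝ) ^ 20) ≤ t ^ 6 * (9 * 10 ^ 6 * (H : ℝ) ^ 20) := by
      calc s ^ 7 * (9 * 10 ^ 6 * (H : ℝ) ^ 20) ≤ s ^ 7 * s := by
            apply mul_le_mul_of_nonneg_left _ (by positivity)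
            nlinarith
        _ = (s ^ 4) ^ 2 := by ring
        _ ≤ (3000 * (H : ℝ) ^ 10 * t ^ 3) ^ 2 := h2
        _ = t ^ 6 * (9 * 10 ^ 6 * (H : ℝ) ^ 20) := by ring
    exact le_of_mul_le_mul_right h3 (by positivity)
  have hinj : Set.InjOn (fun d => sS p q (rep d)) (T.image g4_dir : Set (ℤ × ℤ × ℤ)) := by
    intro d hd e he hde
    by_contra hne
    have hd' := Finset.mem_coe.1 hd
    have he' := Finset.mem_coe.1 he
    have h1 := key (rep d) (hrep1 d hd') (rep e) (hrep1 e he')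
      (by rw [hrep2 d hd', hrep2 e he']; exact hne) (le_of_eq hde)
    have hde' : sS p q (rep d) = sS p q (rep e) := hde
    rw [hde'] at h1
    have h2 := hSpos (rep e) (hrep1 e he')
    set s := sS p q (rep e) with hs
    have h3 : s ^ 7 = s ^ 6 * s := by ring
    rw [h3] at h1
    have h4 : 0 < s ^ 6 := pow_pos (by linarith) 6
    nlinarith
  have hch := chain44 ((T.image g4_dir).image fun d => sS p q (rep d)) (by
    intro x hx
    rw [Finset.mem_image] at hx
    obtain ⟨d, hd, rfl⟩ := hx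
    have h1 := hSpos _ (hrep1 d hd)
    have h2 := Real.exp_one_lt_d9
    linarith) (by
    intro x hx y hy hxy
    rw [Finset.mem_image] at hx hy
    obtain ⟨d, hd, rfl⟩ := hx
    obtain ⟨e, he, rfl⟩ := hy
    refine ⟨?_, ?_⟩
    · apply key _ (hrep1 d hd) _ (hrep1 e he) _ hxy.le
      rw [hrep2 d hd, hrep2 e he]
      rintro rfl
      exact lt_irrefl _ hxy
    · by_contra hcon
      rw [not_lt] at hcon
      obtain ⟨s1, s2, s3, -⟩ := hT _ (hrep1 d hd)
      obtain ⟨t1, t2, -, -⟩ := hT _ (hrep1 e he)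
      exact thue0 h hH _ _ s1 t1 s2 t2 s3 hcon)
  rw [Finset.card_image_of_injOn hinj] at hch
  have hch' : ((T.image g4_dir).card : ℝ) ≤ 44 := by exact_mod_cast hch
  calc (T.card : ℝ) ≤ ((J * (T.image g4_dir).card : ℕ) : ℝ) := by exact_mod_cast hfib
    _ = J * ((T.image g4_dir).card : ℝ) := by push_cast; ring
    _ ≤ J * 44 := mul_le_mul_of_nonneg_left hch' (Nat.cast_nonneg J)

end V44
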