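import Pool.Agent.LibV44.GG
import Pool.Agent.LibV44.GZ

namespace V44
open T44 U44

/-- `gig_sharp` for `a = 0` (`gigantic0`) -/
theorem gig_zero (H : ℕ) (hH : 2 ≤ H) (S : Finset (ℤ × ℤ × ℤ × ℤ))
    (hS : ∀ w ∈ S, w.1 = 0 ∧ ∃ (α β : ℕ) (p q : ℝ) (z : ℤ × ℤ × ℤ), Cl α β p q ∧ Sol H α β z ∧
      w = Rep α β z ∧ (10 * (H : ℝ)) ^ 300000 ≤ sS p q z) :
    (S.card : ℝ) ≤ 44 * ((H : ℝ) ^ 3 * (1 + 3 * Real.log H) ^ 2) := by
  classical
  have hne : ∀ w ∈ S, w.1 = 0 := fun w hw => (hS w hw).1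
  have hS' : ∀ w ∈ S, ∃ (α β : ℕ) (p q : ℝ) (z : ℤ × ℤ × ℤ), Cl α β p q ∧ Sol H α β z ∧
      w = Rep α β z ∧ (10 * (H : ℝ)) ^ 300000 ≤ sS p q z := fun w hw => (hS w hw).2
  choose! α β p q z hz using hS'
  have hfib := Finset.card_eq_sum_card_fiberwise (s := S) (t := Prs (H ^ 3))
    (f := fun w => (α w, β w)) (fun w hw => by
      obtain ⟨hcl, hsol, -, -⟩ := hz w hw
      exact gg_prs hcl hsol)
  have hone : ∀ c ∈ Prs (H ^ 3),
      (((S.filter (fun w => (α w, β w) = c)).card : ℕ) : ℝ) ≤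
        44 * (H : ℝ) ^ 3 * (1 / ((c.1 : ℝ) * c.2)) := by
    intro c _
    rcases (S.filter (fun w => (α w, β w) = c)).eq_empty_or_nonempty with he | ⟨w0, hw0⟩
    · rw [he]
      simp only [Finset.card_empty, Nat.cast_zero]
      positivity
    · rw [Finset.mem_filter] at hw0
      have hinj : Set.InjOn z (S.filter (fun w => (α w, β w) = c) : Finset (ℤ × ℤ × ℤ × ℤ)) := by
        intro w hw w' hw' e
        rw [Finset.mem_coe, Finset.mem_filter] at hw hw'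
        obtain ⟨-, -, h1, -⟩ := hz w hw.1
        obtain ⟨-, -, h1', -⟩ := hz w' hw'.1
        have e1 : (α w, β w) = (α w', β w') := hw.2.trans hw'.2.symm
        rw [Prod.mk.injEq] at e1
        rw [h1, h1', e, e1.1, e1.2]
      rw [← Finset.card_image_of_injOn hinj]
      have hc1 : (α w0) = c.1 := congrArg Prod.fst hw0.2
      have hc2 : (β w0) = c.2 := congrArg Prod.snd hw0.2
      have hJ : (⌊(H : ℝ) ^ 3 / ((α w0 : ℝ) * β w0)⌋₊ : ℝ) ≤ (H : ℝ) ^ 3 / ((α w0 : ℝ) * β w0) :=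
        Nat.floor_le (by positivity)
      have hg := gigantic0 (hz w0 hw0.1).1 hH ⌊(H : ℝ) ^ 3 / ((α w0 : ℝ) * β w0)⌋₊
        ((S.filter (fun w => (α w, β w) = c)).image z) (by
          intro z' hz'
          rw [Finset.mem_image] at hz'
          obtain ⟨w, hw, rfl⟩ := hz'
          rw [Finset.mem_filter] at hw
          obtain ⟨hcl, hsol, h1, h3⟩ := hz w hw.1
          have e1 : (α w, β w) = (α w0, β w0) := hw.2.trans hw0.2.symm
          rw [Prod.mk.injEq] at e1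
          have hcl' := hcl
          rw [e1.1, e1.2] at hcl'
          obtain ⟨ep, eq⟩ := h3b_pq hcl' (hz w0 hw0.1).1
          have hgc := gg_gcd hcl hsol
          rw [← e1.1, ← e1.2, ← ep, ← eq]
          refine ⟨hsol, ?_, h3, hgc⟩
          have : w.1 = (z w).1 := congrArg Prod.fst h1
          rw [← this]
          exact hne w hw.1)
      refine hg.trans ?_
      rw [← hc1, ← hc2]
      calc (⌊(H : ℝ) ^ 3 / ((α w0 : ℝ) * β w0)⌋₊ : ℝ) * 44
          ≤ (H : ℝ) ^ 3 / ((α w0 : ℝ) * β w0) * 44 := by linarith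
        _ = 44 * (H : ℝ) ^ 3 * (1 / ((α w0 : ℝ) * β w0)) := by ring
  have hsum : (S.card : ℝ) ≤ 44 * (H : ℝ) ^ 3 * ∑ c ∈ Prs (H ^ 3), 1 / ((c.1 : ℝ) * c.2) := by
    rw [hfib, Finset.mul_sum]
    push_cast
    exact Finset.sum_le_sum hone
  have hlog : Real.log (((H ^ 3 : ℕ)) : ℝ) = 3 * Real.log H := by
    push_cast
    rw [Real.log_pow]
    norm_num
  have hp := prs_inv (H ^ 3)
  rw [hlog] at hp
  refine hsum.trans ?_
  calc 44 * (H : ℝ) ^ 3 * ∑ c ∈ Prs (H ^ 3), 1 / ((c.1 : ℝ) * c.2)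
      ≤ 44 * (H : ℝ) ^ 3 * (1 + 3 * Real.log H) ^ 2 :=
        mul_le_mul_of_nonneg_left hp (by positivity)
    _ = _ := by ring

end V44
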