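import Pool.Agent.LibV44.Defs

namespace V44

/-- Row LO3a. `A = 6tc - 27t⁴`: `36t²B = A² - 54At⁴ - 243t⁸` (check by `ring`; with `τ = t²`, `36B = A²/τ - 54Aτ - 243τ³`), the same for `t'`; if `τ ≠ τ'`, subtract and divide by
`τ' - τ`: `A² + 54Aττ' + 243ττ'(τ² + ττ' + τ'²) = 0`, i.e. `(A + 27ττ')² + 243ττ'(τ - τ')² = 0`, contradiction. So `t = t'`, then `c = c'`. -/
theorem t_unique (t c t' c' : ℤ) (ht : 0 < t) (ht' : 0 < t')
    (hA : 6 * t * c - 27 * t ^ 4 = 6 * t' * c' - 27 * t' ^ 4)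
    (hB : c ^ 2 - 18 * c * t ^ 3 + 54 * t ^ 6 = c' ^ 2 - 18 * c' * t' ^ 3 + 54 * t' ^ 6) :
    t = t' ∧ c = c' := by
  have key : t = t' := by
    by_contra hne
    have hne2 : t' ^ 2 - t ^ 2 ≠ 0 := by
      intro h0
      have h1 : (t' - t) * (t' + t) = 0 := by linear_combination h0
      rcases mul_eq_zero.mp h1 with h2 | h2
      · exact hne (by omega)
      · omega
    obtain ⟨A, hAd⟩ : ∃ A : ℤ, A = 6 * t * c - 27 * t ^ 4 := ⟨_, rfl⟩
    have hAd' : A = 6 * t' * c' - 27 * t' ^ 4 := hAd.trans hA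
    have e1 : 36 * t ^ 2 * (c ^ 2 - 18 * c * t ^ 3 + 54 * t ^ 6)
        = A ^ 2 - 54 * A * t ^ 4 - 243 * t ^ 8 := by
      rw [hAd]; ring
    have e2 : 36 * t' ^ 2 * (c' ^ 2 - 18 * c' * t' ^ 3 + 54 * t' ^ 6)
        = A ^ 2 - 54 * A * t' ^ 4 - 243 * t' ^ 8 := by
      rw [hAd']; ring
    have e3 : (t' ^ 2 - t ^ 2) * ((A + 27 * (t ^ 2 * t' ^ 2)) ^ 2
        + 243 * (t ^ 2 * t' ^ 2) * (t' ^ 2 - t ^ 2) ^ 2) = 0 := by
      linear_combination (-(t' ^ 2)) * e1 + t ^ 2 * e2 + 36 * t ^ 2 * t' ^ 2 * hB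
    rcases mul_eq_zero.mp e3 with h4 | h4
    · exact hne2 h4
    · have h5 : 0 < (t' ^ 2 - t ^ 2) ^ 2 := by positivity
      have h6 : 0 < 243 * (t ^ 2 * t' ^ 2) * (t' ^ 2 - t ^ 2) ^ 2 := by positivity
      have h7 : 0 ≤ (A + 27 * (t ^ 2 * t' ^ 2)) ^ 2 := sq_nonneg _
      omega
  refine ⟨key, ?_⟩
  subst key
  have h8 : 6 * t * (c - c') = 0 := by linear_combination hA
  rcases mul_eq_zero.mp h8 with h9 | h9
  · omega
  · omega

/-- Row LO3b. A positive integer `b ≤ 13T³` has at most three prime divisors `> T/8`, if `T > 53248 = 13 · 8⁴`: four distinct ones would have product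
`> (T/8)⁴ > 13T³` and divide `b`. -/
theorem big_primes (T b : ℕ) (hT : 53248 < T) (hb : 0 < b) (hbT : b ≤ 13 * T ^ 3) (S : Finset ℕ)
    (hS : ∀ p ∈ S, p.Prime ∧ T < 8 * p ∧ p ∣ b) : S.card ≤ 3 := by
  by_contra hcard
  obtain ⟨S', hS', hc'⟩ := Finset.exists_subset_card_eq (show 4 ≤ S.card by omega)
  have h1 : ∏ p ∈ S', p ∣ b :=
    Finset.prod_primes_dvd b (fun p hp => (hS p (hS' hp)).1.prime) (fun p hp => (hS p (hS' hp)).2.2)
  have h2 : ∏ p ∈ S', p ≤ b := Nat.le_of_dvd hb h1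
  have h3 : ∏ _p ∈ S', T ≤ ∏ p ∈ S', 8 * p :=
    Finset.prod_le_prod' (fun p hp => (hS p (hS' hp)).2.1.le)
  rw [Finset.prod_const, Finset.prod_mul_distrib, Finset.prod_const, hc'] at h3
  have h4 : T ^ 4 ≤ 8 ^ 4 * (13 * T ^ 3) := h3.trans (Nat.mul_le_mul_left _ (h2.trans hbT))
  have hT3 : 0 < T ^ 3 := by positivity
  have h5 : T ^ 3 * T ≤ T ^ 3 * 53248 := by
    calc T ^ 3 * T = T ^ 4 := by ring
      _ ≤ 8 ^ 4 * (13 * T ^ 3) := h4
      _ = T ^ 3 * 53248 := by ring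
  have h6 := Nat.le_of_mul_le_mul_left h5 hT3
  omega

/-- Row LO3c. `β` is determined by `α, t` and the value: `αβ(α - β - 6t) = αβ'(α - β' - 6t)`, `β ≠ β'` gives `β + β' = α - 6t < 0`. -/
theorem beta_unique (t α β β' : ℤ) (hα : 1 ≤ α) (hαt : α ≤ t) (hβ : 1 ≤ β) (hβ' : 1 ≤ β')
    (h : α * β * (α - β - 6 * t) = α * β' * (α - β' - 6 * t)) : β = β' := by
  have h1 : α * ((β - β') * (α - 6 * t - (β + β'))) = 0 := by linear_combination h
  rcases mul_eq_zero.mp h1 with h2 | h2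
  · omega
  · rcases mul_eq_zero.mp h2 with h3 | h3
    · omega
    · omega

end V44
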