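import Pool.Agent.LibV44.WU0
import Pool.Agent.LibV44.LO3

namespace V44
open T44

/-- the quadruples `(A, B, x, y)`: an integral point of order three on a member of `Fam X` -/
def Tor (X : ℕ) : Set (ℤ × ℤ × ℤ × ℤ) :=
  {w | (w.1, w.2.1) ∈ Fam X ∧ w.2.2.2 ^ 2 = w.2.2.1 ^ 3 + w.1 * w.2.2.1 + w.2.1 ∧
    3 * w.2.2.1 ^ 4 + 6 * w.1 * w.2.2.1 ^ 2 + 12 * w.2.1 * w.2.2.1 - w.1 ^ 2 = 0}

/-- the quadruples `(A, B, x, y)`: an integral point on a member of `Fam X` -/
def IntPts (X : ℕ) : Set (ℤ × ℤ × ℤ × ℤ) :=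
  {w | (w.1, w.2.1) ∈ Fam X ∧ w.2.2.2 ^ 2 = w.2.2.1 ^ 3 + w.1 * w.2.2.1 + w.2.1}

theorem av_pos (t s t' s' : ℤ) (ht : 0 < t) (ht' : 0 < t')
    (hA : 27 * t ^ 4 + 6 * t * s = 27 * t' ^ 4 + 6 * t' * s')
    (hB : s ^ 2 - 27 * t ^ 6 = s' ^ 2 - 27 * t' ^ 6) : t = t' ∧ s = s' := by
  obtain ⟨e1, e2⟩ := t_unique t (s + 9 * t ^ 3) t' (s' + 9 * t' ^ 3) ht ht'
    (by linear_combination hA) (by linear_combination hB)
  subst e1
  exact ⟨rfl, by linarith⟩

theorem av_zero (s t' s' : ℤ) (ht' : t' ≠ 0)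
    (hA : 27 * t' ^ 4 + 6 * t' * s' = 0) (hB : s ^ 2 = s' ^ 2 - 27 * t' ^ 6) : False := by
  have h1 : 3 * t' * (9 * t' ^ 3 + 2 * s') = 0 := by linear_combination hA
  have h2 : 9 * t' ^ 3 + 2 * s' = 0 := by
    rcases mul_eq_zero.1 h1 with h3 | h3
    · exfalso
      apply ht'
      linarith
    · exact h3
  have h3 : 4 * s ^ 2 = -27 * t' ^ 6 := by
    have h4 : 2 * s' = -(9 * t' ^ 3) := by linarith
    have h5 : 4 * s' ^ 2 = (9 * t' ^ 3) ^ 2 := by
      calc 4 * s' ^ 2 = (2 * s') ^ 2 := by ring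
        _ = (9 * t' ^ 3) ^ 2 := by rw [h4]; ring
    linear_combination 4 * hB + h5
  have h4 : 0 < t' ^ 6 := by positivity
  have h5 : 0 ≤ s ^ 2 := sq_nonneg s
  linarith

theorem av_unique (t s t' s' : ℤ)
    (hA : 27 * t ^ 4 + 6 * t * s = 27 * t' ^ 4 + 6 * t' * s')
    (hB : s ^ 2 - 27 * t ^ 6 = s' ^ 2 - 27 * t' ^ 6) :
    (t' = t ∧ s' = s) ∨ (t' = -t ∧ s' = -s) := by
  rcases lt_trichotomy t 0 with ht | ht | ht
  · rcases lt_trichotomy t' 0 with ht' | ht' | ht'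
    · obtain ⟨e1, e2⟩ := av_pos (-t) (-s) (-t') (-s') (by linarith) (by linarith)
        (by linear_combination hA) (by linear_combination hB)
      left
      exact ⟨by linarith, by linarith⟩
    · exfalso
      subst ht'
      exact av_zero s' t s ht.ne (by linear_combination hA) (by linear_combination -hB)
    · obtain ⟨e1, e2⟩ := av_pos (-t) (-s) t' s' (by linarith) ht'
        (by linear_combination hA) (by linear_combination hB)
      right
      exact ⟨by linarith, by linarith⟩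
  · subst ht
    by_cases ht' : t' = 0
    · subst ht'
      have h1 : s' ^ 2 = s ^ 2 := by linear_combination -hB
      rcases sq_eq_sq_iff_eq_or_eq_neg.1 h1 with h2 | h2
      · left
        exact ⟨rfl, h2⟩
      · right
        exact ⟨by norm_num, h2⟩
    · exfalso
      exact av_zero s t' s' ht' (by linear_combination -hA) (by linear_combination hB)
  · rcases lt_trichotomy t' 0 with ht' | ht' | ht'
    · obtain ⟨e1, e2⟩ := av_pos t s (-t') (-s') ht (by linarith)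
        (by linear_combination hA) (by linear_combination hB)
      right
      exact ⟨by linarith, by linarith⟩
    · exfalso
      subst ht'
      exact av_zero s' t s ht.ne' (by linear_combination hA) (by linear_combination -hB)
    · obtain ⟨e1, e2⟩ := av_pos t s t' s' ht ht' hA hB
      left
      exact ⟨e1.symm, e2.symm⟩

/-- exactly two integral points of order three on each member -/
theorem tor_count (X : ℕ) : (Tor X).Finite ∧ (Tor X).ncard = 2 * (Fam X).ncard := by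
  classical
  have hpar : ∀ z ∈ Fam X, ∃ t s : ℤ, z.1 = 27 * t ^ 4 + 6 * t * s ∧ z.2 = s ^ 2 - 27 * t ^ 6 := by
    rintro ⟨A, B⟩ ⟨hA, hB, hD, x₀, y₀, h1, h2⟩
    obtain ⟨t, s, -, -, eA, eB⟩ := param3 A B x₀ y₀ h1 h2 hD
    exact ⟨t, s, eA, eB⟩
  choose! t s hz1 hz2 using hpar
  have hF := fam_finite X
  obtain ⟨G, hG⟩ : ∃ G : (ℤ × ℤ) × ℤ → ℤ × ℤ × ℤ × ℤ, G = fun k =>
      (k.1.1, k.1.2, 3 * t k.1 ^ 2, k.2 * (s k.1 + 9 * t k.1 ^ 3)) := ⟨_, rfl⟩
  obtain ⟨I, hI⟩ : ∃ I : Finset ((ℤ × ℤ) × ℤ), I = hF.toFinset ×ˢ ({1, -1} : Finset ℤ) := ⟨_, rfl⟩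
  have hy0 : ∀ z ∈ Fam X, s z + 9 * t z ^ 3 ≠ 0 := by
    intro z hz h0
    have hD := hz.2.2.1
    rw [hz1 z hz, hz2 z hz] at hD
    apply (disc3 (t z) (s z) hD).1
    rw [h0, mul_zero]
  have hinj : Set.InjOn G (I : Set ((ℤ × ℤ) × ℤ)) := by
    rintro ⟨z, e⟩ hz ⟨z', e'⟩ hz' h
    rw [Finset.mem_coe, hI, Finset.mem_product, hF.mem_toFinset] at hz hz'
    simp only [hG, Prod.mk.injEq] at h
    obtain ⟨h1, h2, h3, h4⟩ := h
    have hzz : z = z' := Prod.ext h1 h2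
    subst hzz
    have := mul_right_cancel₀ (hy0 z hz.1) h4
    rw [this]
  have himg : (I.image G : Set (ℤ × ℤ × ℤ × ℤ)) = Tor X := by
    ext ⟨A, B, x, y⟩
    rw [Finset.coe_image, Set.mem_image]
    constructor
    · rintro ⟨⟨z, e⟩, hz, h⟩
      rw [Finset.mem_coe, hI, Finset.mem_product, hF.mem_toFinset] at hz
      have hz' : z ∈ Fam X := hz.1
      have he : e ^ 2 = 1 := by
        have := hz.2
        simp only [Finset.mem_insert, Finset.mem_singleton] at this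
        rcases this with rfl | rfl <;> norm_num
      simp only [hG, Prod.mk.injEq] at h
      obtain ⟨h1, h2, h3, h4⟩ := h
      subst h1 h2 h3 h4
      refine ⟨hz', ?_, ?_⟩
      · show (e * (s z + 9 * t z ^ 3)) ^ 2 = (3 * t z ^ 2) ^ 3 + z.1 * (3 * t z ^ 2) + z.2
        rw [mul_pow, he, hz1 z hz', hz2 z hz']
        ring
      · show 3 * (3 * t z ^ 2) ^ 4 + 6 * z.1 * (3 * t z ^ 2) ^ 2 + 12 * z.2 * (3 * t z ^ 2) -
          z.1 ^ 2 = 0
        rw [hz1 z hz', hz2 z hz']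
        exact div3 (t z) (s z)
    · rintro ⟨hz, h1, h2⟩
      simp only at hz h1 h2
      have hD := hz.2.2.1
      simp only at hD
      obtain ⟨t', s', e1, e2, eA, eB⟩ := param3 A B x y h1 h2 hD
      have k1 := hz1 (A, B) hz
      have k2 := hz2 (A, B) hz
      simp only at k1 k2
      have hu := av_unique (t (A, B)) (s (A, B)) t' s' (by rw [← k1, ← eA]) (by rw [← k2, ← eB])
      have hmem : ∀ e ∈ ({1, -1} : Finset ℤ), (((A, B), e) : (ℤ × ℤ) × ℤ) ∈ (I : Set _) := by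
        intro e he
        rw [Finset.mem_coe, hI, Finset.mem_product, hF.mem_toFinset]
        exact ⟨hz, he⟩
      rcases hu with ⟨u1, u2⟩ | ⟨u1, u2⟩
      · refine ⟨((A, B), 1), hmem 1 (by simp), ?_⟩
        simp only [hG, Prod.mk.injEq, true_and]
        rw [e1, e2, u1, u2]
        exact ⟨rfl, by ring⟩
      · refine ⟨((A, B), -1), hmem (-1) (by simp), ?_⟩
        simp only [hG, Prod.mk.injEq, true_and]
        rw [e1, e2, u1, u2]
        exact ⟨by ring, by ring⟩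
  refine ⟨himg ▸ Finset.finite_toSet _, ?_⟩
  rw [← himg, Set.ncard_coe_finset, Finset.card_image_of_injOn hinj, hI, Finset.card_product,
    Set.ncard_eq_toFinset_card _ hF]
  have : ({1, -1} : Finset ℤ).card = 2 := by decide
  rw [this, mul_comm]

/-- all integral points: two of order three on each member, and the others -/
theorem int_count (X : ℕ) (h : (PtsAll X).Finite) :
    (IntPts X).Finite ∧ (IntPts X).ncard = 2 * (Fam X).ncard + (PtsAll X).ncard := by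
  obtain ⟨h1, h2⟩ := tor_count X
  have hU : IntPts X = Tor X ∪ PtsAll X := by
    ext w
    constructor
    · rintro ⟨k1, k2⟩
      by_cases k3 : 3 * w.2.2.1 ^ 4 + 6 * w.1 * w.2.2.1 ^ 2 + 12 * w.2.1 * w.2.2.1 - w.1 ^ 2 = 0
      · exact Or.inl ⟨k1, k2, k3⟩
      · exact Or.inr ⟨k1, k2, k3⟩
    · rintro (⟨k1, k2, -⟩ | ⟨k1, k2, -⟩)
      · exact ⟨k1, k2⟩
      · exact ⟨k1, k2⟩
  have hd : Disjoint (Tor X) (PtsAll X) := by
    rw [Set.disjoint_left]
    rintro w ⟨-, -, k3⟩ ⟨-, -, k4⟩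
    exact k4 k3
  refine ⟨hU ▸ h1.union h, ?_⟩
  rw [hU, Set.ncard_union_eq hd h1 h, h2]

/-- every exceptional curve has a point -/
theorem exc_le (X : ℕ) (h : (PtsAll X).Finite) : (Exc X).ncard ≤ (PtsAll X).ncard := by
  have hsub : Exc X ⊆ (fun w : ℤ × ℤ × ℤ × ℤ => (w.1, w.2.1)) '' PtsAll X := by
    rintro ⟨A, B⟩ ⟨hF, x, y, h3, h4⟩
    exact ⟨(A, B, x, y), ⟨hF, h3, h4⟩, rfl⟩
  exact (Set.ncard_le_ncard hsub (h.image _)).trans (Set.ncard_image_le h)

end V44
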