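import Pool.Agent.LibV44.P0
import Pool.Agent.LibT44.D4

namespace V44
open T44

/-- Row P1. Choose `(s, t)` for each `z ∈ T`; `z ↦ (s, t)` is injective. `F(s b + t b₂) = t (e₂ s² + e₁ s t + F(b₂) t²)` (as `F(b) = 0`), with the
integers `e₂, e₁` of `T44.line_nonconst` (`z' = b`, `z₀ = b₂`; `ring`). If `(e₂, e₁) ≠ (0, 0)`: `bin_count`. If `e₂ = e₁ = 0` then `T` is empty:
when `b.2.1, b.2.2 ≠ 0`, `line_nonconst` gives `F(b₂) = 0`, so `F(z) = 0`; otherwise `F(b) = 0` gives `b.2.1 = b.2.2 = 0`, `b.1 ≠ 0`,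
`e₁ = - b.1 * b₂.2.1 * b₂.2.2 = 0`, and `z.2.1 = t b₂.2.1`, `z.2.2 = t b₂.2.2`, one of them `0`. -/
theorem zero_plane {α β : ℕ} {p q : ℝ} (h : Cl α β p q) (K : ℕ) (b b₂ : ℤ × ℤ × ℤ) (hb : b ≠ 0)
    (hF : F α β b = 0) (T : Finset (ℤ × ℤ × ℤ))
    (hT : ∀ z ∈ T, z.2.1 ≠ 0 ∧ z.2.2 ≠ 0 ∧ F α β z ≠ 0 ∧ |F α β z| ≤ (K : ℤ) ∧
      ∃ s t : ℤ, z = s • b + t • b₂) : T.card ≤ 20 * K := by
  classical
  have hex : ∀ z : ℤ × ℤ × ℤ, ∃ w : ℤ × ℤ, z ∈ T → z = w.1 • b + w.2 • b₂ := by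
    intro z
    by_cases hz : z ∈ T
    · obtain ⟨s, t, e⟩ := (hT z hz).2.2.2.2
      exact ⟨(s, t), fun _ => e⟩
    · exact ⟨(0, 0), fun h => absurd h hz⟩
  choose g hg using hex
  have hinj : (T.image g).card = T.card := by
    apply Finset.card_image_of_injOn
    intro x hx y hy hxy
    rw [hg x (Finset.mem_coe.1 hx), hg y (Finset.mem_coe.1 hy)]
    rw [hxy]
  obtain ⟨a0, u0, v0⟩ := b₂
  obtain ⟨a1, u1, v1⟩ := b
  have hF' : (α : ℤ) * v1 ^ 3 - β * u1 ^ 3 - a1 * u1 * v1 = 0 := hF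
  have hco : ∀ z ∈ T, z.1 = (g z).1 * a1 + (g z).2 * a0 ∧ z.2.1 = (g z).1 * u1 + (g z).2 * u0 ∧
      z.2.2 = (g z).1 * v1 + (g z).2 * v0 := by
    intro z hz
    have e := hg z hz
    have e3 := congrArg (fun w : ℤ × ℤ × ℤ => w.1) e
    have e1 := congrArg (fun w : ℤ × ℤ × ℤ => w.2.1) e
    have e2 := congrArg (fun w : ℤ × ℤ × ℤ => w.2.2) e
    simp only [Prod.smul_mk, Prod.mk_add_mk, smul_eq_mul] at e1 e2 e3
    exact ⟨e3, e1, e2⟩
  have hval : ∀ z ∈ T, F α β z = (g z).2 *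
      ((3 * (α : ℤ) * v1 ^ 2 * v0 - 3 * (β : ℤ) * u1 ^ 2 * u0 -
        (a1 * u1 * v0 + a1 * u0 * v1 + a0 * u1 * v1)) * (g z).1 ^ 2 +
      (3 * (α : ℤ) * v1 * v0 ^ 2 - 3 * (β : ℤ) * u1 * u0 ^ 2 -
        (a1 * u0 * v0 + a0 * u1 * v0 + a0 * u0 * v1)) * (g z).1 * (g z).2 +
      F α β (a0, u0, v0) * (g z).2 ^ 2) := by
    intro z hz
    obtain ⟨e3, e1, e2⟩ := hco z hz
    simp only [F]
    rw [e1, e2, e3]
    linear_combination (g z).1 ^ 3 * hF'
  by_cases hne : (3 * (α : ℤ) * v1 ^ 2 * v0 - 3 * (β : ℤ) * u1 ^ 2 * u0 -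
        (a1 * u1 * v0 + a1 * u0 * v1 + a0 * u1 * v1)) = 0 ∧
      (3 * (α : ℤ) * v1 * v0 ^ 2 - 3 * (β : ℤ) * u1 * u0 ^ 2 -
        (a1 * u0 * v0 + a0 * u1 * v0 + a0 * u0 * v1)) = 0
  · obtain ⟨e2, e1⟩ := hne
    have hemp : T = ∅ := by
      rw [Finset.eq_empty_iff_forall_notMem]
      intro z hz
      obtain ⟨z1, z2, z3, z4, -⟩ := hT z hz
      have hv := hval z hz
      by_cases huv : u1 ≠ 0 ∧ v1 ≠ 0
      · have hz0 := line_nonconst h (a0, u0, v0) (a1, u1, v1) hF huv.1 huv.2 e2 e1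
        rw [e2, e1, hz0] at hv
        apply z3
        rw [hv]; ring
      · have hα : (α : ℤ) ≠ 0 := by
          have := h.1
          exact_mod_cast (by omega : α ≠ 0)
        have hβ : (β : ℤ) ≠ 0 := by
          have := h.2.1
          exact_mod_cast (by omega : β ≠ 0)
        have huv0 : u1 = 0 ∧ v1 = 0 := by
          by_cases hu : u1 = 0
          · refine ⟨hu, ?_⟩
            rw [hu] at hF'
            have : (α : ℤ) * v1 ^ 3 = 0 := by linarith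
            exact pow_eq_zero_iff (by norm_num : (3 : ℕ) ≠ 0) |>.1 ((mul_eq_zero.1 this).resolve_left hα)
          · have hv0 : v1 = 0 := by
              by_contra hv0
              exact huv ⟨hu, hv0⟩
            rw [hv0] at hF'
            have : (β : ℤ) * u1 ^ 3 = 0 := by linarith
            exact absurd (pow_eq_zero_iff (by norm_num : (3 : ℕ) ≠ 0) |>.1
              ((mul_eq_zero.1 this).resolve_left hβ)) hu
        obtain ⟨hu, hv0⟩ := huv0
        have ha : a1 ≠ 0 := by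
          intro ha
          apply hb
          rw [ha, hu, hv0]; rfl
        rw [hu, hv0] at e1
        have h3 : a1 * (u0 * v0) = 0 := by linarith
        have h4 := (mul_eq_zero.1 h3).resolve_left ha
        obtain ⟨-, e1', e2'⟩ := hco z hz
        rcases mul_eq_zero.1 h4 with h5 | h5
        · apply z1; rw [e1', hu, h5]; ring
        · apply z2; rw [e2', hv0, h5]; ring
    rw [hemp]
    simp
  · have := bin_count _ _ (F α β (a0, u0, v0)) hne K (T.image g) (by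
      intro w hw
      obtain ⟨z, hz, rfl⟩ := Finset.mem_image.1 hw
      obtain ⟨z1, z2, z3, z4, -⟩ := hT z hz
      rw [hval z hz] at z3 z4
      exact ⟨z3, z4⟩)
    rw [hinj] at this
    exact this

end V44
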