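import Pool.Agent.LibV44.Defs
import Pool.Agent.LibT44.D5

namespace V44
open T44

/-- Row P2. The cells of `T44.block` (copy its proof, file LibT44/D5.lean: `hcard`, `htc`): two solutions of one cell satisfy `diff_zero`, so
`F (x - y) = 0`, `x = y`: a cell contains at most one solution, and there are at most `12 M` cells. -/
theorem cells {H α β : ℕ} {p q : ℝ} (h : Cl α β p q) (hH : 1 ≤ H) (U : ℝ) (hU0 : 0 < U)
    (hU : 144 * (H : ℝ) ^ 3 ≤ U ^ 2) (T : Finset (ℤ × ℤ × ℤ))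
    (hT : ∀ z ∈ T, Sol H α β z ∧ U ≤ sS p q z ∧ sS p q z < 2 * U)
    (hd : ∀ x ∈ T, ∀ y ∈ T, F α β (x - y) = 0 → x = y) :
    (T.card : ℝ) ≤ 12 * ((H : ℝ) ^ 3 / (α * β)) := by
  classical
  rcases T.eq_empty_or_nonempty with hem | ⟨z₀, hz₀⟩
  · rw [hem, Finset.card_empty, Nat.cast_zero]
    positivity
  have hα : (1 : ℝ) ≤ α := by exact_mod_cast h.1
  have hβ : (1 : ℝ) ≤ β := by exact_mod_cast h.2.1
  have hH1 : (1 : ℝ) ≤ H := by exact_mod_cast hH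
  have hαβ : (0 : ℝ) < (α : ℝ) * β := by positivity
  set M : ℝ := (H : ℝ) ^ 3 / (α * β) with hM
  have hMmul : M * (α * β) = (H : ℝ) ^ 3 := by
    rw [hM]
    field_simp
  have hFM : ∀ z ∈ T, |(F α β z : ℝ)| ≤ M := by
    intro z hz
    obtain ⟨⟨-, -, h3, -, -⟩, -, -⟩ := hT z hz
    have h4 : ((α : ℝ) * β) * |(F α β z : ℝ)| ≤ (H : ℝ) ^ 3 := by exact_mod_cast h3
    rw [hM, le_div_iff₀ hαβ]
    linarith
  have hM1 : 1 ≤ M := by
    have h1 := hFM z₀ hz₀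
    have h2 : F α β z₀ ≠ 0 := (hT z₀ hz₀).1.2.1
    have h3 : (1 : ℝ) ≤ |(F α β z₀ : ℝ)| := by
      have h4 : (1 : ℤ) ≤ |F α β z₀| := Int.one_le_abs h2
      exact_mod_cast h4
    linarith
  have hM0 : 0 < M := by linarith
  -- square root of `M`
  set s : ℝ := √M with hs
  have hs2 : s ^ 2 = M := Real.sq_sqrt hM0.le
  have hs1 : 1 ≤ s := by
    rw [hs, Real.one_le_sqrt]
    exact hM1
  -- the widths
  set A : ℝ := (9 * ((α : ℝ) * β)) ^ (1 / 3 : ℝ) with hA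
  have hA0 : 0 < A := Real.rpow_pos_of_pos (by positivity) _
  have hA3 : A ^ 3 = 9 * ((α : ℝ) * β) := by
    rw [hA, ← Real.rpow_natCast, ← Real.rpow_mul (by positivity)]
    norm_num
  set R : ℝ := √(8 * M) with hR
  have hR2 : R ^ 2 = 8 * M := Real.sq_sqrt (by positivity)
  have hR0 : 0 < R := Real.sqrt_pos.2 (by positivity)
  have hR3 : R ≤ 3 * s := by
    have h1 : R ^ 2 ≤ (3 * s) ^ 2 := by nlinarith
    exact (sq_le_sq₀ hR0.le (by positivity)).1 h1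
  set y : ℝ := (H : ℝ) / A with hy
  have hy0 : 0 ≤ y := by positivity
  have hy3 : 9 * y ^ 3 = M := by
    rw [hy, div_pow, hA3, hM]
    field_simp
  have hys : y ≤ s / 2 := by
    by_contra hcon
    push Not at hcon
    have h1 : (s / 2) ^ 3 < y ^ 3 := pow_lt_pow_left₀ hcon (by positivity) (by norm_num)
    nlinarith [sq_nonneg s]
  -- the cells
  set f : ℤ × ℤ × ℤ → ℤ × ℤ := fun z => (⌊(z.1 : ℝ) / A⌋, ⌊(sS p q z - U) / (U / R)⌋) with hf
  set t : Finset (ℤ × ℤ) := Finset.Icc (-⌊y⌋ - 1) ⌊y⌋ ×ˢ Finset.Icc 0 ⌊R⌋ with ht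
  have hmaps : ∀ z ∈ T, f z ∈ t := by
    intro z hz
    obtain ⟨⟨h1, -, -, -, -⟩, h2, h3⟩ := hT z hz
    have h4 : |(z.1 : ℝ)| ≤ H := by exact_mod_cast h1
    obtain ⟨h5, h6⟩ := abs_le.1 h4
    have h7 : (z.1 : ℝ) / A ≤ y := div_le_div_of_nonneg_right h6 hA0.le
    have h8 : -y ≤ (z.1 : ℝ) / A := by
      rw [hy, ← neg_div]
      exact div_le_div_of_nonneg_right h5 hA0.le
    have h9 : (⌊y⌋ : ℝ) ≤ y := Int.floor_le y
    have h10 : y < ⌊y⌋ + 1 := Int.lt_floor_add_one y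
    have hUR : 0 < U / R := div_pos hU0 hR0
    have h11 : (sS p q z - U) / (U / R) ≤ R := by
      rw [div_le_iff₀ hUR]
      have h12 : R * (U / R) = U := by field_simp
      rw [h12]
      linarith
    have h13 : 0 ≤ (sS p q z - U) / (U / R) := div_nonneg (by linarith) hUR.le
    rw [ht, Finset.mem_product, Finset.mem_Icc, Finset.mem_Icc]
    refine ⟨⟨?_, Int.floor_mono h7⟩, Int.floor_nonneg.2 h13, Int.floor_mono h11⟩
    rw [Int.le_floor]
    push_cast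
    linarith
  have hinj : Set.InjOn f (T : Set (ℤ × ℤ × ℤ)) := by
    intro x hx z hz hfxz
    have hx' : x ∈ T := hx
    have hz' : z ∈ T := hz
    have hUR : 0 < U / R := div_pos hU0 hR0
    refine hd x hx' z hz' (diff_zero h hH U hU0 hU x z (hT x hx').1 (hT z hz').1 (hT x hx').2.1
      (hT z hz').2.1 ?_ ?_).1
    · have h2 : ⌊(x.1 : ℝ) / A⌋ = ⌊(z.1 : ℝ) / A⌋ := congrArg Prod.fst hfxz
      have h3 := Int.abs_sub_lt_one_of_floor_eq_floor h2
      have h4 : |(x.1 : ℝ) - z.1| ≤ A := by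
        rw [← sub_div, abs_div, abs_of_pos hA0, div_lt_one hA0] at h3
        exact h3.le
      rw [← hA3]
      exact pow_le_pow_left₀ (abs_nonneg _) h4 3
    · have h2 : ⌊(sS p q x - U) / (U / R)⌋ = ⌊(sS p q z - U) / (U / R)⌋ :=
        congrArg Prod.snd hfxz
      have h3 := Int.abs_sub_lt_one_of_floor_eq_floor h2
      have h4 : |sS p q x - sS p q z| ≤ U / R := by
        rw [← sub_div, abs_div, abs_of_pos hUR, div_lt_one hUR] at h3
        have h5 : sS p q x - U - (sS p q z - U) = sS p q x - sS p q z := by ring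
        rw [h5] at h3
        exact h3.le
      have h6 : (sS p q x - sS p q z) ^ 2 ≤ (U / R) ^ 2 := by
        rw [← sq_abs]
        exact pow_le_pow_left₀ (abs_nonneg _) h4 2
      rw [div_pow, hR2] at h6
      calc 8 * (H : ℝ) ^ 3 * (sS p q x - sS p q z) ^ 2
          ≤ 8 * (H : ℝ) ^ 3 * (U ^ 2 / (8 * M)) := mul_le_mul_of_nonneg_left h6 (by positivity)
        _ = (α : ℝ) * β * U ^ 2 := by
            rw [← hMmul]
            field_simp
  have hcard := Finset.card_le_card_of_injOn f hmaps hinj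
  have hyf : (⌊y⌋ : ℝ) ≤ y := Int.floor_le y
  have hyf0 : 0 ≤ ⌊y⌋ := Int.floor_nonneg.2 hy0
  have hRf : (⌊R⌋ : ℝ) ≤ R := Int.floor_le R
  have hRf0 : 0 ≤ ⌊R⌋ := Int.floor_nonneg.2 hR0.le
  have htc : (t.card : ℝ) ≤ (3 * s) * (4 * s) := by
    rw [ht, Finset.card_product, Int.card_Icc, Int.card_Icc]
    push_cast
    have h1 : (((⌊y⌋ + 1 - (-⌊y⌋ - 1)).toNat : ℕ) : ℝ) ≤ 3 * s := by
      have h2 : (((⌊y⌋ + 1 - (-⌊y⌋ - 1)).toNat : ℕ) : ℤ) = 2 * ⌊y⌋ + 2 := by omega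
      have h3 : ((((⌊y⌋ + 1 - (-⌊y⌋ - 1)).toNat : ℕ) : ℤ) : ℝ) = ((2 * ⌊y⌋ + 2 : ℤ) : ℝ) := by
        rw [h2]
      push_cast at h3
      rw [h3]
      linarith
    have h4 : (((⌊R⌋ + 1 - 0).toNat : ℕ) : ℝ) ≤ 4 * s := by
      have h2 : (((⌊R⌋ + 1 - 0).toNat : ℕ) : ℤ) = ⌊R⌋ + 1 := by omega
      have h3 : ((((⌊R⌋ + 1 - 0).toNat : ℕ) : ℤ) : ℝ) = ((⌊R⌋ + 1 : ℤ) : ℝ) := by rw [h2]
      push_cast at h3
      rw [h3]
      linarith
    exact mul_le_mul h1 h4 (Nat.cast_nonneg _) (by positivity)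
  calc (T.card : ℝ) ≤ (t.card : ℝ) := by exact_mod_cast hcard
    _ ≤ (3 * s) * (4 * s) := htc
    _ = 12 * s ^ 2 := by ring
    _ = 12 * M := by rw [hs2]

end V44
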