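import Pool.Agent.LibV44.K1
import Pool.Agent.LibV44.P1
import Pool.Agent.LibV44.P2

namespace V44
open T44

theorem p3_F_smul (α β : ℕ) (s : ℤ) (z : ℤ × ℤ × ℤ) : F α β (s • z) = s ^ 3 * F α β z := by
  simp only [F, Prod.smul_fst, Prod.smul_snd, smul_eq_mul]
  ring

theorem p3_det_smul1 (g : ℤ) (x y z : ℤ × ℤ × ℤ) : det3 (g • x) y z = g * det3 x y z := by
  simp only [det3, Prod.smul_fst, Prod.smul_snd, smul_eq_mul]
  ring

theorem p3_det_smul3 (g : ℤ) (x y z : ℤ × ℤ × ℤ) : det3 x y (g • z) = g * det3 x y z := by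
  simp only [det3, Prod.smul_fst, Prod.smul_snd, smul_eq_mul]
  ring

theorem p3_det_sub3 (x y z w : ℤ × ℤ × ℤ) : det3 x y (z - w) = det3 x y z - det3 x y w := by
  simp only [det3, Prod.fst_sub, Prod.snd_sub]
  ring

theorem p3_det_comb (b c : ℤ × ℤ × ℤ) (s1 t1 s2 t2 s3 t3 : ℤ) :
    det3 (s1 • b + t1 • c) (s2 • b + t2 • c) (s3 • b + t3 • c) = 0 := by
  simp only [det3, Prod.smul_fst, Prod.smul_snd, smul_eq_mul, Prod.fst_add, Prod.snd_add]
  ring

/-- Row P3. Solutions of a block in a plane through `0`. `M = H³/(αβ)`, `K = ⌊M⌋₊`; `1 ≤ |F z| ≤ K` for `z ∈ T`, and `z.2.1, z.2.2 ≠ 0` (`Sol`).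
`T = ∅`: trivial. `z₁ ∈ T`, `prim`: `z₁ = g b`.
(1) All `z ∈ T` parallel to `b`: `z = s b`, `F z = s³ F b`, `s ≠ 0`, `|s| ≤ K`: card `≤ 2K`.
(2) `z₂ ∈ T`, `¬ Par b z₂`: `basis2 b z₂` gives `b₂`, and every `w ∈ T` is `s b + t b₂` (`g * det3 b z₂ w = det3 z₁ z₂ w = 0`).
(2a) There is `c ≠ 0`, `det3 b z₂ c = 0`, `F c = 0`. `prim c`: `c = g' c'`, `F c' = 0`. Any `z ∈ T` is not parallel to `c'` (else `z = s c'`,
`F z = s³ F c' = 0`). `basis2 c' z₁` gives `c₂`; all `w ∈ T` have `det3 c' z₁ w = 0` (three combinations of `b, b₂`), so `w = s c' + t c₂`: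
`zero_plane`: card `≤ 20K ≤ 20M`.
(2b) No such `c`: for `x, y ∈ T` with `F (x - y) = 0`: `det3 b z₂ (x - y) = 0`, so `x = y`: `cells`: card `≤ 12M`. -/
theorem plane_block {H α β : ℕ} {p q : ℝ} (h : Cl α β p q) (hH : 1 ≤ H) (U : ℝ) (hU0 : 0 < U)
    (hU : 144 * (H : ℝ) ^ 3 ≤ U ^ 2) (T : Finset (ℤ × ℤ × ℤ))
    (hT : ∀ z ∈ T, Sol H α β z ∧ U ≤ sS p q z ∧ sS p q z < 2 * U)
    (h0 : ∀ x ∈ T, ∀ y ∈ T, ∀ z ∈ T, det3 x y z = 0) :
    (T.card : ℝ) ≤ 20 * ((H : ℝ) ^ 3 / (α * β)) := by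
  classical
  have h_cl := h
  obtain ⟨hα, hβ, -, -, -, hαβ, -⟩ := h
  have hab : (0 : ℝ) < (α : ℝ) * β := by
    have : (0 : ℝ) < (α : ℝ) := by exact_mod_cast hα
    have : (0 : ℝ) < (β : ℝ) := by exact_mod_cast hβ
    positivity
  set M : ℝ := (H : ℝ) ^ 3 / (α * β) with hM
  have hM0 : 0 ≤ M := by positivity
  set K : ℕ := ⌊M⌋₊ with hK
  have hKM : (K : ℝ) ≤ M := Nat.floor_le hM0
  -- properties of the solutions
  have hF0 : ∀ z ∈ T, F α β z ≠ 0 := fun z hz => (hT z hz).1.2.1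
  have hFK : ∀ z ∈ T, |F α β z| ≤ (K : ℤ) := by
    intro z hz
    have h1 := (hT z hz).1.2.2.1
    have h2 : ((α : ℝ) * β) * |(F α β z : ℝ)| ≤ (H : ℝ) ^ 3 := by exact_mod_cast h1
    have h3 : |(F α β z : ℝ)| ≤ M := by
      rw [hM, le_div_iff₀ hab]
      linarith
    have h4 : ((|F α β z|.toNat : ℕ) : ℝ) ≤ M := by
      have : (((|F α β z|.toNat : ℕ) : ℤ) : ℝ) = |(F α β z : ℝ)| := by
        rw [Int.toNat_of_nonneg (abs_nonneg _)]
        push_cast
        rfl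
      rw [← Int.cast_natCast, this]
      exact h3
    have h5 : |F α β z|.toNat ≤ K := Nat.le_floor h4
    have h6 : ((|F α β z|.toNat : ℕ) : ℤ) = |F α β z| := Int.toNat_of_nonneg (abs_nonneg _)
    rw [← h6]
    exact_mod_cast h5
  have huv : ∀ z ∈ T, z.2.1 ≠ 0 ∧ z.2.2 ≠ 0 := by
    intro z hz
    have h1 := (hT z hz).1.2.2.2.2
    constructor
    · intro h2
      rw [h2] at h1
      simp at h1
      have : (0 : ℤ) ≤ (H : ℤ) ^ 3 := by positivity
      omega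
    · intro h2
      rw [h2] at h1
      simp at h1
      have : (0 : ℤ) ≤ (H : ℤ) ^ 3 := by positivity
      omega
  rcases T.eq_empty_or_nonempty with hTe | ⟨z₁, hz₁⟩
  · rw [hTe]
    simp
    exact hM0
  have hz₁0 : z₁ ≠ 0 := by
    intro h1
    apply (huv z₁ hz₁).1
    rw [h1]
    rfl
  obtain ⟨g, b, hg, hb0, hzb, hbp⟩ := prim z₁ hz₁0
  by_cases hall : ∀ z ∈ T, Par b z
  · -- all parallel
    have hs : ∀ z ∈ T, ∃ s : ℤ, z = s • b ∧ s ≠ 0 ∧ |s| ≤ (K : ℤ) := by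
      intro z hz
      obtain ⟨s, hs⟩ := hbp z (hall z hz)
      have h1 : F α β z = s ^ 3 * F α β b := by rw [hs, p3_F_smul]
      have h2 := hF0 z hz
      have hs0 : s ≠ 0 := by
        intro h3
        apply h2
        rw [h1, h3]
        ring
      have hFb : F α β b ≠ 0 := by
        intro h3
        apply h2
        rw [h1, h3, mul_zero]
      refine ⟨s, hs, hs0, ?_⟩
      have h4 := hFK z hz
      rw [h1, abs_mul, abs_pow] at h4
      have h5 : 1 ≤ |s| := Int.one_le_abs hs0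
      have h6 : 1 ≤ |F α β b| := Int.one_le_abs hFb
      have h7 : |s| ≤ |s| ^ 3 := by nlinarith [mul_nonneg (abs_nonneg s) (sub_nonneg.2 h5), sq_nonneg (|s|)]
      nlinarith [pow_nonneg (abs_nonneg s) 3]
    choose! φ hφ using hs
    have hinj : Set.InjOn φ T := by
      intro x hx y hy hxy
      rw [(hφ x hx).1, (hφ y hy).1, hxy]
    have hcard : T.card ≤ ((Finset.Icc (-(K : ℤ)) K).erase 0).card := by
      refine Finset.card_le_card_of_injOn φ ?_ hinj
      intro x hx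
      have h1 := hφ x hx
      simp only [Finset.coe_erase, Finset.coe_Icc, Set.mem_sdiff, Set.mem_Icc,
        Set.mem_singleton_iff]
      exact ⟨abs_le.1 h1.2.2, h1.2.1⟩
    have h2 : ((Finset.Icc (-(K : ℤ)) K).erase 0).card = 2 * K := by
      rw [Finset.card_erase_of_mem (by rw [Finset.mem_Icc]; constructor <;> omega), Int.card_Icc]
      omega
    rw [h2] at hcard
    have h3 : (T.card : ℝ) ≤ 2 * (K : ℝ) := by exact_mod_cast hcard
    linarith
  · push Not at hall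
    obtain ⟨z₂, hz₂, hnp⟩ := hall
    obtain ⟨b₂, hb₂, hdb₂, hspan⟩ := basis2 b z₂ hbp hnp
    have hg0 : (g : ℤ) ≠ 0 := by
      have : (0 : ℤ) < (g : ℤ) := by exact_mod_cast hg
      omega
    have hdet : ∀ w ∈ T, det3 b z₂ w = 0 := by
      intro w hw
      have h1 := h0 z₁ hz₁ z₂ hz₂ w hw
      rw [hzb, p3_det_smul1] at h1
      rcases mul_eq_zero.1 h1 with h2 | h2
      · exact absurd h2 hg0
      · exact h2
    by_cases hc : ∃ c : ℤ × ℤ × ℤ, c ≠ 0 ∧ det3 b z₂ c = 0 ∧ F α β c = 0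
    · obtain ⟨c, hc0, hdc, hFc⟩ := hc
      obtain ⟨g', c', hg', hc'0, hcc, hc'p⟩ := prim c hc0
      have hg'0 : (g' : ℤ) ≠ 0 := by
        have : (0 : ℤ) < (g' : ℤ) := by exact_mod_cast hg'
        omega
      have hFc' : F α β c' = 0 := by
        rw [hcc, p3_F_smul] at hFc
        rcases mul_eq_zero.1 hFc with h2 | h2
        · exact absurd (pow_eq_zero_iff (by norm_num) |>.1 h2) hg'0
        · exact h2
      have hdc' : det3 b z₂ c' = 0 := by
        rw [hcc, p3_det_smul3] at hdc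
        rcases mul_eq_zero.1 hdc with h2 | h2
        · exact absurd h2 hg'0
        · exact h2
      have hnp' : ∀ z ∈ T, ¬ Par c' z := by
        intro z hz hp
        obtain ⟨s, hs⟩ := hc'p z hp
        apply hF0 z hz
        rw [hs, p3_F_smul, hFc', mul_zero]
      obtain ⟨c₂, -, -, hspan'⟩ := basis2 c' z₁ hc'p (hnp' z₁ hz₁)
      have hzp := zero_plane h_cl K c' c₂ hc'0 hFc' T (by
        intro z hz
        refine ⟨(huv z hz).1, (huv z hz).2, hF0 z hz, hFK z hz, hspan' z ?_⟩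
        obtain ⟨s1, t1, e1⟩ := hspan c' hdc'
        obtain ⟨s2, t2, e2⟩ := hspan z₁ (hdet z₁ hz₁)
        obtain ⟨s3, t3, e3⟩ := hspan z (hdet z hz)
        rw [e1, e2, e3]
        exact p3_det_comb b b₂ s1 t1 s2 t2 s3 t3)
      have h3 : (T.card : ℝ) ≤ 20 * (K : ℝ) := by exact_mod_cast hzp
      linarith
    · push Not at hc
      have hcl := cells h_cl hH U hU0 hU T hT (by
        intro x hx y hy hxy
        by_contra hne
        refine hc (x - y) (sub_ne_zero.2 hne) ?_ hxy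
        rw [p3_det_sub3, hdet x hx, hdet y hy, sub_zero])
      linarith

end V44
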