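import Pool.Agent.LibV44.G2
import Pool.Agent.LibV44.P3

namespace V44
open T44

/-- Row BS. If all determinants vanish: `plane_block`. Otherwise `space_count` with `A = H`, `B = 5H³/U²`, `C = 2U` (`T44.size`:
`|ξ| S² ≤ 5H³`, `S ≥ U`): `card · αβ ≤ 270 H⁴/U ≤ 27 H³`, since `U ≥ 12H` (`U² ≥ 144H³ ≥ (12H)²`). -/
theorem block_sharp {H α β : ℕ} {p q : ℝ} (h : Cl α β p q) (hH : 1 ≤ H) (U : ℝ) (hU0 : 0 < U)
    (hU : 144 * (H : ℝ) ^ 3 ≤ U ^ 2) (T : Finset (ℤ × ℤ × ℤ))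
    (hT : ∀ z ∈ T, Sol H α β z ∧ U ≤ sS p q z ∧ sS p q z < 2 * U) :
    (T.card : ℝ) ≤ 27 * ((H : ℝ) ^ 3 / (α * β)) := by
  have hH1 : (1 : ℝ) ≤ H := by exact_mod_cast hH
  have hα : (1 : ℝ) ≤ α := by exact_mod_cast h.1
  have hβ : (1 : ℝ) ≤ β := by exact_mod_cast h.2.1
  have hαβ : (0 : ℝ) < (α : ℝ) * β := by positivity
  by_cases h0 : ∀ x ∈ T, ∀ y ∈ T, ∀ z ∈ T, det3 x y z = 0
  · have h1 := plane_block h hH U hU0 hU T hT h0
    have h2 : 0 ≤ (H : ℝ) ^ 3 / (α * β) := by positivity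
    linarith
  · push Not at h0
    have hU12 : 12 * (H : ℝ) ≤ U := by
      have h1 : (12 * (H : ℝ)) ^ 2 ≤ U ^ 2 := by
        have : (H : ℝ) ^ 2 ≤ (H : ℝ) ^ 3 := by
          have := mul_le_mul_of_nonneg_left hH1 (sq_nonneg (H : ℝ))
          nlinarith
        nlinarith
      exact (pow_le_pow_iff_left₀ (by positivity) hU0.le (by norm_num)).1 h1
    have h1 := space_count h (H : ℝ) (5 * (H : ℝ) ^ 3 / U ^ 2) (2 * U) (by linarith) (by positivity)
      (by positivity) T (by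
        intro z hz
        obtain ⟨hs, h2, h3⟩ := hT z hz
        obtain ⟨-, e2, -⟩ := size h hH z hs
        refine ⟨?_, ?_, ?_⟩
        · have := hs.1
          exact_mod_cast this
        · rw [le_div_iff₀ (by positivity)]
          have h4 : U ^ 2 ≤ sS p q z ^ 2 := pow_le_pow_left₀ hU0.le h2 2
          exact (mul_le_mul_of_nonneg_left h4 (abs_nonneg _)).trans e2
        · rw [abs_of_nonneg (by linarith)]
          exact h3.le) h0
    have h2 : 27 * ((H : ℝ) * (5 * (H : ℝ) ^ 3 / U ^ 2) * (2 * U)) = 270 * (H : ℝ) ^ 3 * (H / U) := by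
      field_simp
      ring
    rw [h2] at h1
    have h3 : (H : ℝ) / U ≤ 1 / 12 := by
      rw [div_le_div_iff₀ hU0 (by norm_num)]
      linarith
    have h4 : 270 * (H : ℝ) ^ 3 * (H / U) ≤ 270 * (H : ℝ) ^ 3 * (1 / 12) :=
      mul_le_mul_of_nonneg_left h3 (by positivity)
    have h5 : (T.card : ℝ) * ((α : ℝ) * β) ≤ 27 * (H : ℝ) ^ 3 := by
      have : 0 ≤ (H : ℝ) ^ 3 := by positivity
      linarith
    rw [← mul_div_assoc, le_div_iff₀ hαβ]
    exact h5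

end V44
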