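import Pool.Agent.LibV44.Defs

namespace V44

/-- Row C0a. Integers with bounded differences: `max - min ≤ R`, and `S ⊆ [min, max]`. -/
theorem count_diff (S : Finset ℤ) (R : ℝ) (hR : 0 ≤ R) (h : ∀ x ∈ S, ∀ y ∈ S, |(x : ℝ) - y| ≤ R) :
    (S.card : ℝ) ≤ R + 1 := by
  rcases S.eq_empty_or_nonempty with h0 | h0
  · rw [h0, Finset.card_empty, Nat.cast_zero]
    linarith
  · have hm0 : S.min' h0 ∈ S := Finset.min'_mem _ _
    have hm1 : S.max' h0 ∈ S := Finset.max'_mem _ _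
    have hle : S.min' h0 ≤ S.max' h0 := Finset.min'_le _ _ hm1
    have hsub : S ⊆ Finset.Icc (S.min' h0) (S.max' h0) := fun a ha =>
      Finset.mem_Icc.2 ⟨Finset.min'_le _ _ ha, Finset.le_max' _ _ ha⟩
    have h1 := Finset.card_le_card hsub
    rw [Int.card_Icc] at h1
    have h2 : (((S.max' h0 + 1 - S.min' h0).toNat : ℕ) : ℤ) = S.max' h0 + 1 - S.min' h0 :=
      Int.toNat_of_nonneg (by omega)
    have h3 : (S.card : ℤ) ≤ S.max' h0 + 1 - S.min' h0 := by
      rw [← h2]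
      exact_mod_cast h1
    have h4 : (S.card : ℝ) ≤ (S.max' h0 : ℝ) + 1 - S.min' h0 := by exact_mod_cast h3
    have h5 := (abs_le.1 (h _ hm1 _ hm0)).2
    linarith

/-- Row C0b. `card T = ∑_{c ∈ image} card (fibre)`, `count_diff` for the image of `f`. -/
theorem count_fib {ι : Type*} (T : Finset ι) (f : ι → ℤ) (R n : ℝ) (hR : 0 ≤ R) (hn : 0 ≤ n)
    (h : ∀ x ∈ T, ∀ y ∈ T, |(f x : ℝ) - f y| ≤ R)
    (hf : ∀ c, ((T.filter fun x => f x = c).card : ℝ) ≤ n) : (T.card : ℝ) ≤ (R + 1) * n := by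
  classical
  have h1 : ((T.image f).card : ℝ) ≤ R + 1 := by
    apply count_diff _ _ hR
    intro x hx y hy
    rw [Finset.mem_image] at hx hy
    obtain ⟨a, ha, rfl⟩ := hx
    obtain ⟨b, hb, rfl⟩ := hy
    exact h a ha b hb
  have h2 := Finset.card_eq_sum_card_image f T
  have h3 : (T.card : ℝ) ≤ ∑ _c ∈ T.image f, n := by
    rw [h2]
    push_cast
    apply Finset.sum_le_sum
    intro c _
    convert hf c
  rw [Finset.sum_const, nsmul_eq_mul] at h3
  exact h3.trans (mul_le_mul_of_nonneg_right h1 hn)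

end V44
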