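import Pool.Agent.LibT44.W3
import Pool.Agent.LibT44.Defs

/-! Theorem V (MP_a1107e): sharp exponent for the curves with a rational point of order three.
Vectors `z = (a, u, v)` of `ℤ³`, as in `T44`. In a dyadic block `S ~ U` of one class the solutions either span `ℝ³`
(count the lattice points of the box `|a| ≤ H`, `|ξ| ≤ 5H³/U²`, `|S| ≤ 2U`) or lie in a plane through `0` (count the
values of a binary cubic form). -/

namespace V44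
open T44

/-- determinant of three integer vectors -/
def det3 (x y z : ℤ × ℤ × ℤ) : ℤ :=
  x.1 * (y.2.1 * z.2.2 - y.2.2 * z.2.1) - x.2.1 * (y.1 * z.2.2 - y.2.2 * z.1) +
    x.2.2 * (y.1 * z.2.1 - y.2.1 * z.1)

/-- parallel integer vectors (all `2 × 2` minors vanish) -/
def Par (x y : ℤ × ℤ × ℤ) : Prop :=
  x.1 * y.2.1 = y.1 * x.2.1 ∧ x.1 * y.2.2 = y.1 * x.2.2 ∧ x.2.1 * y.2.2 = y.2.1 * x.2.2

/-- value of the real linear form with coefficients `l` -/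
def lin (l : ℝ × ℝ × ℝ) (z : ℤ × ℤ × ℤ) : ℝ := l.1 * z.1 + l.2.1 * z.2.1 + l.2.2 * z.2.2

/-- determinant of three real linear forms -/
def rdet (x y z : ℝ × ℝ × ℝ) : ℝ :=
  x.1 * (y.2.1 * z.2.2 - y.2.2 * z.2.1) - x.2.1 * (y.1 * z.2.2 - y.2.2 * z.1) +
    x.2.2 * (y.1 * z.2.1 - y.2.1 * z.1)

/-- `max |k z|, |l z|, |m z|` -/
noncomputable def nm (k l m : ℝ × ℝ × ℝ) (z : ℤ × ℤ × ℤ) : ℝ :=
  max |lin k z| (max |lin l z| |lin m z|)

/-- the largest `2 × 2` minor of `(k, l, m)(z)`, `(k, l, m)(w)` -/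
noncomputable def wd (k l m : ℝ × ℝ × ℝ) (z w : ℤ × ℤ × ℤ) : ℝ :=
  max |lin k z * lin l w - lin l z * lin k w|
    (max |lin k z * lin m w - lin m z * lin k w| |lin l z * lin m w - lin m z * lin l w|)

/-- the quadruple `(a, b, x, y)` of the vector `z = (a, u, v)` of class `(α, β)`: `b = αβ F(z)`, `x = αβuv`, `y = αβ²u³`;
it satisfies `y (y + a x + b) = x³` -/
def Rep (α β : ℕ) (z : ℤ × ℤ × ℤ) : ℤ × ℤ × ℤ × ℤ :=
  (z.1, (α : ℤ) * β * F α β z, (α : ℤ) * β * z.2.1 * z.2.2, (α : ℤ) * (β : ℤ) ^ 2 * z.2.1 ^ 3)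

/-- the members of `Fam X` with an integral point which is not of order three -/
def Exc (X : ℕ) : Set (ℤ × ℤ) :=
  {z | z ∈ Fam X ∧ ∃ x y : ℤ, y ^ 2 = x ^ 3 + z.1 * x + z.2 ∧
    3 * x ^ 4 + 6 * z.1 * x ^ 2 + 12 * z.2 * x - z.1 ^ 2 ≠ 0}

/-- the quadruples `(A, B, x, y)`: an integral point `(x, y)`, not of order three, on a member `(A, B)` of `Fam X` with `A ≠ 0` -/
def Pts (X : ℕ) : Set (ℤ × ℤ × ℤ × ℤ) :=
  {w | (w.1, w.2.1) ∈ Fam X ∧ w.1 ≠ 0 ∧ w.2.2.2 ^ 2 = w.2.2.1 ^ 3 + w.1 * w.2.2.1 + w.2.1 ∧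
    3 * w.2.2.1 ^ 4 + 6 * w.1 * w.2.2.1 ^ 2 + 12 * w.2.1 * w.2.2.1 - w.1 ^ 2 ≠ 0}

end V44
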