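import Pool.Agent.LibV44.C0

namespace V44

theorem g0_sub (k : ℝ × ℝ × ℝ) (z w : ℤ × ℤ × ℤ) : lin k (z - w) = lin k z - lin k w := by
  simp only [lin, Prod.fst_sub, Prod.snd_sub]
  push_cast
  ring

theorem g0_add (k : ℝ × ℝ × ℝ) (z w : ℤ × ℤ × ℤ) : lin k (z + w) = lin k z + lin k w := by
  simp only [lin, Prod.fst_add, Prod.snd_add]
  push_cast
  ring

theorem g0_smul (k : ℝ × ℝ × ℝ) (s : ℤ) (z : ℤ × ℤ × ℤ) : lin k (s • z) = s * lin k z := by
  simp only [lin, Prod.smul_fst, Prod.smul_snd, smul_eq_mul]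
  push_cast
  ring

theorem g0_nm (k l m : ℝ × ℝ × ℝ) (z : ℤ × ℤ × ℤ) : |lin k z| ≤ nm k l m z ∧
    |lin l z| ≤ nm k l m z ∧ |lin m z| ≤ nm k l m z :=
  ⟨le_max_left _ _, (le_max_left _ _).trans (le_max_right _ _),
    (le_max_right _ _).trans (le_max_right _ _)⟩

theorem g0_minor {x y p q r c : ℝ} (hx : |x| ≤ r) (hy : |y| ≤ r) (hp : |p| ≤ c) (hq : |q| ≤ c) :
    |x * q - y * p| ≤ 2 * r * c := by
  have hr : 0 ≤ r := (abs_nonneg x).trans hx
  have h1 : |x * q| ≤ r * c := by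
    rw [abs_mul]
    exact mul_le_mul hx hq (abs_nonneg _) hr
  have h2 : |y * p| ≤ r * c := by
    rw [abs_mul]
    exact mul_le_mul hy hp (abs_nonneg _) hr
  refine (abs_sub _ _).trans ?_
  linarith

/-- `|t| wd b b₂ ≤ 2 nm(b) c` if `z = s b + t b₂` and `|k z|, |l z|, |m z| ≤ c` -/
theorem g0_wd (k l m : ℝ × ℝ × ℝ) (b b₂ z : ℤ × ℤ × ℤ) (s t : ℤ) (hz : z = s • b + t • b₂) (c : ℝ)
    (h1 : |lin k z| ≤ c) (h2 : |lin l z| ≤ c) (h3 : |lin m z| ≤ c) :
    |(t : ℝ)| * wd k l m b b₂ ≤ 2 * nm k l m b * c := by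
  obtain ⟨n1, n2, n3⟩ := g0_nm k l m b
  have ek : lin k z = s * lin k b + t * lin k b₂ := by rw [hz, g0_add, g0_smul, g0_smul]
  have el : lin l z = s * lin l b + t * lin l b₂ := by rw [hz, g0_add, g0_smul, g0_smul]
  have em : lin m z = s * lin m b + t * lin m b₂ := by rw [hz, g0_add, g0_smul, g0_smul]
  unfold wd
  rw [mul_max_of_nonneg _ _ (abs_nonneg _), mul_max_of_nonneg _ _ (abs_nonneg _), ← abs_mul,
    ← abs_mul, ← abs_mul]
  refine max_le ?_ (max_le ?_ ?_)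
  · have e : (t : ℝ) * (lin k b * lin l b₂ - lin l b * lin k b₂) =
        lin k b * lin l z - lin l b * lin k z := by rw [ek, el]; ring
    rw [e]
    exact g0_minor n1 n2 h1 h2
  · have e : (t : ℝ) * (lin k b * lin m b₂ - lin m b * lin k b₂) =
        lin k b * lin m z - lin m b * lin k z := by rw [ek, em]; ring
    rw [e]
    exact g0_minor n1 n3 h1 h3
  · have e : (t : ℝ) * (lin l b * lin m b₂ - lin m b * lin l b₂) =
        lin l b * lin m z - lin m b * lin l z := by rw [el, em]; ring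
    rw [e]
    exact g0_minor n2 n3 h2 h3

/-- `|s| nm b ≤ c` if `|k (s b)|, |l (s b)|, |m (s b)| ≤ c` -/
theorem g0_ns (k l m : ℝ × ℝ × ℝ) (b z : ℤ × ℤ × ℤ) (s : ℤ) (hz : z = s • b) (c : ℝ)
    (h1 : |lin k z| ≤ c) (h2 : |lin l z| ≤ c) (h3 : |lin m z| ≤ c) :
    |(s : ℝ)| * nm k l m b ≤ c := by
  rw [hz, g0_smul, abs_mul] at h1 h2 h3
  unfold nm
  rw [mul_max_of_nonneg _ _ (abs_nonneg _), mul_max_of_nonneg _ _ (abs_nonneg _)]
  exact max_le h1 (max_le h2 h3)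

theorem g0_two (k : ℝ × ℝ × ℝ) {z w : ℤ × ℤ × ℤ} (hz : |lin k z| ≤ 1) (hw : |lin k w| ≤ 1) :
    |lin k (z - w)| ≤ 2 := by
  rw [g0_sub]
  refine (abs_sub _ _).trans ?_
  linarith

/-- Row G0. Points of a coset of `ℤb + ℤb₂` in the box. `r = nm b ≤ 1`, `a = wd b b₂ ≤ 2r`. If `T` is empty, trivial; fix
`z₀ ∈ T` and write `z - z₀ = s(z) b + t(z) b₂` (choose). For `z, w ∈ T`: `z - w = (s - s')b + (t - t')b₂`, so
`|t - t'| a = wd b (z - w) ≤ 2 nm(b) nm(z - w) ≤ 4r` (`wd` is bilinear, kills `b, b`; `|k (z-w)| ≤ 2`), hence at most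
`4r/a + 1 ≤ 6r/a` values of `t`; for one value of `t`, `|s - s'| r = nm(z - w) ≤ 2`, at most `2/r + 1 ≤ 3/r` values of `s`, and
`(s, t)` determines `z`. Two applications of `count_fib` (`f = t`, then `f = s`, fibres of card `≤ 1`). -/
theorem plane_count (k l m : ℝ × ℝ × ℝ) (b b₂ : ℤ × ℤ × ℤ) (hr : 0 < nm k l m b) (hr1 : nm k l m b ≤ 1)
    (ha : 0 < wd k l m b b₂) (har : wd k l m b b₂ ≤ 2 * nm k l m b)
    (T : Finset (ℤ × ℤ × ℤ)) (hT : ∀ z ∈ T, |lin k z| ≤ 1 ∧ |lin l z| ≤ 1 ∧ |lin m z| ≤ 1)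
    (hd : ∀ z ∈ T, ∀ w ∈ T, ∃ s t : ℤ, z - w = s • b + t • b₂) :
    (T.card : ℝ) * wd k l m b b₂ ≤ 18 := by
  classical
  rcases T.eq_empty_or_nonempty with rfl | ⟨z₀, hz₀⟩
  · simp
  choose! s t hst using fun z hz => hd z hz z₀ hz₀
  have hdiff : ∀ z ∈ T, ∀ w ∈ T, z - w = (s z - s w) • b + (t z - t w) • b₂ := by
    intro z hz w hw
    have e : z - w = (z - z₀) - (w - z₀) := by abel
    rw [e, hst z hz, hst w hw, sub_smul, sub_smul]
    abel
  set r := nm k l m b with hrdef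
  set a := wd k l m b b₂ with hadef
  have ht : ∀ z ∈ T, ∀ w ∈ T, |(t z : ℝ) - t w| ≤ 4 * r / a := by
    intro z hz w hw
    obtain ⟨z1, z2, z3⟩ := hT z hz
    obtain ⟨w1, w2, w3⟩ := hT w hw
    have h1 := g0_wd k l m b b₂ (z - w) _ _ (hdiff z hz w hw) 2 (g0_two k z1 w1) (g0_two l z2 w2)
      (g0_two m z3 w3)
    rw [le_div_iff₀ ha]
    push_cast at h1
    linarith
  have hfib : ∀ c : ℤ, ((T.filter fun x => t x = c).card : ℝ) ≤ 2 / r + 1 := by
    intro c
    have h2 : (((T.filter fun x => t x = c)).card : ℝ) ≤ (2 / r + 1) * 1 := by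
      refine count_fib _ s (2 / r) 1 (by positivity) zero_le_one ?_ ?_
      · intro z hz w hw
        rw [Finset.mem_filter] at hz hw
        obtain ⟨z1, z2, z3⟩ := hT z hz.1
        obtain ⟨w1, w2, w3⟩ := hT w hw.1
        have e := hdiff z hz.1 w hw.1
        rw [hz.2, hw.2, sub_self, zero_smul, add_zero] at e
        have h1 := g0_ns k l m b (z - w) _ e 2 (g0_two k z1 w1) (g0_two l z2 w2)
          (g0_two m z3 w3)
        rw [le_div_iff₀ hr]
        push_cast at h1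
        exact h1
      · intro c'
        have h3 : (((T.filter fun x => t x = c).filter fun x => s x = c').card) ≤ 1 := by
          rw [Finset.card_le_one]
          intro z hz w hw
          rw [Finset.mem_filter, Finset.mem_filter] at hz hw
          have e := hdiff z hz.1.1 w hw.1.1
          rw [hz.1.2, hw.1.2, hz.2, hw.2, sub_self, sub_self, zero_smul, zero_smul, add_zero] at e
          exact sub_eq_zero.1 e
        exact_mod_cast h3
    rwa [mul_one] at h2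
  have hcount := count_fib T t (4 * r / a) (2 / r + 1) (by positivity) (by positivity) ht hfib
  have h4 : (T.card : ℝ) * a ≤ (4 * r / a + 1) * (2 / r + 1) * a :=
    mul_le_mul_of_nonneg_right hcount ha.le
  refine h4.trans ?_
  have h5 : (4 * r / a + 1) * (2 / r + 1) * a = (4 * r + a) * (2 / r + 1) := by
    field_simp
  rw [h5]
  have h6 : (4 * r + a) * (2 / r + 1) ≤ (6 * r) * (2 / r + 1) :=
    mul_le_mul_of_nonneg_right (by linarith) (by positivity)
  refine h6.trans ?_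
  have h7 : 6 * r * (2 / r + 1) = 12 + 6 * r := by
    field_simp
    ring
  rw [h7]
  linarith

end V44
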