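import Pool.Agent.LibV44.Defs
import Pool.Agent.LibT44.G4

namespace V44

/-- Row K1a. Primitive vector: `b = z / gcd`, and if `w` is parallel to `b` then `w = (r w₁ + s w₂ + t w₃) b`, where
`r b₁ + s b₂ + t b₃ = 1` (Bezout). See `T44.g4_dir`, `g4_mul`, `g4_bez` in LibT44/G4.lean (they may be imported). -/
theorem prim (z : ℤ × ℤ × ℤ) (hz : z ≠ 0) :
    ∃ (g : ℕ) (b : ℤ × ℤ × ℤ), 1 ≤ g ∧ b ≠ 0 ∧ z = (g : ℤ) • b ∧ ∀ w, Par b w → ∃ s : ℤ, w = s • b := by
  obtain ⟨m1, m2, m3⟩ := T44.g4_mul z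
  obtain ⟨r, s, t, hr⟩ := T44.g4_bez z
  set g : ℕ := T44.g4_g z with hg
  set b : ℤ × ℤ × ℤ := T44.g4_dir z with hb
  have hg0 : g ≠ 0 := by
    intro h
    apply hz
    rw [h] at m1 m2 m3
    ext
    · rw [m1]
      simp
    · rw [m2]
      simp
    · rw [m3]
      simp
  have hgz : (g : ℤ) ≠ 0 := by exact_mod_cast hg0
  have hbez : r * b.1 + s * b.2.1 + t * b.2.2 = 1 := by
    have h1 : (g : ℤ) * (r * b.1 + s * b.2.1 + t * b.2.2) = (g : ℤ) * 1 := by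
      rw [mul_one]
      calc _ = r * ((g : ℤ) * b.1) + s * ((g : ℤ) * b.2.1) + t * ((g : ℤ) * b.2.2) := by ring
        _ = _ := by rw [← m1, ← m2, ← m3]; exact hr
    exact mul_left_cancel₀ hgz h1
  refine ⟨g, b, Nat.one_le_iff_ne_zero.2 hg0, ?_, ?_, ?_⟩
  · intro h
    rw [h] at hbez
    simp at hbez
  · ext
    · rw [m1]
      simp
    · rw [m2]
      simp
    · rw [m3]
      simp
  · rintro w ⟨h1, h2, h3⟩
    refine ⟨r * w.1 + s * w.2.1 + t * w.2.2, ?_⟩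
    ext
    · simp only [Prod.smul_fst, smul_eq_mul]
      linear_combination (-w.1) * hbez - s * h1 - t * h2
    · simp only [Prod.smul_snd, Prod.smul_fst, smul_eq_mul]
      linear_combination (-w.2.1) * hbez + r * h1 - t * h3
    · simp only [Prod.smul_snd, smul_eq_mul]
      linear_combination (-w.2.2) * hbez + r * h2 + s * h3

private theorem k1_aux (b z : ℤ × ℤ × ℤ) (hb : ∀ w, Par b w → ∃ s : ℤ, w = s • b)
    (φ : (ℤ × ℤ × ℤ) →+ ℤ) (h1 : φ z ≠ 0) (h2 : ∀ w, Par b w → φ w = 0)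
    (h3 : ∀ w, det3 b z w = 0 → φ w = 0 → Par b w) :
    ∃ b₂, ¬ Par b b₂ ∧ det3 b z b₂ = 0 ∧ ∀ w, det3 b z w = 0 → ∃ s t : ℤ, w = s • b + t • b₂ := by
  let P : AddSubgroup (ℤ × ℤ × ℤ) :=
    { carrier := {w | det3 b z w = 0}
      add_mem' := by
        intro x y hx hy
        have hx' : det3 b z x = 0 := hx
        have hy' : det3 b z y = 0 := hy
        change det3 b z (x + y) = 0
        have : det3 b z (x + y) = det3 b z x + det3 b z y := by
          simp only [det3, Prod.fst_add, Prod.snd_add]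
          ring
        rw [this, hx', hy', add_zero]
      zero_mem' := by
        change det3 b z 0 = 0
        simp [det3]
      neg_mem' := by
        intro x hx
        have hx' : det3 b z x = 0 := hx
        change det3 b z (-x) = 0
        have : det3 b z (-x) = - det3 b z x := by
          simp only [det3, Prod.fst_neg, Prod.snd_neg]
          ring
        rw [this, hx', neg_zero] }
  have hmem : ∀ w, w ∈ P ↔ det3 b z w = 0 := fun w => Iff.rfl
  obtain ⟨a, ha⟩ := Int.subgroup_cyclic (P.map φ)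
  have haS : a ∈ P.map φ := by
    rw [ha]
    exact AddSubgroup.mem_closure_singleton_self a
  obtain ⟨b₂, hb₂, hφb₂⟩ := haS
  have hspan : ∀ w ∈ P, ∃ t : ℤ, t • a = φ w := by
    intro w hw
    have h4 : φ w ∈ P.map φ := ⟨w, hw, rfl⟩
    rw [ha] at h4
    exact AddSubgroup.mem_closure_singleton.1 h4
  have hzP : z ∈ P := by
    rw [hmem]
    simp only [det3]
    ring
  have ha0 : a ≠ 0 := by
    intro h
    obtain ⟨t, ht⟩ := hspan z hzP
    rw [h, smul_zero] at ht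
    exact h1 ht.symm
  refine ⟨b₂, fun h => ha0 (by rw [← hφb₂, h2 b₂ h]), (hmem b₂).1 hb₂, fun w hw => ?_⟩
  obtain ⟨t, ht⟩ := hspan w ((hmem w).2 hw)
  have hw' : w - t • b₂ ∈ P := P.sub_mem ((hmem w).2 hw) (P.zsmul_mem hb₂ t)
  have hφ' : φ (w - t • b₂) = 0 := by
    rw [map_sub, map_zsmul, hφb₂, ht, sub_self]
  obtain ⟨s, hs⟩ := hb _ (h3 _ ((hmem _).1 hw') hφ')
  exact ⟨s, t, by rw [← hs, sub_add_cancel]⟩

/-- a minor -/
private def k1_m1 (b : ℤ × ℤ × ℤ) : (ℤ × ℤ × ℤ) →+ ℤ where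
  toFun w := b.1 * w.2.1 - w.1 * b.2.1
  map_zero' := by simp
  map_add' x y := by
    simp only [Prod.fst_add, Prod.snd_add]
    ring

/-- a minor -/
private def k1_m2 (b : ℤ × ℤ × ℤ) : (ℤ × ℤ × ℤ) →+ ℤ where
  toFun w := b.1 * w.2.2 - w.1 * b.2.2
  map_zero' := by simp
  map_add' x y := by
    simp only [Prod.fst_add, Prod.snd_add]
    ring

/-- a minor -/
private def k1_m3 (b : ℤ × ℤ × ℤ) : (ℤ × ℤ × ℤ) →+ ℤ where
  toFun w := b.2.1 * w.2.2 - w.2.1 * b.2.2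
  map_zero' := by simp
  map_add' x y := by
    simp only [Prod.snd_add, Prod.fst_add]
    ring

/-- Row K1b. Let `n = b × z ≠ 0` (cross product; its coordinates are the minors of `Par b z`), choose a coordinate `i` with
`n_i ≠ 0`, `φ(w) = (b × w)_i`, additive. The values of `φ` on `P = {w : det3 b z w = 0}` form a subgroup of `ℤ`, generated by
`d = φ(b₂)`, `b₂ ∈ P` (`AddSubgroup` of `ℤ` / least positive value), `d ≠ 0` as `φ(z) = n_i ≠ 0`; so `¬ Par b b₂`. For `w ∈ P`: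
`φ(w) = t d`, `w' = w - t b₂` has `φ(w') = 0`; `(b × w') × (b × z) = det3 b w' z • b = 0` (identity), so `b × w'` is
parallel to `n` with `i`-th coordinate `0`: `b × w' = 0`, `Par b w'`, `w' = s b`. -/
theorem basis2 (b z : ℤ × ℤ × ℤ) (hb : ∀ w, Par b w → ∃ s : ℤ, w = s • b) (hz : ¬ Par b z) :
    ∃ b₂, ¬ Par b b₂ ∧ det3 b z b₂ = 0 ∧ ∀ w, det3 b z w = 0 → ∃ s t : ℤ, w = s • b + t • b₂ := by
  by_cases n1 : b.1 * z.2.1 - z.1 * b.2.1 = 0
  · by_cases n2 : b.1 * z.2.2 - z.1 * b.2.2 = 0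
    · have n3 : b.2.1 * z.2.2 - z.2.1 * b.2.2 ≠ 0 := fun h =>
        hz ⟨sub_eq_zero.1 n1, sub_eq_zero.1 n2, sub_eq_zero.1 h⟩
      refine k1_aux b z hb (k1_m3 b) n3 (fun w hw => sub_eq_zero.2 hw.2.2) fun w hw h => ?_
      have h' : b.2.1 * w.2.2 - w.2.1 * b.2.2 = 0 := h
      unfold det3 at hw
      have e1 : (b.1 * w.2.1 - w.1 * b.2.1) * (b.2.1 * z.2.2 - z.2.1 * b.2.2) = 0 := by
        linear_combination (b.1 * z.2.1 - z.1 * b.2.1) * h' - b.2.1 * hw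
      have e2 : (b.1 * w.2.2 - w.1 * b.2.2) * (b.2.1 * z.2.2 - z.2.1 * b.2.2) = 0 := by
        linear_combination (b.1 * z.2.2 - z.1 * b.2.2) * h' - b.2.2 * hw
      exact ⟨sub_eq_zero.1 ((mul_eq_zero.1 e1).resolve_right n3),
        sub_eq_zero.1 ((mul_eq_zero.1 e2).resolve_right n3), sub_eq_zero.1 h'⟩
    · refine k1_aux b z hb (k1_m2 b) n2 (fun w hw => sub_eq_zero.2 hw.2.1) fun w hw h => ?_
      have h' : b.1 * w.2.2 - w.1 * b.2.2 = 0 := h
      unfold det3 at hw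
      have e1 : (b.1 * w.2.1 - w.1 * b.2.1) * (b.1 * z.2.2 - z.1 * b.2.2) = 0 := by
        linear_combination (b.1 * z.2.1 - z.1 * b.2.1) * h' - b.1 * hw
      have e2 : (b.2.1 * w.2.2 - w.2.1 * b.2.2) * (b.1 * z.2.2 - z.1 * b.2.2) = 0 := by
        linear_combination (b.2.1 * z.2.2 - z.2.1 * b.2.2) * h' + b.2.2 * hw
      exact ⟨sub_eq_zero.1 ((mul_eq_zero.1 e1).resolve_right n2), sub_eq_zero.1 h',
        sub_eq_zero.1 ((mul_eq_zero.1 e2).resolve_right n2)⟩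
  · refine k1_aux b z hb (k1_m1 b) n1 (fun w hw => sub_eq_zero.2 hw.1) fun w hw h => ?_
    have h' : b.1 * w.2.1 - w.1 * b.2.1 = 0 := h
    unfold det3 at hw
    have e1 : (b.1 * w.2.2 - w.1 * b.2.2) * (b.1 * z.2.1 - z.1 * b.2.1) = 0 := by
      linear_combination (b.1 * z.2.2 - z.1 * b.2.2) * h' + b.1 * hw
    have e2 : (b.2.1 * w.2.2 - w.2.1 * b.2.2) * (b.1 * z.2.1 - z.1 * b.2.1) = 0 := by
      linear_combination (b.2.1 * z.2.2 - z.2.1 * b.2.2) * h' + b.2.1 * hw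
    exact ⟨sub_eq_zero.1 h', sub_eq_zero.1 ((mul_eq_zero.1 e1).resolve_right n1),
      sub_eq_zero.1 ((mul_eq_zero.1 e2).resolve_right n1)⟩

end V44
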