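import Pool.Agent.LibV44.G0
import Pool.Agent.LibV44.K1

namespace V44

theorem g1_det (k l m : ℝ × ℝ × ℝ) (b b₂ z : ℤ × ℤ × ℤ) : rdet k l m * (det3 b b₂ z : ℝ) =
    lin k z * (lin l b * lin m b₂ - lin m b * lin l b₂) -
      lin l z * (lin k b * lin m b₂ - lin m b * lin k b₂) +
      lin m z * (lin k b * lin l b₂ - lin l b * lin k b₂) := by
  simp only [rdet, det3, lin]
  push_cast
  ring

theorem g1_bd (k l m : ℝ × ℝ × ℝ) (b b₂ z : ℤ × ℤ × ℤ) (c : ℝ) (h1 : |lin k z| ≤ c)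
    (h2 : |lin l z| ≤ c) (h3 : |lin m z| ≤ c) :
    |rdet k l m| * |(det3 b b₂ z : ℝ)| ≤ 3 * c * wd k l m b b₂ := by
  have hc : 0 ≤ c := (abs_nonneg _).trans h1
  have w1 : |lin k b * lin l b₂ - lin l b * lin k b₂| ≤ wd k l m b b₂ := le_max_left _ _
  have w2 : |lin k b * lin m b₂ - lin m b * lin k b₂| ≤ wd k l m b b₂ :=
    (le_max_left _ _).trans (le_max_right _ _)
  have w3 : |lin l b * lin m b₂ - lin m b * lin l b₂| ≤ wd k l m b b₂ :=
    (le_max_right _ _).trans (le_max_right _ _)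
  rw [← abs_mul, g1_det]
  have a1 : |lin k z * (lin l b * lin m b₂ - lin m b * lin l b₂)| ≤ c * wd k l m b b₂ := by
    rw [abs_mul]
    exact mul_le_mul h1 w3 (abs_nonneg _) hc
  have a2 : |lin l z * (lin k b * lin m b₂ - lin m b * lin k b₂)| ≤ c * wd k l m b b₂ := by
    rw [abs_mul]
    exact mul_le_mul h2 w2 (abs_nonneg _) hc
  have a3 : |lin m z * (lin k b * lin l b₂ - lin l b * lin k b₂)| ≤ c * wd k l m b b₂ := by
    rw [abs_mul]
    exact mul_le_mul h3 w1 (abs_nonneg _) hc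
  refine (abs_add_le _ _).trans ?_
  have a4 := abs_sub (lin k z * (lin l b * lin m b₂ - lin m b * lin l b₂))
    (lin l z * (lin k b * lin m b₂ - lin m b * lin k b₂))
  linarith

theorem g1_lin (b b₂ z : ℤ × ℤ × ℤ) (s t : ℤ) :
    det3 b (s • b + t • b₂) z = t * det3 b b₂ z := by
  simp only [det3, Prod.fst_add, Prod.snd_add, Prod.smul_fst, Prod.smul_snd, smul_eq_mul]
  ring

theorem g1_gl (b y z : ℤ × ℤ × ℤ) (g : ℤ) : det3 (g • b) y z = g * det3 b y z := by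
  simp only [det3, Prod.smul_fst, Prod.smul_snd, smul_eq_mul]
  ring

theorem g1_sub (b y z w : ℤ × ℤ × ℤ) : det3 b y (z - w) = det3 b y z - det3 b y w := by
  simp only [det3, Prod.fst_sub, Prod.snd_sub]
  ring

/-- Row G1. Lattice points of the box which span the space. `κ = |rdet k l m|`; if `κ = 0` trivial. `z₁, z₂, z₃ ∈ T`, `det3 ≠ 0`;
`prim`: `z₁ = g b`; `¬ Par b z₂` (else `det3 z₁ z₂ z₃ = 0`); `basis2 b z₂`: `b₂`; `z₂ = s b + t b₂`, `t ≠ 0`,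
`D(z) = det3 b b₂ z`: `g t D(z₃) = det3 z₁ z₂ z₃ ≠ 0`. Identity: `rdet k l m * det3 b b₂ z` = determinant of the
matrix of the values of `k, l, m` at `b, b₂, z`; expand along `z`: `κ |D(z)| ≤ 3 a` for `z ∈ T`, `a = wd b b₂`. So `a > 0` and
`κ ≤ 3a` (`|D(z₃)| ≥ 1`). `nm b ≤ nm z₁ ≤ 1`; `a ≤ |t| a = wd b z₂ ≤ 2 nm(b) nm(z₂) ≤ 2 nm b`. The values `D(z)`, `z ∈ T`, have
differences `≤ 6a/κ`, `6a/κ + 1 ≤ 9a/κ`; the fibres: `det3 b b₂ (z - w) = 0` gives `det3 b z₂ (z - w) = 0`, so `basis2` and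
`plane_count`: card `≤ 18/a`. `count_fib`: `card T ≤ 9a/κ · 18/a = 162/κ`. -/
theorem lattice_count (k l m : ℝ × ℝ × ℝ) (T : Finset (ℤ × ℤ × ℤ))
    (hT : ∀ z ∈ T, |lin k z| ≤ 1 ∧ |lin l z| ≤ 1 ∧ |lin m z| ≤ 1)
    (h3 : ∃ z₁ ∈ T, ∃ z₂ ∈ T, ∃ z₃ ∈ T, det3 z₁ z₂ z₃ ≠ 0) :
    (T.card : ℝ) * |rdet k l m| ≤ 162 := by
  classical
  obtain ⟨z₁, hz₁, z₂, hz₂, z₃, hz₃, hdet⟩ := h3
  rcases (abs_nonneg (rdet k l m)).eq_or_lt with hκ | hκ
  · rw [← hκ, mul_zero]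
    norm_num
  have hz10 : z₁ ≠ 0 := by
    rintro rfl
    apply hdet
    simp [det3]
  obtain ⟨g, b, hg, hb0, hgb, hbp⟩ := prim z₁ hz10
  have hpar : ∀ s : ℤ, z₂ ≠ s • b := by
    intro s hs
    apply hdet
    rw [hgb, g1_gl, hs]
    have e : s • b = s • b + (0 : ℤ) • b := by rw [zero_smul, add_zero]
    rw [e, g1_lin, zero_mul, mul_zero]
  have hnp : ¬ Par b z₂ := by
    intro hp
    obtain ⟨s, hs⟩ := hbp z₂ hp
    exact hpar s hs
  obtain ⟨b₂, hb2, -, hbas⟩ := basis2 b z₂ hbp hnp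
  obtain ⟨s₂, t₂, hst⟩ := hbas z₂ (by simp only [det3]; ring)
  have ht2 : t₂ ≠ 0 := by
    rintro rfl
    rw [zero_smul, add_zero] at hst
    exact hpar s₂ hst
  have hD3 : det3 b b₂ z₃ ≠ 0 := by
    intro h0
    apply hdet
    rw [hgb, g1_gl, hst, g1_lin, h0, mul_zero, mul_zero]
  set a := wd k l m b b₂ with hadef
  obtain ⟨p1, p2, p3⟩ := hT z₃ hz₃
  have hκa : |rdet k l m| ≤ 3 * a := by
    have h1 := g1_bd k l m b b₂ z₃ 1 p1 p2 p3
    have h2 : (1 : ℝ) ≤ |(det3 b b₂ z₃ : ℝ)| := by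
      have h3 : 1 ≤ |det3 b b₂ z₃| := Int.one_le_abs hD3
      exact_mod_cast h3
    have h4 : |rdet k l m| * 1 ≤ |rdet k l m| * |(det3 b b₂ z₃ : ℝ)| :=
      mul_le_mul_of_nonneg_left h2 hκ.le
    linarith
  have ha : 0 < a := by linarith
  have hr1 : nm k l m b ≤ 1 := by
    obtain ⟨q1, q2, q3⟩ := hT z₁ hz₁
    have h1 := g0_ns k l m b z₁ g hgb 1 q1 q2 q3
    have h2 : (1 : ℝ) ≤ |((g : ℤ) : ℝ)| := by
      have h3 : (1 : ℝ) ≤ g := by exact_mod_cast hg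
      push_cast
      exact h3.trans (le_abs_self _)
    have h0 : 0 ≤ nm k l m b := (abs_nonneg _).trans (g0_nm k l m b).1
    nlinarith
  have har : a ≤ 2 * nm k l m b := by
    obtain ⟨q1, q2, q3⟩ := hT z₂ hz₂
    have h1 := g0_wd k l m b b₂ z₂ s₂ t₂ hst 1 q1 q2 q3
    have h2 : (1 : ℝ) ≤ |(t₂ : ℝ)| := by
      have h3 : 1 ≤ |t₂| := Int.one_le_abs ht2
      exact_mod_cast h3
    have h3 : 1 * a ≤ |(t₂ : ℝ)| * a := mul_le_mul_of_nonneg_right h2 ha.le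
    linarith
  have hr : 0 < nm k l m b := by linarith
  have hdiff : ∀ z ∈ T, ∀ w ∈ T, |(det3 b b₂ z : ℝ) - det3 b b₂ w| ≤ 6 * a / |rdet k l m| := by
    intro z hz w hw
    obtain ⟨z1, z2, z3⟩ := hT z hz
    obtain ⟨w1, w2, w3⟩ := hT w hw
    have h1 := g1_bd k l m b b₂ (z - w) 2 (g0_two k z1 w1) (g0_two l z2 w2) (g0_two m z3 w3)
    rw [g1_sub] at h1
    push_cast at h1
    rw [le_div_iff₀ hκ]
    linarith
  have hfib : ∀ c : ℤ, ((T.filter fun z => det3 b b₂ z = c).card : ℝ) ≤ 18 / a := by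
    intro c
    rw [le_div_iff₀ ha]
    refine plane_count k l m b b₂ hr hr1 ha har _ ?_ ?_
    · intro z hz
      rw [Finset.mem_filter] at hz
      exact hT z hz.1
    · intro z hz w hw
      rw [Finset.mem_filter] at hz hw
      refine hbas (z - w) ?_
      rw [hst, g1_lin, g1_sub, hz.2, hw.2, sub_self, mul_zero]
  have hcount := count_fib T (det3 b b₂) (6 * a / |rdet k l m|) (18 / a) (by positivity)
    (by positivity) hdiff hfib
  have h1 : (T.card : ℝ) * |rdet k l m| ≤ (6 * a / |rdet k l m| + 1) * (18 / a) * |rdet k l m| :=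
    mul_le_mul_of_nonneg_right hcount hκ.le
  refine h1.trans ?_
  have h2 : (6 * a / |rdet k l m| + 1) * (18 / a) * |rdet k l m| =
      (6 * a + |rdet k l m|) * (18 / a) := by
    field_simp
  rw [h2]
  have h3 : (6 * a + |rdet k l m|) * (18 / a) ≤ (9 * a) * (18 / a) :=
    mul_le_mul_of_nonneg_right (by linarith) (by positivity)
  refine h3.trans (le_of_eq ?_)
  field_simp
  norm_num

end V44
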