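import Pool.Agent.LibV44.G1

namespace V44
open T44

/-- Row G2. `lattice_count` for `k = (1/A, 0, 0)`, `l = (1/B, 3p/B, -3q/B)` (`lin l z = xX p q z / B`), `m = (0, p/C, q/C)`
(`lin m z = sS p q z / C`), `rdet k l m = 6pq/(ABC)`, `pq = αβ`. -/
theorem space_count {α β : ℕ} {p q : ℝ} (h : Cl α β p q) (A B C : ℝ) (hA : 0 < A) (hB : 0 < B) (hC : 0 < C)
    (T : Finset (ℤ × ℤ × ℤ)) (hT : ∀ z ∈ T, |(z.1 : ℝ)| ≤ A ∧ |xX p q z| ≤ B ∧ |sS p q z| ≤ C)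
    (h3 : ∃ z₁ ∈ T, ∃ z₂ ∈ T, ∃ z₃ ∈ T, det3 z₁ z₂ z₃ ≠ 0) :
    (T.card : ℝ) * ((α : ℝ) * β) ≤ 27 * (A * B * C) := by
  have hpq : p * q = (α : ℝ) * β := h.2.2.2.2.2.2.2.2.2.2
  have hp : 0 < p := h.2.2.2.2.2.2.1
  have hq : 0 < q := h.2.2.2.2.2.2.2.1
  have hl1 : ∀ z : ℤ × ℤ × ℤ, lin (1 / A, 0, 0) z = (z.1 : ℝ) / A := by
    intro z
    unfold lin
    ring
  have hl2 : ∀ z : ℤ × ℤ × ℤ, lin (1 / B, 3 * p / B, -(3 * q / B)) z = xX p q z / B := by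
    intro z
    unfold lin xX dD
    ring
  have hl3 : ∀ z : ℤ × ℤ × ℤ, lin (0, p / C, q / C) z = sS p q z / C := by
    intro z
    unfold lin sS
    ring
  have hT' : ∀ z ∈ T, |lin (1 / A, 0, 0) z| ≤ 1 ∧
      |lin (1 / B, 3 * p / B, -(3 * q / B)) z| ≤ 1 ∧ |lin (0, p / C, q / C) z| ≤ 1 := by
    intro z hz
    obtain ⟨h1, h2, h4⟩ := hT z hz
    rw [hl1, hl2, hl3, abs_div, abs_div, abs_div, abs_of_pos hA, abs_of_pos hB, abs_of_pos hC]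
    exact ⟨(div_le_one hA).2 h1, (div_le_one hB).2 h2, (div_le_one hC).2 h4⟩
  have key := lattice_count _ _ _ T hT' h3
  have hdet : rdet (1 / A, 0, 0) (1 / B, 3 * p / B, -(3 * q / B)) (0, p / C, q / C) =
      6 * (p * q) / (A * B * C) := by
    unfold rdet
    field_simp
    ring
  rw [hdet, abs_of_pos (by positivity), ← mul_div_assoc, div_le_iff₀ (by positivity), hpq] at key
  linarith

end V44
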