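import Mathlib

namespace V44

/-- Row LO1. `θ(T) - θ(T/8) ≥ T log 2 - log (T+1) - 2√T log T - (log 4) T/8 ≥ T/2` for large `T` (`Chebyshev.theta_ge`,
`Chebyshev.theta_le_log4_mul_x`; `(3/4) log 2 > 0.51`), and `θ(T) - θ(T/8) = ∑_{T/8 < p ≤ T} log p ≤ card · log T`. -/
theorem primes_count : ∃ T₀ : ℕ, ∀ T : ℕ, T₀ ≤ T → (T : ℝ) / 2 ≤
    (((Finset.Icc 1 T).filter fun p => p.Prime ∧ T < 8 * p).card : ℝ) * Real.log T := by
  refine ⟨10 ^ 12, fun T hT => ?_⟩
  have hT' : (10 : ℝ) ^ 12 ≤ T := by exact_mod_cast hT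
  have hT0 : (0 : ℝ) < T := by
    have : (0 : ℝ) < 10 ^ 12 := by norm_num
    linarith
  -- split of theta
  have h1 := Chebyshev.theta_ge T
  have h2 := Chebyshev.theta_le_log4_mul_x (x := (T : ℝ) / 8) (by positivity)
  have hsplit : Chebyshev.theta (T : ℝ) ≤
      (((Finset.Icc 1 T).filter fun p => p.Prime ∧ T < 8 * p).card : ℝ) * Real.log T +
        Chebyshev.theta ((T : ℝ) / 8) := by
    unfold Chebyshev.theta
    rw [Nat.floor_natCast]
    rw [← Finset.sum_filter_add_sum_filter_not ((Finset.Ioc 0 T).filter Nat.Prime)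
      (fun p => T < 8 * p)]
    refine add_le_add ?_ ?_
    · have e : ((Finset.Ioc 0 T).filter Nat.Prime).filter (fun p => T < 8 * p) =
          (Finset.Icc 1 T).filter fun p => p.Prime ∧ T < 8 * p := by
        ext p
        simp only [Finset.mem_filter, Finset.mem_Ioc, Finset.mem_Icc]
        constructor
        · rintro ⟨⟨⟨a, b⟩, c⟩, d⟩
          exact ⟨⟨a, b⟩, c, d⟩
        · rintro ⟨⟨a, b⟩, c, d⟩
          exact ⟨⟨⟨a, b⟩, c⟩, d⟩
      rw [e, ← nsmul_eq_mul]
      refine Finset.sum_le_card_nsmul _ _ _ fun p hp => ?_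
      rw [Finset.mem_filter, Finset.mem_Icc] at hp
      refine Real.log_le_log ?_ ?_
      · exact_mod_cast hp.1.1
      · exact_mod_cast hp.1.2
    · refine Finset.sum_le_sum_of_subset_of_nonneg ?_ ?_
      · intro p hp
        simp only [Finset.mem_filter, Finset.mem_Ioc, not_lt] at hp ⊢
        obtain ⟨⟨⟨a, b⟩, c⟩, d⟩ := hp
        refine ⟨⟨a, ?_⟩, c⟩
        rw [Nat.le_floor_iff (by positivity), le_div_iff₀ (by norm_num)]
        have d' : (8 : ℝ) * p ≤ T := by exact_mod_cast d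
        linarith
      · intro p hp _
        rw [Finset.mem_filter, Finset.mem_Ioc] at hp
        refine Real.log_nonneg ?_
        exact_mod_cast hp.1.1
  -- asymptotics
  set w : ℝ := √(√(T : ℝ)) with hw
  have hs0 : 0 ≤ √(T : ℝ) := Real.sqrt_nonneg _
  have hw2 : w ^ 2 = √(T : ℝ) := Real.sq_sqrt hs0
  have hs2 : √(T : ℝ) ^ 2 = T := Real.sq_sqrt hT0.le
  have hw4 : w ^ 4 = T := by
    have : w ^ 4 = (w ^ 2) ^ 2 := by ring
    rw [this, hw2, hs2]
  have hw1000 : 1000 ≤ w := by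
    refine Real.le_sqrt_of_sq_le ?_
    refine Real.le_sqrt_of_sq_le ?_
    refine le_trans (le_of_eq ?_) hT'
    norm_num
  have hw0 : 0 < w := by linarith
  have hlogT : Real.log T ≤ 4 * w := by
    rw [← hw4, Real.log_pow]
    have h3 := Real.log_le_sub_one_of_pos hw0
    push_cast
    linarith
  have hlogT1 : Real.log ((T : ℝ) + 1) ≤ 4 * w + 1 := by
    have h3 : Real.log ((T : ℝ) + 1) ≤ Real.log (2 * T) := by
      refine Real.log_le_log (by linarith) ?_
      have : (1 : ℝ) ≤ 10 ^ 12 := by norm_num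
      linarith
    rw [Real.log_mul (by norm_num) hT0.ne'] at h3
    have h4 := Real.log_two_lt_d9
    linarith
  have hsl : 2 * √(T : ℝ) * Real.log T ≤ 8 * w ^ 3 := by
    rw [← hw2]
    have h3 : 2 * w ^ 2 * Real.log T ≤ 2 * w ^ 2 * (4 * w) :=
      mul_le_mul_of_nonneg_left hlogT (by positivity)
    refine h3.trans (le_of_eq ?_)
    ring
  have hlog2 := Real.log_two_gt_d9
  have hlog4 : Real.log 4 = 2 * Real.log 2 := by
    rw [show (4 : ℝ) = 2 ^ 2 by norm_num, Real.log_pow]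
    push_cast
    ring
  rw [hlog4] at h2
  have hw3 : 13 * w ^ 3 ≤ 0.013 * (T : ℝ) := by
    rw [← hw4]
    have h3 : 13 * w ^ 3 = 0.013 * (w ^ 3 * 1000) := by ring
    have h4 : w ^ 4 = w ^ 3 * w := by ring
    rw [h3, h4]
    have h5 : w ^ 3 * 1000 ≤ w ^ 3 * w := mul_le_mul_of_nonneg_left hw1000 (by positivity)
    linarith
  have hw31 : 4 * w + 1 ≤ 5 * w ^ 3 := by
    have h3 : w * 1 ≤ w * w ^ 2 := mul_le_mul_of_nonneg_left (by nlinarith) hw0.le
    have h4 : w * w ^ 2 = w ^ 3 := by ring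
    linarith
  have hfin : (T : ℝ) * Real.log 2 * (3 / 4) ≥ 0.519 * T := by
    nlinarith
  have h3 : (T : ℝ) * Real.log 2 - (2 * Real.log 2 * ((T : ℝ) / 8)) =
      (T : ℝ) * Real.log 2 * (3 / 4) := by ring
  linarith

end V44
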