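import Pool.Agent.LibV44.Defs

namespace V44
open T44

/-- Row LO2a. The pair `(A, B)` of `t`, `c`: `A = 6tc - 27t⁴`, `B = c² - 18ct³ + 54t⁶` (`= T44` parametrization with `s = c - 9t³`), and `2c = αβ(α - β - 6t)`.
Sizes: `-13T³ ≤ 2c < 0`; `|A| ≤ 6·2T·6.5T³ + 27·16T⁴ ≤ 49²T⁴ ≤ X²`, `|B| ≤ 4435 T⁶ ≤ 49³T⁶ ≤ X³`. `4A³ + 27B² = 27c³(c - 4t³) ≠ 0` (`c < 0 < t`);
order three: `(3t², c)` (`T44.div3`, `s = c - 9t³`). The other point: `x' = αβ`, `y' = αβ²`, `(x, y) = (3t² + x', y' + 3tx' + c)`, and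
`3x⁴ + 6Ax² + 12Bx - A² = x' (3x'³ + 36t²x'² + 36tcx' + 12c²) > 0`, since `12(c² + 3tcx' + 3t²x'²) = 12((c + 3tx'/2)² + 3t²x'²/4)`. -/
theorem lo_mem (X T : ℕ) (hT : 49 * T ^ 2 ≤ X) (t c α β : ℤ) (ht : (T : ℤ) < t) (ht2 : t ≤ 2 * T)
    (hα : 1 ≤ α) (hαT : α ≤ T) (hβ : 1 ≤ β) (hβT : β ≤ T) (hc : 2 * c = α * β * (α - β - 6 * t)) :
    (6 * t * c - 27 * t ^ 4, c ^ 2 - 18 * c * t ^ 3 + 54 * t ^ 6) ∈ Exc X := by
  have hT1 : (1 : ℤ) ≤ T := hα.trans hαT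
  have hX : 49 * (T : ℤ) ^ 2 ≤ X := by exact_mod_cast hT
  obtain ⟨U, hU⟩ : ∃ U : ℤ, U = (T : ℤ) := ⟨_, rfl⟩
  rw [← hU] at ht ht2 hαT hβT hT1 hX
  have ht0 : 0 < t := by linarith
  have hαβ1 : 1 ≤ α * β := by nlinarith
  have hαβ2 : α * β ≤ U ^ 2 := by nlinarith
  have hw1 : α - β - 6 * t < 0 := by linarith
  have hw2 : -(13 * U) ≤ α - β - 6 * t := by linarith
  have hc0 : 2 * c < 0 := by
    rw [hc]
    exact mul_neg_of_pos_of_neg (by linarith) hw1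
  have hcl : -(13 * U ^ 3) ≤ 2 * c := by
    have h1 : U ^ 2 * (α - β - 6 * t) ≤ α * β * (α - β - 6 * t) :=
      mul_le_mul_of_nonpos_right hαβ2 hw1.le
    have h2 : U ^ 2 * -(13 * U) ≤ U ^ 2 * (α - β - 6 * t) :=
      mul_le_mul_of_nonneg_left hw2 (by positivity)
    rw [hc]
    linarith [h1, h2]
  have hcneg : c < 0 := by linarith
  have hU2 : 0 ≤ U ^ 2 := by positivity
  have hU3 : 0 ≤ U ^ 3 := by positivity
  have hU4 : 0 ≤ U ^ 4 := by positivity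
  have hU6 : 0 ≤ U ^ 6 := by positivity
  have ht3 : t ^ 3 ≤ 8 * U ^ 3 := by
    have h := pow_le_pow_left₀ ht0.le ht2 3
    linarith [h, show (2 * U) ^ 3 = 8 * U ^ 3 by ring]
  have ht4 : t ^ 4 ≤ 16 * U ^ 4 := by
    have h := pow_le_pow_left₀ ht0.le ht2 4
    linarith [h, show (2 * U) ^ 4 = 16 * U ^ 4 by ring]
  have ht6 : t ^ 6 ≤ 64 * U ^ 6 := by
    have h := pow_le_pow_left₀ ht0.le ht2 6
    linarith [h, show (2 * U) ^ 6 = 64 * U ^ 6 by ring]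
  have ht30 : 0 ≤ t ^ 3 := by positivity
  have ht40 : 0 ≤ t ^ 4 := by positivity
  have ht60 : 0 ≤ t ^ 6 := by positivity
  have hX2 : 2401 * U ^ 4 ≤ (X : ℤ) ^ 2 := by
    have h := pow_le_pow_left₀ (by positivity) hX 2
    linarith [h, show (49 * U ^ 2) ^ 2 = 2401 * U ^ 4 by ring]
  have hX3 : 117649 * U ^ 6 ≤ (X : ℤ) ^ 3 := by
    have h := pow_le_pow_left₀ (by positivity) hX 3
    linarith [h, show (49 * U ^ 2) ^ 3 = 117649 * U ^ 6 by ring]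
  -- products with `c`
  have htc : -(26 * U ^ 4) ≤ t * (2 * c) := by
    have h1 : 2 * U * (2 * c) ≤ t * (2 * c) := mul_le_mul_of_nonpos_right ht2 hc0.le
    have h2 : 2 * U * -(13 * U ^ 3) ≤ 2 * U * (2 * c) :=
      mul_le_mul_of_nonneg_left hcl (by linarith)
    linarith [h1, h2, show 2 * U * -(13 * U ^ 3) = -(26 * U ^ 4) by ring]
  have htc0 : t * (2 * c) ≤ 0 := mul_nonpos_of_nonneg_of_nonpos ht0.le hc0.le
  have ht3c : -(104 * U ^ 6) ≤ t ^ 3 * (2 * c) := by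
    have h1 : 8 * U ^ 3 * (2 * c) ≤ t ^ 3 * (2 * c) := mul_le_mul_of_nonpos_right ht3 hc0.le
    have h2 : 8 * U ^ 3 * -(13 * U ^ 3) ≤ 8 * U ^ 3 * (2 * c) :=
      mul_le_mul_of_nonneg_left hcl (by linarith)
    linarith [h1, h2, show 8 * U ^ 3 * -(13 * U ^ 3) = -(104 * U ^ 6) by ring]
  have ht3c0 : t ^ 3 * (2 * c) ≤ 0 := mul_nonpos_of_nonneg_of_nonpos ht30 hc0.le
  have hcc : (2 * c) ^ 2 ≤ 169 * U ^ 6 := by
    have h1 : |2 * c| ≤ 13 * U ^ 3 := abs_le.2 ⟨hcl, by linarith⟩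
    have h2 := pow_le_pow_left₀ (abs_nonneg (2 * c)) h1 2
    rw [sq_abs] at h2
    linarith [h2, show (13 * U ^ 3) ^ 2 = 169 * U ^ 6 by ring]
  have hcc0 : 0 ≤ (2 * c) ^ 2 := by positivity
  refine ⟨⟨?_, ?_, ?_, 3 * t ^ 2, c, ?_, ?_⟩, 3 * t ^ 2 + α * β, α * β ^ 2 + 3 * t * (α * β) + c,
    ?_, ?_⟩
  · show |6 * t * c - 27 * t ^ 4| ≤ (X : ℤ) ^ 2
    rw [abs_le]
    have h1 : 6 * t * c = 3 * (t * (2 * c)) := by ring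
    rw [h1]
    constructor
    · linarith
    · linarith
  · show |c ^ 2 - 18 * c * t ^ 3 + 54 * t ^ 6| ≤ (X : ℤ) ^ 3
    rw [abs_le]
    have h1 : c ^ 2 - 18 * c * t ^ 3 + 54 * t ^ 6 =
        c ^ 2 - 9 * (t ^ 3 * (2 * c)) + 54 * t ^ 6 := by ring
    have h2 : 4 * c ^ 2 = (2 * c) ^ 2 := by ring
    rw [h1]
    constructor
    · linarith
    · linarith
  · show 4 * (6 * t * c - 27 * t ^ 4) ^ 3 + 27 * (c ^ 2 - 18 * c * t ^ 3 + 54 * t ^ 6) ^ 2 ≠ 0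
    have h1 : 4 * (6 * t * c - 27 * t ^ 4) ^ 3 + 27 * (c ^ 2 - 18 * c * t ^ 3 + 54 * t ^ 6) ^ 2 =
        27 * ((-c) ^ 3 * (4 * t ^ 3 - c)) := by ring
    rw [h1]
    have h2 : 0 < (-c) ^ 3 := pow_pos (by linarith) 3
    have h3 : 0 < 4 * t ^ 3 - c := by linarith
    have h4 := mul_pos h2 h3
    intro h5
    linarith
  · show c ^ 2 = (3 * t ^ 2) ^ 3 + (6 * t * c - 27 * t ^ 4) * (3 * t ^ 2) +
      (c ^ 2 - 18 * c * t ^ 3 + 54 * t ^ 6)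
    ring
  · show 3 * (3 * t ^ 2) ^ 4 + 6 * (6 * t * c - 27 * t ^ 4) * (3 * t ^ 2) ^ 2 +
      12 * (c ^ 2 - 18 * c * t ^ 3 + 54 * t ^ 6) * (3 * t ^ 2) - (6 * t * c - 27 * t ^ 4) ^ 2 = 0
    ring
  · show (α * β ^ 2 + 3 * t * (α * β) + c) ^ 2 = (3 * t ^ 2 + α * β) ^ 3 +
      (6 * t * c - 27 * t ^ 4) * (3 * t ^ 2 + α * β) + (c ^ 2 - 18 * c * t ^ 3 + 54 * t ^ 6)
    linear_combination (α * β ^ 2) * hc
  · show 3 * (3 * t ^ 2 + α * β) ^ 4 + 6 * (6 * t * c - 27 * t ^ 4) * (3 * t ^ 2 + α * β) ^ 2 +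
      12 * (c ^ 2 - 18 * c * t ^ 3 + 54 * t ^ 6) * (3 * t ^ 2 + α * β) -
      (6 * t * c - 27 * t ^ 4) ^ 2 ≠ 0
    obtain ⟨p, hp⟩ : ∃ p, p = α * β := ⟨_, rfl⟩
    rw [← hp] at hαβ1 ⊢
    have h1 : 3 * (3 * t ^ 2 + p) ^ 4 + 6 * (6 * t * c - 27 * t ^ 4) * (3 * t ^ 2 + p) ^ 2 +
      12 * (c ^ 2 - 18 * c * t ^ 3 + 54 * t ^ 6) * (3 * t ^ 2 + p) -
      (6 * t * c - 27 * t ^ 4) ^ 2 = p * (3 * p ^ 3 + (3 * (2 * c + 3 * t * p) ^ 2 +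
        9 * (t * p) ^ 2)) := by ring
    rw [h1]
    have h2 : 0 < 3 * p ^ 3 + (3 * (2 * c + 3 * t * p) ^ 2 + 9 * (t * p) ^ 2) := by
      have hp0 : 0 < p := by linarith
      positivity
    exact (mul_pos (by linarith) h2).ne'

/-- Row LO2b. `αβ(α - β - 6t)` is even (cases on parities). -/
theorem lo_even (t α β : ℤ) : ∃ c : ℤ, 2 * c = α * β * (α - β - 6 * t) := by
  rcases Int.even_or_odd α with ⟨a, ha⟩ | ⟨a, ha⟩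
  · exact ⟨a * β * (α - β - 6 * t), by rw [ha]; ring⟩
  · rcases Int.even_or_odd β with ⟨b, hb⟩ | ⟨b, hb⟩
    · exact ⟨α * b * (α - β - 6 * t), by rw [hb]; ring⟩
    · exact ⟨α * β * (a - b - 3 * t), by rw [ha, hb]; ring⟩

end V44
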