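import Pool.Agent.LibV44.LO1
import Pool.Agent.LibV44.LO2
import Pool.Agent.LibV44.LO3

namespace V44
open T44

/-- Row LO4a. Index set `I = (T, 2T] × P × [1, T]`, `P` the primes of `primes_count`; `φ(t, α, β) = (A, B)` as in `lo_mem` (`c` from `lo_even`). Fibres have at most 3
elements: `t_unique` gives `t` and `c`, hence `b = -2c ∈ (0, 13T³]`; `α ∣ b`: `big_primes`; `beta_unique`. So `3 · ncard (Exc X) ≥ T · card P · T`
(`Exc X ⊆ Fam X` is finite, `T44.fam_finite`). -/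
theorem lo_count (X T : ℕ) (hT : 49 * T ^ 2 ≤ X) (hT2 : 53248 < T) :
    T ^ 2 * ((Finset.Icc 1 T).filter fun p => p.Prime ∧ T < 8 * p).card ≤ 3 * (Exc X).ncard := by
  classical
  obtain ⟨P, hP⟩ : ∃ P, P = (Finset.Icc 1 T).filter fun p => p.Prime ∧ T < 8 * p := ⟨_, rfl⟩
  rw [← hP]
  have hTz : (53248 : ℤ) < T := by exact_mod_cast hT2
  choose c hc using lo_even
  obtain ⟨I, hI⟩ : ∃ I : Finset (ℤ × ℕ × ℤ), I = (Finset.Ioc (T : ℤ) (2 * T)) ×ˢ P ×ˢ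
    (Finset.Icc (1 : ℤ) T) := ⟨_, rfl⟩
  have hmem : ∀ w ∈ I, (T : ℤ) < w.1 ∧ w.1 ≤ 2 * T ∧ w.2.1.Prime ∧ T < 8 * w.2.1 ∧ 1 ≤ w.2.1 ∧
      w.2.1 ≤ T ∧ 1 ≤ w.2.2 ∧ w.2.2 ≤ (T : ℤ) := by
    intro w hw
    rw [hI, Finset.mem_product, Finset.mem_product, Finset.mem_Ioc, Finset.mem_Icc, hP,
      Finset.mem_filter, Finset.mem_Icc] at hw
    exact ⟨hw.1.1, hw.1.2, hw.2.1.2.1, hw.2.1.2.2, hw.2.1.1.1, hw.2.1.1.2, hw.2.2.1, hw.2.2.2⟩
  obtain ⟨φ, hφ⟩ : ∃ φ : ℤ × ℕ × ℤ → ℤ × ℤ, φ = fun w =>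
    (6 * w.1 * c w.1 w.2.1 w.2.2 - 27 * w.1 ^ 4, (c w.1 w.2.1 w.2.2) ^ 2 -
      18 * c w.1 w.2.1 w.2.2 * w.1 ^ 3 + 54 * w.1 ^ 6) := ⟨_, rfl⟩
  have hfin : (Exc X).Finite := (fam_finite X).subset (fun z hz => hz.1)
  have himg : I.image φ ⊆ hfin.toFinset := by
    intro z hz
    obtain ⟨w, hw, rfl⟩ := Finset.mem_image.1 hz
    obtain ⟨h1, h2, h3, h4, h5, h6, h7, h8⟩ := hmem w hw
    rw [Set.Finite.mem_toFinset, hφ]
    exact lo_mem X T hT w.1 (c w.1 w.2.1 w.2.2) w.2.1 w.2.2 h1 h2 (by exact_mod_cast h5)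
      (by exact_mod_cast h6) h7 h8 (hc _ _ _)
  have hcardI : I.card = T * (P.card * T) := by
    rw [hI, Finset.card_product, Finset.card_product, Int.card_Ioc, Int.card_Icc]
    have e1 : (2 * (T : ℤ) - T).toNat = T := by omega
    have e2 : ((T : ℤ) + 1 - 1).toNat = T := by omega
    rw [e1, e2]
  have hfib : ∀ a ∈ I.image φ, (I.filter (fun w => φ w = a)).card ≤ 3 := by
    intro a ha
    obtain ⟨w₀, hw₀, ha⟩ := Finset.mem_image.1 ha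
    have key : ∀ w ∈ I.filter (fun w => φ w = a), w.1 = w₀.1 ∧
        c w.1 w.2.1 w.2.2 = c w₀.1 w₀.2.1 w₀.2.2 := by
      intro w hw
      obtain ⟨hwI, hwa⟩ := Finset.mem_filter.1 hw
      have h1 := hmem w hwI
      have h2 := hmem w₀ hw₀
      rw [← ha, hφ] at hwa
      simp only [Prod.mk.injEq] at hwa
      exact t_unique _ _ _ _ (by linarith [h1.1]) (by linarith [h2.1]) hwa.1 hwa.2
    have hinj : Set.InjOn (fun w : ℤ × ℕ × ℤ => w.2.1)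
        (I.filter (fun w => φ w = a) : Set (ℤ × ℕ × ℤ)) := by
      intro w hw w' hw' e
      simp only at e
      have hw := Finset.mem_coe.1 hw
      have hw' := Finset.mem_coe.1 hw'
      obtain ⟨k1, k2⟩ := key w hw
      obtain ⟨k1', k2'⟩ := key w' hw'
      have m1 := hmem w (Finset.mem_filter.1 hw).1
      have m2 := hmem w' (Finset.mem_filter.1 hw').1
      have ht : w.1 = w'.1 := k1.trans k1'.symm
      have hcc : c w.1 w.2.1 w.2.2 = c w'.1 w'.2.1 w'.2.2 := k2.trans k2'.symm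
      have hb := hc w.1 w.2.1 w.2.2
      have hb' := hc w'.1 w'.2.1 w'.2.2
      have hβ : w.2.2 = w'.2.2 := by
        apply beta_unique w.1 w.2.1 w.2.2 w'.2.2 (by exact_mod_cast m1.2.2.2.2.1) ?_ m1.2.2.2.2.2.2.1
          m2.2.2.2.2.2.2.1
        · rw [← hb, hcc, hb', ← ht, ← e]
        · have : (w.2.1 : ℤ) ≤ T := by exact_mod_cast m1.2.2.2.2.2.1
          linarith [m1.1]
      exact Prod.ext ht (Prod.ext e hβ)
    rw [← Finset.card_image_of_injOn hinj]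
    have h₀ := hmem w₀ hw₀
    have hα1 : (1 : ℤ) ≤ w₀.2.1 := by exact_mod_cast h₀.2.2.2.2.1
    have hαT : (w₀.2.1 : ℤ) ≤ T := by exact_mod_cast h₀.2.2.2.2.2.1
    obtain ⟨b, hb⟩ : ∃ b : ℤ, b = w₀.2.1 * w₀.2.2 * (6 * w₀.1 + w₀.2.2 - w₀.2.1) := ⟨_, rfl⟩
    have hbc : b = -(2 * c w₀.1 w₀.2.1 w₀.2.2) := by
      rw [hb, hc]
      ring
    have hq1 : (0 : ℤ) < 6 * w₀.1 + w₀.2.2 - w₀.2.1 := by linarith [h₀.1, h₀.2.2.2.2.2.2.1]
    have hq2 : 6 * w₀.1 + w₀.2.2 - w₀.2.1 ≤ 13 * (T : ℤ) := by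
      linarith [h₀.2.1, h₀.2.2.2.2.2.2.2]
    have hb0 : 0 < b := by
      rw [hb]
      have := h₀.2.2.2.2.2.2.1
      positivity
    have hbT : b ≤ 13 * (T : ℤ) ^ 3 := by
      have h1 : (w₀.2.1 : ℤ) * w₀.2.2 ≤ (T : ℤ) * T :=
        mul_le_mul hαT h₀.2.2.2.2.2.2.2 (by linarith [h₀.2.2.2.2.2.2.1]) (by linarith)
      have h2 : (w₀.2.1 : ℤ) * w₀.2.2 * (6 * w₀.1 + w₀.2.2 - w₀.2.1) ≤ ((T : ℤ) * T) * (13 * T) :=
        mul_le_mul h1 hq2 hq1.le (by positivity)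
      rw [hb]
      calc _ ≤ ((T : ℤ) * T) * (13 * T) := h2
        _ = 13 * (T : ℤ) ^ 3 := by ring
    have hbn : (b.toNat : ℤ) = b := Int.toNat_of_nonneg hb0.le
    apply big_primes T b.toNat hT2
    · have : (0 : ℤ) < (b.toNat : ℤ) := by rw [hbn]; exact hb0
      exact_mod_cast this
    · have : (b.toNat : ℤ) ≤ ((13 * T ^ 3 : ℕ) : ℤ) := by
        rw [hbn]
        push_cast
        exact hbT
      exact_mod_cast this
    · intro p hp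
      obtain ⟨w, hw, rfl⟩ := Finset.mem_image.1 hp
      have m := hmem w (Finset.mem_filter.1 hw).1
      obtain ⟨k1, k2⟩ := key w hw
      refine ⟨m.2.2.1, m.2.2.2.1, ?_⟩
      have h1 : ((w.2.1 : ℕ) : ℤ) ∣ ((b.toNat : ℕ) : ℤ) := by
        rw [hbn, hbc, ← k2, hc]
        refine Dvd.dvd.neg_right ?_ 
        rw [mul_assoc]
        exact Dvd.intro _ rfl
      exact_mod_cast h1
  have h1 := Finset.card_le_mul_card_image I 3 hfib
  have h2 : (I.image φ).card ≤ (Exc X).ncard := by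
    rw [Set.ncard_eq_toFinset_card _ hfin]
    exact Finset.card_le_card himg
  calc T ^ 2 * P.card = I.card := by rw [hcardI]; ring
    _ ≤ 3 * (I.image φ).card := h1
    _ ≤ 3 * (Exc X).ncard := Nat.mul_le_mul_left 3 h2

/-- Row LO4b. `(0, 1) ∈ Exc X` (order three: `(0, 1)`; other point `(2, 3)`: `3·16 + 24 ≠ 0`), so `ncard ≥ 1` for all `X ≥ 1`: this is enough for
`X < X₀` (small `c`). For `X ≥ X₀`: `T = Nat.sqrt (X / 49)`, `T ≥ √X/14`, `log T ≤ log X`, `lo_count`, `primes_count`: `6 ncard · log X ≥ T³ ≥ X^(3/2)/14³`. -/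
theorem exc_lower : ∃ c : ℝ, 0 < c ∧ ∀ X : ℕ, 1 ≤ X →
    c * (X : ℝ) ^ (3 / 2 : ℝ) / (1 + Real.log X) ≤ ((Exc X).ncard : ℝ) := by
  obtain ⟨T₀, hT₀⟩ := primes_count
  obtain ⟨M, hM⟩ : ∃ M, M = max T₀ 53249 := ⟨_, rfl⟩
  have hM1 : T₀ ≤ M := hM ▸ le_max_left _ _
  have hM2 : 53249 ≤ M := hM ▸ le_max_right _ _
  obtain ⟨X₀, hX₀⟩ : ∃ X₀, X₀ = 49 * M ^ 2 := ⟨_, rfl⟩
  have hX₀1 : 1 ≤ X₀ := by
    rw [hX₀]
    nlinarith
  refine ⟨1 / (16464 + (X₀ : ℝ) ^ 2), by positivity, fun X hX => ?_⟩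
  have hX1' : (1:ℝ) ≤ X := by exact_mod_cast hX
  have hXpos : (0:ℝ) < X := by linarith
  have hlX : 0 ≤ Real.log X := Real.log_nonneg hX1'
  have hfin : (Exc X).Finite := (fam_finite X).subset (fun z hz => hz.1)
  have hpos : (0:ℝ) < (X : ℝ) ^ (3 / 2 : ℝ) := by positivity
  by_cases hXX : X < X₀
  · have h1 : ((0, 1) : ℤ × ℤ) ∈ Exc X := by
      refine ⟨⟨by simp, ?_, by norm_num, 0, 1, by norm_num, by norm_num⟩, 2, 3, by norm_num,
        by norm_num⟩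
      show |(1 : ℤ)| ≤ (X : ℤ) ^ 3
      rw [abs_one]
      exact one_le_pow₀ (by exact_mod_cast hX)
    have h2 : 1 ≤ (Exc X).ncard := (Set.ncard_pos hfin).2 ⟨_, h1⟩
    have h3 : (1 : ℝ) ≤ ((Exc X).ncard : ℝ) := by exact_mod_cast h2
    have h4 : (X : ℝ) ≤ X₀ := by exact_mod_cast hXX.le
    have h5 : (X : ℝ) ^ (3 / 2 : ℝ) ≤ (X₀ : ℝ) ^ 2 := by
      calc (X : ℝ) ^ (3 / 2 : ℝ) ≤ (X : ℝ) ^ (2 : ℝ) :=
            Real.rpow_le_rpow_of_exponent_le hX1' (by norm_num)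
        _ = (X : ℝ) ^ 2 := Real.rpow_two _
        _ ≤ (X₀ : ℝ) ^ 2 := pow_le_pow_left₀ hXpos.le h4 2
    refine le_trans ?_ h3
    rw [div_le_one (by linarith), one_div, inv_mul_le_iff₀ (by positivity)]
    nlinarith [sq_nonneg (X₀ : ℝ)]
  · have hXX' : X₀ ≤ X := not_lt.1 hXX
    obtain ⟨T, hTd⟩ : ∃ T, T = Nat.sqrt (X / 49) := ⟨_, rfl⟩
    have hMT : M ≤ T := by
      rw [hTd, Nat.le_sqrt, Nat.le_div_iff_mul_le (by norm_num)]
      rw [hX₀] at hXX'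
      nlinarith
    have hT49 : 49 * T ^ 2 ≤ X := by
      have h1 : T ^ 2 ≤ X / 49 := hTd ▸ Nat.sqrt_le' _
      have h2 := Nat.mul_le_mul_left 49 h1
      exact h2.trans (Nat.mul_div_le X 49)
    have hTX : X < 49 * (T + 1) ^ 2 := by
      have h1 : X / 49 < (T + 1) ^ 2 := hTd ▸ Nat.lt_succ_sqrt' _
      rw [Nat.div_lt_iff_lt_mul (by norm_num)] at h1
      linarith
    have hcount := lo_count X T hT49 (by omega)
    have hpr := hT₀ T (by omega)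
    obtain ⟨K, hK⟩ : ∃ K, K = ((Finset.Icc 1 T).filter fun p => p.Prime ∧ T < 8 * p).card := ⟨_, rfl⟩
    rw [← hK] at hcount hpr
    have hT1 : (1:ℝ) ≤ T := by
      have : 1 ≤ T := by omega
      exact_mod_cast this
    have hcountr : (T : ℝ) ^ 2 * K ≤ 3 * ((Exc X).ncard : ℝ) := by exact_mod_cast hcount
    have hTleX : (T : ℝ) ≤ X := by
      have h1 : T ≤ X := by nlinarith
      exact_mod_cast h1
    have hlT : Real.log T ≤ Real.log X := Real.log_le_log (by linarith) hTleX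
    have hlT0 : 0 ≤ Real.log T := Real.log_nonneg hT1
    have hs : (X : ℝ) ^ (3 / 2 : ℝ) ≤ 2744 * (T : ℝ) ^ 3 := by
      have h1 : (X : ℝ) ≤ (14 * (T : ℝ)) ^ 2 := by
        have h2 : (X : ℝ) < 49 * ((T : ℝ) + 1) ^ 2 := by exact_mod_cast hTX
        nlinarith
      have h3 : (X : ℝ) ^ (3 / 2 : ℝ) ≤ ((14 * (T : ℝ)) ^ 2) ^ (3 / 2 : ℝ) :=
        Real.rpow_le_rpow hXpos.le h1 (by norm_num)
      have h4 : ((14 * (T : ℝ)) ^ 2) ^ (3 / 2 : ℝ) = 2744 * (T : ℝ) ^ 3 := by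
        rw [← Real.rpow_natCast, ← Real.rpow_mul (by positivity)]
        norm_num
        ring
      exact h3.trans h4.le
    have hKr : (0:ℝ) ≤ K := Nat.cast_nonneg _
    have hmain : (T : ℝ) ^ 3 ≤ 6 * ((Exc X).ncard : ℝ) * (1 + Real.log X) := by
      have h1 : (T : ℝ) ^ 3 / 2 ≤ (T : ℝ) ^ 2 * (K * Real.log T) := by
        have := mul_le_mul_of_nonneg_left hpr (sq_nonneg (T : ℝ))
        calc (T : ℝ) ^ 3 / 2 = (T : ℝ) ^ 2 * (T / 2) := by ring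
          _ ≤ _ := this
      have h2 : (T : ℝ) ^ 2 * (K * Real.log T) ≤ 3 * ((Exc X).ncard : ℝ) * (1 + Real.log X) := by
        calc (T : ℝ) ^ 2 * (K * Real.log T) = ((T : ℝ) ^ 2 * K) * Real.log T := by ring
          _ ≤ (3 * ((Exc X).ncard : ℝ)) * (1 + Real.log X) :=
            mul_le_mul hcountr (by linarith) hlT0 (by positivity)
      linarith
    have hn0 : (0:ℝ) ≤ ((Exc X).ncard : ℝ) := Nat.cast_nonneg _
    rw [div_le_iff₀ (by linarith), one_div, inv_mul_le_iff₀ (by positivity)]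
    calc (X : ℝ) ^ (3 / 2 : ℝ) ≤ 2744 * (T : ℝ) ^ 3 := hs
      _ ≤ 2744 * (6 * ((Exc X).ncard : ℝ) * (1 + Real.log X)) := by linarith
      _ = 16464 * (((Exc X).ncard : ℝ) * (1 + Real.log X)) := by ring
      _ ≤ (16464 + (X₀ : ℝ) ^ 2) * (((Exc X).ncard : ℝ) * (1 + Real.log X)) := by
        apply mul_le_mul_of_nonneg_right _ (by positivity)
        linarith [sq_nonneg (X₀ : ℝ)]

end V44
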