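import Pool.Agent.LibV44.Defs
import Pool.Agent.LibT44.H1

namespace V44
open T44

/-- Row PR. `Prs N ⊆ [1,N] × [1,N]`, the double sum is `(∑ 1/n)² ≤ (1 + log N)²` (`T44.h1_harm`). -/
theorem prs_inv (N : ℕ) : ∑ z ∈ Prs N, 1 / ((z.1 : ℝ) * z.2) ≤ (1 + Real.log N) ^ 2 := by
  have h0 : (0 : ℝ) ≤ ∑ a ∈ Finset.Icc 1 N, (1 : ℝ) / a :=
    Finset.sum_nonneg fun a _ => by positivity
  calc ∑ z ∈ Prs N, 1 / ((z.1 : ℝ) * z.2)
      ≤ ∑ z ∈ (Finset.Icc 1 N) ×ˢ (Finset.Icc 1 N), 1 / ((z.1 : ℝ) * z.2) :=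
        Finset.sum_le_sum_of_subset_of_nonneg (Finset.filter_subset _ _)
          fun z _ _ => by positivity
    _ = (∑ a ∈ Finset.Icc 1 N, (1 : ℝ) / a) ^ 2 := by
        rw [Finset.sum_product, pow_two, Finset.sum_mul_sum]
        refine Finset.sum_congr rfl fun a _ => Finset.sum_congr rfl fun b _ => ?_
        rw [one_div_mul_one_div]
    _ ≤ (1 + Real.log N) ^ 2 := pow_le_pow_left₀ h0 (h1_harm N) 2

end V44
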