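import Pool.Agent.LibV44.BS
import Pool.Agent.LibV44.PR
import Pool.Agent.LibT44.H3a

namespace V44
open T44

theorem ms_fibre (H : ℕ) (hH : 1 ≤ H) (α β : ℕ) (U : ℝ) (hU0 : 0 < U)
    (hU : 144 * (H : ℝ) ^ 3 ≤ U ^ 2) (S : Finset (ℤ × ℤ × ℤ × ℤ))
    (hS : ∀ w ∈ S, ∃ (p q : ℝ) (z : ℤ × ℤ × ℤ), Cl α β p q ∧ Sol H α β z ∧ w = Rep α β z ∧
      U ≤ sS p q z ∧ sS p q z < 2 * U) :
    (S.card : ℝ) ≤ 27 * ((H : ℝ) ^ 3 / ((α : ℝ) * β)) := by
  rcases S.eq_empty_or_nonempty with h0 | ⟨w0, hw0⟩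
  · subst h0
    simp only [Finset.card_empty, Nat.cast_zero]
    positivity
  choose! p q z h1 h2 h3 h4 h5 using hS
  have hinj : Set.InjOn z (S : Set (ℤ × ℤ × ℤ × ℤ)) := by
    intro w hw w' hw' e
    have hw := Finset.mem_coe.1 hw
    have hw' := Finset.mem_coe.1 hw'
    rw [h3 w hw, h3 w' hw', e]
  have hcard : (S.image z).card = S.card := Finset.card_image_of_injOn hinj
  have hT : ∀ x ∈ S.image z, Sol H α β x ∧ U ≤ sS (p w0) (q w0) x ∧ sS (p w0) (q w0) x < 2 * U := by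
    intro x hx
    obtain ⟨w, hw, rfl⟩ := Finset.mem_image.1 hx
    obtain ⟨ep, eq⟩ := h3a_unique (h1 w hw) (h1 w0 hw0)
    rw [← ep, ← eq]
    exact ⟨h2 w hw, h4 w hw, h5 w hw⟩
  rw [← hcard]
  exact block_sharp (h1 w0 hw0) hH U hU0 hU _ hT

theorem ms_block (H : ℕ) (hH : 1 ≤ H) (s : ℝ) (hs : 0 < s) (h1 : 144 * (H : ℝ) ^ 3 ≤ s ^ 2)
    (h2 : s < (10 * (H : ℝ)) ^ 300000) :
    ∃ i : ℕ, i < ⌈2000000 * (1 + Real.log H)⌉₊ ∧ 12 * √((H : ℝ) ^ 3) * 2 ^ i ≤ s ∧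
      s < 2 * (12 * √((H : ℝ) ^ 3) * 2 ^ i) := by
  have hH' : (1:ℝ) ≤ H := by exact_mod_cast hH
  obtain ⟨r, hr⟩ : ∃ r, r = √((H : ℝ) ^ 3) := ⟨_, rfl⟩
  have hr0 : 0 ≤ r := hr ▸ Real.sqrt_nonneg _
  have hr2 : r ^ 2 = (H : ℝ) ^ 3 := by rw [hr]; exact Real.sq_sqrt (by positivity)
  have hr1 : 1 ≤ r := by
    rw [hr]; exact Real.one_le_sqrt.2 (one_le_pow₀ hH')
  rw [← hr]
  have h3 : 12 * r ≤ s := by
    have : (12 * r) ^ 2 ≤ s ^ 2 := by nlinarith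
    exact (pow_le_pow_iff_left₀ (by positivity) hs.le (by norm_num)).1 this
  have h4 : 1 ≤ s / (12 * r) := by rw [le_div_iff₀ (by positivity)]; linarith
  obtain ⟨i, hi1, hi2⟩ := exists_nat_pow_near h4 (by norm_num : (1:ℝ) < 2)
  rw [le_div_iff₀ (by positivity)] at hi1
  rw [div_lt_iff₀ (by positivity)] at hi2
  refine ⟨i, ?_, by linarith, ?_⟩
  · rw [Nat.lt_ceil]
    have hL : 0 ≤ Real.log H := Real.log_nonneg hH'
    have h5 : (2:ℝ) ^ i ≤ s := by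
      have h6 : (2:ℝ) ^ i ≤ 2 ^ i * (12 * r) := by
        have : (0:ℝ) < 2 ^ i := by positivity
        nlinarith
      linarith
    have h6 := Real.log_le_log (by positivity) h5
    have h7 := Real.log_le_log hs h2.le
    rw [Real.log_pow, Real.log_mul (by norm_num) (by positivity)] at h7
    rw [Real.log_pow] at h6
    push_cast at h7
    have h8 := Real.log_two_gt_d9
    have h9 : Real.log 10 ≤ 4 * Real.log 2 := by
      have e : 4 * Real.log 2 = Real.log (2 ^ 4) := by rw [Real.log_pow]; norm_num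
      rw [e]
      exact Real.log_le_log (by norm_num) (by norm_num)
    by_contra hc
    have hc := not_lt.1 hc
    have h10 : 2000000 * (1 + Real.log H) * Real.log 2 ≤ i * Real.log 2 :=
      mul_le_mul_of_nonneg_right hc (by linarith)
    have h11 : 0.6931471803 * Real.log H ≤ Real.log 2 * Real.log H :=
      mul_le_mul_of_nonneg_right h8.le hL
    nlinarith
  · rw [pow_succ] at hi2
    linarith

/-- Row MS. As `T44.mid_total` (file LibT44/H3a.lean, copy its proof) with quadruples, `block_sharp` and `prs_inv`: dyadic blocks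
`U = 12√(H³) 2^i`, `i < N = ⌈10^6 (1 + log H)⌉` (`T44.h3a_block` has `10^7 H^20`; same proof for `(10H)^300000`: `2^i ≤ (10H)^300000`,
`log 2 > 0.69`, `log 10 < 2.31`, e.g. `log 10 ≤ 2.4`), for given class and block `card ≤ 27 H³/(αβ)` (`w = Rep α β z` is determined by `z`), and
`αβ ≤ H³` (`T44.h3a_prs`). `card S ≤ N · 27H³ (1 + 3 log H)²`. -/
theorem mid_sharp : ∃ C : ℝ, 0 < C ∧ ∀ H : ℕ, 2 ≤ H → ∀ S : Finset (ℤ × ℤ × ℤ × ℤ),
    (∀ w ∈ S, ∃ (α β : ℕ) (p q : ℝ) (z : ℤ × ℤ × ℤ), Cl α β p q ∧ Sol H α β z ∧ w = Rep α β z ∧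
      0 < sS p q z ∧ sS p q z < (10 * (H : ℝ)) ^ 300000) →
    (S.card : ℝ) ≤ C * ((H : ℝ) ^ 3 * (1 + Real.log H) ^ 3) := by
  refine ⟨2000001 * 27 * 9, by norm_num, ?_⟩
  intro H hH2 S hS
  have hH : 1 ≤ H := by omega
  have hH' : (1:ℝ) ≤ H := by exact_mod_cast hH
  have hL : 0 ≤ Real.log H := Real.log_nonneg hH'
  obtain ⟨N, hN⟩ : ∃ N, N = ⌈2000000 * (1 + Real.log H)⌉₊ := ⟨_, rfl⟩
  have hkey : ∀ w ∈ S, ∃ (α β : ℕ) (i : ℕ), (α, β) ∈ Prs (H ^ 3) ∧ i < N ∧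
      ∃ (p q : ℝ) (z : ℤ × ℤ × ℤ), Cl α β p q ∧ Sol H α β z ∧ w = Rep α β z ∧
      12 * √((H : ℝ) ^ 3) * 2 ^ i ≤ sS p q z ∧
      sS p q z < 2 * (12 * √((H : ℝ) ^ 3) * 2 ^ i) := by
    intro w hw
    obtain ⟨α, β, p, q, z, hc, hs, h1, h3, h4⟩ := hS w hw
    obtain ⟨i, hi, h5, h6⟩ := ms_block H hH _ h3 (size hc hH z hs).1 h4
    exact ⟨α, β, i, h3a_prs hc hs, hN ▸ hi, p, q, z, hc, hs, h1, h5, h6⟩
  choose! α β i hp hi hz using hkey
  obtain ⟨f, hf⟩ : ∃ f : ℤ × ℤ × ℤ × ℤ → (ℕ × ℕ) × ℕ, f = fun w => ((α w, β w), i w) := ⟨_, rfl⟩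
  obtain ⟨g, hg⟩ : ∃ g : ℕ × ℕ → ℝ, g = fun z => 27 * ((H : ℝ) ^ 3 / ((z.1 : ℝ) * z.2)) := ⟨_, rfl⟩
  have hcard : S.card = ∑ k ∈ Prs (H ^ 3) ×ˢ Finset.range N, (S.filter (fun w => f w = k)).card := by
    apply Finset.card_eq_sum_card_fiberwise
    intro w hw
    have hw := Finset.mem_coe.1 hw
    simp only [hf, Finset.coe_product, Set.mem_prod, Finset.mem_coe, Finset.mem_range]
    exact ⟨hp w hw, hi w hw⟩
  have hfib : ∀ k ∈ Prs (H ^ 3) ×ˢ Finset.range N,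
      ((S.filter (fun w => f w = k)).card : ℝ) ≤ g k.1 := by
    rintro ⟨⟨a, b⟩, j⟩ hk
    rw [hg]
    apply ms_fibre H hH a b (12 * √((H : ℝ) ^ 3) * 2 ^ j)
    · have : 0 < √((H : ℝ) ^ 3) := Real.sqrt_pos.2 (by positivity)
      positivity
    · have h1 : √((H : ℝ) ^ 3) ^ 2 = (H : ℝ) ^ 3 := Real.sq_sqrt (by positivity)
      have h2 : (1:ℝ) ≤ (2 ^ j) ^ 2 := one_le_pow₀ (one_le_pow₀ (by norm_num))
      have h3 : (12 * √((H : ℝ) ^ 3) * 2 ^ j) ^ 2 = 144 * (H : ℝ) ^ 3 * (2 ^ j) ^ 2 := by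
        rw [mul_pow, mul_pow, h1]; norm_num
      rw [h3]
      have h4 : 0 ≤ 144 * (H : ℝ) ^ 3 := by positivity
      nlinarith
    · intro w hw
      obtain ⟨hw1, hw2⟩ := Finset.mem_filter.1 hw
      simp only [hf, Prod.mk.injEq] at hw2
      obtain ⟨⟨ea, eb⟩, ej⟩ := hw2
      have := hz w hw1
      rw [ea, eb, ej] at this
      exact this
  have h1 : (S.card : ℝ) ≤ N * ∑ z ∈ Prs (H ^ 3), g z := by
    rw [hcard]
    push_cast
    calc ∑ k ∈ Prs (H ^ 3) ×ˢ Finset.range N, ((S.filter (fun w => f w = k)).card : ℝ)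
        ≤ ∑ k ∈ Prs (H ^ 3) ×ˢ Finset.range N, g k.1 := Finset.sum_le_sum hfib
      _ = N * ∑ z ∈ Prs (H ^ 3), g z := by
        rw [Finset.sum_product, Finset.mul_sum]
        apply Finset.sum_congr rfl
        intro z _
        simp
  have h2 := prs_inv (H ^ 3)
  have h3 : ∑ z ∈ Prs (H ^ 3), g z ≤ 27 * (H : ℝ) ^ 3 * (1 + 3 * Real.log H) ^ 2 := by
    have e1 : ∑ z ∈ Prs (H ^ 3), g z = 27 * (H : ℝ) ^ 3 * ∑ z ∈ Prs (H ^ 3), 1 / ((z.1 : ℝ) * z.2) := by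
      rw [hg, Finset.mul_sum]
      apply Finset.sum_congr rfl
      intro z _
      ring
    have e2 : Real.log ((H ^ 3 : ℕ) : ℝ) = 3 * Real.log H := by
      push_cast
      rw [Real.log_pow]
      norm_num
    rw [e2] at h2
    rw [e1]
    exact mul_le_mul_of_nonneg_left h2 (by positivity)
  have h4 : (N : ℝ) ≤ 2000001 * (1 + Real.log H) := by
    have := (Nat.ceil_lt_add_one (by positivity : 0 ≤ 2000000 * (1 + Real.log H))).le
    rw [← hN] at this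
    linarith
  have h5 : (1 + 3 * Real.log H) ^ 2 ≤ 9 * (1 + Real.log H) ^ 2 := by nlinarith
  calc (S.card : ℝ) ≤ N * ∑ z ∈ Prs (H ^ 3), g z := h1
    _ ≤ (2000001 * (1 + Real.log H)) * (27 * (H : ℝ) ^ 3 * (1 + 3 * Real.log H) ^ 2) := by
        apply mul_le_mul h4 h3 _ (by positivity)
        apply Finset.sum_nonneg
        intro z _
        rw [hg]
        positivity
    _ ≤ (2000001 * (1 + Real.log H)) * (27 * (H : ℝ) ^ 3 * (9 * (1 + Real.log H) ^ 2)) := by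
        apply mul_le_mul_of_nonneg_left _ (by positivity)
        exact mul_le_mul_of_nonneg_left h5 (by positivity)
    _ = 2000001 * 27 * 9 * ((H : ℝ) ^ 3 * (1 + Real.log H) ^ 3) := by ring

end V44
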