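import Pool.Agent.LibV44.C0
import Pool.Agent.LibT44.H1

namespace V44

theorem p0_half (e₂ c₁ c₀ : ℤ) (he : e₂ ≠ 0) (Q : ℝ) (hQ : 0 ≤ Q) (S : Finset ℤ)
    (hS : ∀ s ∈ S, |((e₂ * s ^ 2 + c₁ * s + c₀ : ℤ) : ℝ)| ≤ Q)
    (hsg : ∀ s ∈ S, ∀ s' ∈ S, 0 ≤ (2 * e₂ * s + c₁) * (2 * e₂ * s' + c₁)) :
    (S.card : ℝ) ≤ √(2 * Q) + 1 := by
  apply count_diff S _ (Real.sqrt_nonneg _)
  intro x hx y hy
  apply Real.abs_le_sqrt
  have hx' := abs_le.1 (hS x hx)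
  have hy' := abs_le.1 (hS y hy)
  have hXY : (0 : ℝ) ≤ (2 * e₂ * x + c₁) * (2 * e₂ * y + c₁) := by exact_mod_cast hsg x hx y hy
  have he1 : (1 : ℝ) ≤ |(e₂ : ℝ)| := by exact_mod_cast Int.one_le_abs he
  have e1 : (2 * e₂ * x + c₁ : ℝ) ^ 2 - (2 * e₂ * y + c₁ : ℝ) ^ 2 =
      4 * e₂ * (((e₂ * x ^ 2 + c₁ * x + c₀ : ℤ) : ℝ) - ((e₂ * y ^ 2 + c₁ * y + c₀ : ℤ) : ℝ)) := by
    push_cast; ring
  have h1 : |(2 * e₂ * x + c₁ : ℝ) ^ 2 - (2 * e₂ * y + c₁ : ℝ) ^ 2| ≤ 8 * |(e₂ : ℝ)| * Q := by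
    rw [e1, abs_mul, abs_mul, abs_of_pos (by norm_num : (0 : ℝ) < 4)]
    have : |(((e₂ * x ^ 2 + c₁ * x + c₀ : ℤ) : ℝ) - ((e₂ * y ^ 2 + c₁ * y + c₀ : ℤ) : ℝ))| ≤ 2 * Q := by
      rw [abs_le]; constructor <;> linarith [hx'.1, hx'.2, hy'.1, hy'.2]
    nlinarith [abs_nonneg (e₂ : ℝ)]
  have h2 : ((2 * e₂ * x + c₁ : ℝ) - (2 * e₂ * y + c₁)) ^ 2 ≤
      |(2 * e₂ * x + c₁ : ℝ) ^ 2 - (2 * e₂ * y + c₁ : ℝ) ^ 2| := by
    rw [show (2 * e₂ * x + c₁ : ℝ) ^ 2 - (2 * e₂ * y + c₁ : ℝ) ^ 2 =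
      ((2 * e₂ * x + c₁ : ℝ) - (2 * e₂ * y + c₁)) * ((2 * e₂ * x + c₁ : ℝ) + (2 * e₂ * y + c₁)) by ring,
      abs_mul, ← sq_abs ((2 * e₂ * x + c₁ : ℝ) - (2 * e₂ * y + c₁))]
    have h3 : |(2 * e₂ * x + c₁ : ℝ) - (2 * e₂ * y + c₁)| ≤ |(2 * e₂ * x + c₁ : ℝ) + (2 * e₂ * y + c₁)| := by
      apply sq_le_sq.1
      linear_combination 4 * hXY
    rw [sq]
    exact mul_le_mul_of_nonneg_left h3 (abs_nonneg _)
  have h4 : ((2 * e₂ * x + c₁ : ℝ) - (2 * e₂ * y + c₁)) ^ 2 = 4 * |(e₂ : ℝ)| ^ 2 * ((x : ℝ) - y) ^ 2 := by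
    rw [sq_abs]; ring
  have h5 : |(e₂ : ℝ)| * (|(e₂ : ℝ)| * ((x : ℝ) - y) ^ 2) ≤ |(e₂ : ℝ)| * (2 * Q) := by
    linarith
  have h6 := le_of_mul_le_mul_left h5 (by linarith)
  have h7 : 1 * ((x : ℝ) - y) ^ 2 ≤ |(e₂ : ℝ)| * ((x : ℝ) - y) ^ 2 :=
    mul_le_mul_of_nonneg_right he1 (sq_nonneg _)
  linarith

/-- Row P0a. `y = 2e₂s + c₁`, `4e₂ g(s) = y² - Δ`, `Δ = c₁² - 4e₂c₀`. For `s, s' ∈ S` with `y, y' ≥ 0` (or both `< 0`):
`(y - y')² ≤ |y² - y'²| ≤ 8|e₂|Q`, `4e₂²(s - s')² ≤ 8|e₂|Q`, `(s - s')² ≤ 2Q`; `count_diff` for the two halves of `S`. -/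
theorem quad_count (e₂ c₁ c₀ : ℤ) (he : e₂ ≠ 0) (Q : ℝ) (hQ : 0 ≤ Q) (S : Finset ℤ)
    (hS : ∀ s ∈ S, |((e₂ * s ^ 2 + c₁ * s + c₀ : ℤ) : ℝ)| ≤ Q) : (S.card : ℝ) ≤ 2 * √(2 * Q) + 2 := by
  classical
  have h := Finset.card_filter_add_card_filter_not (s := S) (fun s => 0 ≤ 2 * e₂ * s + c₁)
  have h1 := p0_half e₂ c₁ c₀ he Q hQ (S.filter (fun s => 0 ≤ 2 * e₂ * s + c₁))
    (fun s hs => hS s (Finset.mem_filter.1 hs).1)
    (fun s hs s' hs' => mul_nonneg (Finset.mem_filter.1 hs).2 (Finset.mem_filter.1 hs').2)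
  have h2 := p0_half e₂ c₁ c₀ he Q hQ (S.filter (fun s => ¬ 0 ≤ 2 * e₂ * s + c₁))
    (fun s hs => hS s (Finset.mem_filter.1 hs).1)
    (fun s hs s' hs' => mul_nonneg_of_nonpos_of_nonpos (not_le.1 (Finset.mem_filter.1 hs).2).le
      (not_le.1 (Finset.mem_filter.1 hs').2).le)
  have h3 : ((S.filter (fun s => 0 ≤ 2 * e₂ * s + c₁)).card : ℝ) +
      ((S.filter (fun s => ¬ 0 ≤ 2 * e₂ * s + c₁)).card : ℝ) = (S.card : ℝ) := by exact_mod_cast h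
  linarith

/-- sum over the second coordinate, both signs -/
theorem p0_fib (K : ℕ) (S : Finset (ℤ × ℤ)) (B : ℕ → ℝ)
    (h0 : ∀ w ∈ S, w.2 ≠ 0 ∧ |w.2| ≤ (K : ℤ))
    (hB : ∀ t : ℤ, t ≠ 0 → |t| ≤ (K : ℤ) → (((S.filter fun w => w.2 = t).image Prod.fst).card : ℝ) ≤ B t.natAbs) :
    (S.card : ℝ) ≤ ∑ n ∈ Finset.Icc 1 K, 2 * B n := by
  classical
  have hm : ∀ w ∈ S, w.2.natAbs ∈ Finset.Icc 1 K := by
    intro w hw
    obtain ⟨h1, h2⟩ := h0 w hw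
    rw [Finset.mem_Icc]
    constructor
    · exact Nat.one_le_iff_ne_zero.2 (fun h => h1 (Int.natAbs_eq_zero.1 h))
    · rw [← Int.natCast_natAbs] at h2
      exact_mod_cast h2
  have hc : ∀ t : ℤ, ((S.filter fun w => w.2 = t).image Prod.fst).card = (S.filter fun w => w.2 = t).card := by
    intro t
    apply Finset.card_image_of_injOn
    intro x hx y hy hxy
    have hx2 := (Finset.mem_filter.1 (Finset.mem_coe.1 hx)).2
    have hy2 := (Finset.mem_filter.1 (Finset.mem_coe.1 hy)).2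
    exact Prod.ext hxy (hx2.trans hy2.symm)
  rw [Finset.card_eq_sum_card_fiberwise (f := fun w : ℤ × ℤ => w.2.natAbs) (t := Finset.Icc 1 K) hm]
  push_cast
  apply Finset.sum_le_sum
  intro n hn
  obtain ⟨hn1, hn2⟩ := Finset.mem_Icc.1 hn
  have hsub : (S.filter fun w => w.2.natAbs = n) ⊆
      (S.filter fun w => w.2 = (n : ℤ)) ∪ (S.filter fun w => w.2 = -(n : ℤ)) := by
    intro w hw
    obtain ⟨hw1, hw2⟩ := Finset.mem_filter.1 hw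
    rw [Finset.mem_union, Finset.mem_filter, Finset.mem_filter]
    rcases Int.natAbs_eq_iff.1 hw2 with h | h
    · left; exact ⟨hw1, h⟩
    · right; exact ⟨hw1, h⟩
  have hcard := (Finset.card_le_card hsub).trans (Finset.card_union_le _ _)
  have hn0 : (n : ℤ) ≠ 0 := by exact_mod_cast (by omega : n ≠ 0)
  have b1 := hB (n : ℤ) hn0 (by rw [abs_of_nonneg (by positivity)]; exact_mod_cast hn2)
  have b2 := hB (-(n : ℤ)) (neg_ne_zero.2 hn0)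
    (by rw [abs_neg, abs_of_nonneg (by positivity)]; exact_mod_cast hn2)
  rw [hc] at b1 b2
  rw [Int.natAbs_neg] at b2
  rw [Int.natAbs_natCast] at b1 b2
  have hcard' : ((S.filter fun w => w.2.natAbs = n).card : ℝ) ≤
      ((S.filter fun w => w.2 = (n : ℤ)).card : ℝ) + ((S.filter fun w => w.2 = -(n : ℤ)).card : ℝ) := by
    exact_mod_cast hcard
  linarith

/-- nonzero integers of absolute value at most `R` -/
theorem p0_nz (S : Finset ℤ) (R : ℝ) (hR : 0 ≤ R) (h : ∀ s ∈ S, s ≠ 0 ∧ |(s : ℝ)| ≤ R) :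
    (S.card : ℝ) ≤ 2 * R := by
  classical
  have hsub : S ⊆ (Finset.Icc (-(⌊R⌋₊ : ℤ)) (⌊R⌋₊ : ℤ)).erase 0 := by
    intro s hs
    obtain ⟨h1, h2⟩ := h s hs
    rw [Finset.mem_erase, Finset.mem_Icc]
    refine ⟨h1, ?_⟩
    have h3 : s.natAbs ≤ ⌊R⌋₊ := by
      apply Nat.le_floor
      rw [Nat.cast_natAbs]
      push_cast
      exact h2
    omega
  have hc := Finset.card_le_card hsub
  rw [Finset.card_erase_of_mem (by simp), Int.card_Icc] at hc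
  have hc' : S.card ≤ 2 * ⌊R⌋₊ := by omega
  calc (S.card : ℝ) ≤ ((2 * ⌊R⌋₊ : ℕ) : ℝ) := by exact_mod_cast hc'
    _ = 2 * (⌊R⌋₊ : ℝ) := by push_cast; ring
    _ ≤ 2 * R := by linarith [Nat.floor_le hR]

/-- Row P0b. `f(s,t) = t (e₂s² + e₁st + e₃t²)`, `1 ≤ |f| ≤ K`; `w = (s, t)`. `t ≠ 0`, `|t| ≤ K`. If `e₂ ≠ 0`: for given `t`, `quad_count` with
`Q = K/|t| ≥ 1`: at most `2√(2Q) + 2 ≤ 5√(K/|t|)` values of `s`; sum over `t = ±1, ..., ±K`: `10√K ∑ 1/√t ≤ 20K`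
(`T44.h1_halfsum`). If `e₂ = 0`, `e₁ ≠ 0`: for given `t` the map `s ↦ e₁s + e₃t` is injective, values `≠ 0` and `≤ K/t²`: at most
`2K/t²` values of `s`; sum `≤ 4K ∑ 1/t² ≤ 16K` (`T44.h1_sq'` with `y = 1/2`). -/
theorem bin_count (e₂ e₁ e₃ : ℤ) (he : ¬ (e₂ = 0 ∧ e₁ = 0)) (K : ℕ) (S : Finset (ℤ × ℤ))
    (hS : ∀ w ∈ S, w.2 * (e₂ * w.1 ^ 2 + e₁ * w.1 * w.2 + e₃ * w.2 ^ 2) ≠ 0 ∧
      |w.2 * (e₂ * w.1 ^ 2 + e₁ * w.1 * w.2 + e₃ * w.2 ^ 2)| ≤ (K : ℤ)) : S.card ≤ 20 * K := by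
  classical
  have h0 : ∀ w ∈ S, w.2 ≠ 0 ∧ |w.2| ≤ (K : ℤ) := by
    intro w hw
    obtain ⟨h1, h2⟩ := hS w hw
    obtain ⟨h3, h4⟩ := mul_ne_zero_iff.1 h1
    refine ⟨h3, ?_⟩
    rw [abs_mul] at h2
    have h5 := Int.one_le_abs h4
    nlinarith [abs_nonneg w.2]
  have hK0 : (0 : ℝ) ≤ K := by positivity
  by_cases h2 : e₂ = 0
  · -- linear case
    have h1 : e₁ ≠ 0 := fun h => he ⟨h2, h⟩
    have key := p0_fib K S (fun n => 2 * ((K : ℝ) * (1 / (n : ℝ) ^ 2))) h0 (by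
      intro t ht htK
      have ht1 : (1 : ℝ) ≤ |(t : ℝ)| := by exact_mod_cast Int.one_le_abs ht
      have hinj : (((S.filter fun w => w.2 = t).image Prod.fst).image (fun s => e₁ * s + e₃ * t)).card =
          ((S.filter fun w => w.2 = t).image Prod.fst).card := by
        apply Finset.card_image_of_injective
        intro x y hxy
        have : e₁ * x = e₁ * y := by linarith [hxy]
        exact mul_left_cancel₀ h1 this
      rw [← hinj]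
      have e : (t.natAbs : ℝ) = |(t : ℝ)| := by rw [Nat.cast_natAbs]; push_cast; rfl
      show _ ≤ 2 * ((K : ℝ) * (1 / (t.natAbs : ℝ) ^ 2))
      rw [e]
      apply p0_nz _ _ (by positivity)
      intro v hv
      obtain ⟨s, hs, rfl⟩ := Finset.mem_image.1 hv
      obtain ⟨w, hw, rfl⟩ := Finset.mem_image.1 hs
      obtain ⟨hw1, hw2⟩ := Finset.mem_filter.1 hw
      obtain ⟨g1, g2⟩ := hS w hw1
      subst hw2
      have e4 : w.2 * (e₂ * w.1 ^ 2 + e₁ * w.1 * w.2 + e₃ * w.2 ^ 2) = w.2 ^ 2 * (e₁ * w.1 + e₃ * w.2) := by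
        rw [h2]; ring
      rw [e4] at g1 g2
      refine ⟨(mul_ne_zero_iff.1 g1).2, ?_⟩
      have g3 : |((w.2 ^ 2 * (e₁ * w.1 + e₃ * w.2) : ℤ) : ℝ)| ≤ (K : ℝ) := by exact_mod_cast g2
      rw [Int.cast_mul, abs_mul, Int.cast_pow, abs_pow] at g3
      have hp : 0 < |(w.2 : ℝ)| ^ 2 := by positivity
      rw [mul_one_div, le_div_iff₀ hp, mul_comm]
      exact g3)
    have hsum : ∑ n ∈ Finset.Icc 1 K, (1 : ℝ) / (n : ℝ) ^ 2 ≤ 2 / (1 / 2) := by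
      refine le_trans (le_of_eq ?_) (T44.h1_sq' K (1 / 2) (by norm_num))
      congr 1
      symm
      apply Finset.filter_true_of_mem
      intro b hb
      have : (1 : ℝ) ≤ b := by exact_mod_cast (Finset.mem_Icc.1 hb).1
      linarith
    have e5 : ∑ n ∈ Finset.Icc 1 K, 2 * (2 * ((K : ℝ) * (1 / (n : ℝ) ^ 2))) =
        4 * K * ∑ n ∈ Finset.Icc 1 K, (1 : ℝ) / (n : ℝ) ^ 2 := by
      rw [Finset.mul_sum]
      exact Finset.sum_congr rfl (fun n _ => by ring)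
    rw [e5] at key
    have h7 : (S.card : ℝ) ≤ ((20 * K : ℕ) : ℝ) := by
      push_cast
      nlinarith
    exact_mod_cast h7
  · have key := p0_fib K S (fun n => 5 * (√(K : ℝ) * (1 / √(n : ℝ)))) h0 (by
      intro t ht htK
      have ht1 : (1 : ℝ) ≤ |(t : ℝ)| := by exact_mod_cast Int.one_le_abs ht
      have htK' : |(t : ℝ)| ≤ (K : ℝ) := by exact_mod_cast htK
      have e : (t.natAbs : ℝ) = |(t : ℝ)| := by rw [Nat.cast_natAbs]; push_cast; rfl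
      show _ ≤ 5 * (√(K : ℝ) * (1 / √(t.natAbs : ℝ)))
      rw [e]
      have hQ1 : 1 ≤ (K : ℝ) / |(t : ℝ)| := by
        rw [le_div_iff₀ (by linarith)]; linarith
      have q := quad_count e₂ (e₁ * t) (e₃ * t ^ 2) h2 ((K : ℝ) / |(t : ℝ)|) (by linarith)
        ((S.filter fun w => w.2 = t).image Prod.fst) (by
          intro s hs
          obtain ⟨w, hw, rfl⟩ := Finset.mem_image.1 hs
          obtain ⟨hw1, hw2⟩ := Finset.mem_filter.1 hw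
          obtain ⟨g1, g2⟩ := hS w hw1
          subst hw2
          have g3 : |((w.2 * (e₂ * w.1 ^ 2 + e₁ * w.1 * w.2 + e₃ * w.2 ^ 2) : ℤ) : ℝ)| ≤ (K : ℝ) := by
            exact_mod_cast g2
          rw [Int.cast_mul, abs_mul] at g3
          rw [le_div_iff₀ (by linarith), mul_comm]
          have e6 : e₂ * w.1 ^ 2 + e₁ * w.2 * w.1 + e₃ * w.2 ^ 2 = e₂ * w.1 ^ 2 + e₁ * w.1 * w.2 + e₃ * w.2 ^ 2 := by
            ring
          rw [e6]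
          exact g3)
      refine q.trans ?_
      rw [mul_one_div, ← Real.sqrt_div hK0]
      rw [Real.sqrt_mul (by norm_num)]
      have hs1 : 1 ≤ √((K : ℝ) / |(t : ℝ)|) := by
        rw [Real.one_le_sqrt]; exact hQ1
      have hs2 : √(2 : ℝ) ≤ 3 / 2 := by
        rw [Real.sqrt_le_left (by norm_num)]; norm_num
      nlinarith)
    have hsum := T44.h1_halfsum K
    have e5 : ∑ n ∈ Finset.Icc 1 K, 2 * (5 * (√(K : ℝ) * (1 / √(n : ℝ)))) =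
        10 * √(K : ℝ) * ∑ n ∈ Finset.Icc 1 K, (1 : ℝ) / √(n : ℝ) := by
      rw [Finset.mul_sum]
      exact Finset.sum_congr rfl (fun n _ => by ring)
    rw [e5] at key
    have hk : √(K : ℝ) * √(K : ℝ) = K := Real.mul_self_sqrt hK0
    have h7 : (S.card : ℝ) ≤ ((20 * K : ℕ) : ℝ) := by
      push_cast
      have h8 : 10 * √(K : ℝ) * ∑ n ∈ Finset.Icc 1 K, (1 : ℝ) / √(n : ℝ) ≤ 10 * √(K : ℝ) * (2 * √(K : ℝ)) :=
        mul_le_mul_of_nonneg_left hsum (by positivity)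
      nlinarith
    exact_mod_cast h7

end V44
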