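import Pool.Agent.LibV44.Defs
import Pool.Agent.LibT44.A1
import Pool.Agent.LibT44.H1

namespace V44
open T44

/-- the quadruples `(α, β, u, m)` -/
def ta_Q (N : ℕ) : Finset ((ℕ × ℕ) × (ℕ × ℕ)) :=
  (Finset.Icc 1 N ×ˢ Finset.Icc 1 N) ×ˢ (Finset.Icc 1 N ×ˢ Finset.Icc 1 N)

theorem ta_mem (N n : ℕ) (hn : 1 ≤ n) (hN : n ≤ N) (d : ℕ) (hd : d ∣ n ^ 3) :
    ∃ q ∈ (ta_Q N).filter (fun q => q.1.1 * q.1.2 * (q.2.1 * q.2.2) = n),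
      q.1.1 * q.1.2 ^ 2 * q.2.1 ^ 3 = d := by
  have hn3 : n ^ 3 ≠ 0 := pow_ne_zero 3 (by omega)
  have hd0 : d ≠ 0 := by
    rintro rfl
    exact hn3 (zero_dvd_iff.1 hd)
  obtain ⟨α, β, u, hα, hβ, sα, sβ, hc, hu, hdd⟩ := a1_nat d hd0
  obtain ⟨e, he⟩ := hd
  have hk : ((α : ℤ) * β * u) ≠ 0 := by
    refine mul_ne_zero (mul_ne_zero ?_ ?_) ?_
    · exact_mod_cast (by omega : α ≠ 0)
    · exact_mod_cast (by omega : β ≠ 0)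
    · exact_mod_cast hu
  have h1 : ((α : ℤ) * β * u) ∣ (n : ℤ) := by
    refine a1_dvd sα sβ hc _ _ hk ⟨e, ?_⟩
    have h2 : (n : ℤ) ^ 3 = (α : ℤ) * β ^ 2 * u ^ 3 * e := by
      rw [hdd] at he
      exact_mod_cast he
    rw [h2]
    ring
  have h2 : α * β * u ∣ n := by exact_mod_cast h1
  obtain ⟨m, hm⟩ := h2
  have hle : ∀ k, k ∣ n → k ≤ N := fun k hk => (Nat.le_of_dvd (by omega) hk).trans hN
  have hm0 : m ≠ 0 := by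
    rintro rfl
    omega
  refine ⟨((α, β), (u, m)), ?_, hdd.symm⟩
  rw [Finset.mem_filter]
  refine ⟨?_, ?_⟩
  · unfold ta_Q
    rw [Finset.mem_product, Finset.mem_product, Finset.mem_product]
    simp only [Finset.mem_Icc]
    refine ⟨⟨⟨hα, hle _ ⟨β * u * m, by rw [hm]; ring⟩⟩, ⟨hβ, hle _ ⟨α * u * m, by rw [hm]; ring⟩⟩⟩,
      ⟨⟨by omega, hle _ ⟨α * β * m, by rw [hm]; ring⟩⟩, ⟨by omega, hle _ ⟨α * β * u, by rw [hm]; ring⟩⟩⟩⟩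
  · show α * β * (u * m) = n
    rw [hm]
    ring

theorem ta_card (N n : ℕ) (hn : 1 ≤ n) (hN : n ≤ N) : (Nat.divisors (n ^ 3)).card ≤
    ((ta_Q N).filter (fun q => q.1.1 * q.1.2 * (q.2.1 * q.2.2) = n)).card := by
  have h1 : Nat.divisors (n ^ 3) ⊆
      ((ta_Q N).filter (fun q => q.1.1 * q.1.2 * (q.2.1 * q.2.2) = n)).image
        (fun q => q.1.1 * q.1.2 ^ 2 * q.2.1 ^ 3) := by
    intro d hd
    rw [Finset.mem_image]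
    exact ta_mem N n hn hN d (Nat.dvd_of_mem_divisors hd)
  exact (Finset.card_le_card h1).trans Finset.card_image_le

/-- Row TA. Every divisor `d` of `n³` is `αβ²u³` with `α, β` squarefree, coprime (`T44.a1_nat`), and `n³ = d e` gives `(αβu)³ e = α²β n³`, so `αβu ∣ n`
(`T44.a1_dvd`, `k = αβu`, `x = n`): `n = αβu m`. So `τ(n³) ≤ #{(α, β, u, m) : αβum = n}` (injective: `d = αβ²u³`), and
`∑_{n ≤ N} τ(n³)/n ≤ ∑_{α, β, u, m ≤ N} 1/(αβum) = (∑ 1/n)^4` (`T44.h1_harm`). -/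
theorem tau_sum (N : ℕ) : ∑ n ∈ Finset.Icc 1 N, ((Nat.divisors (n ^ 3)).card : ℝ) / n ≤
    (1 + Real.log N) ^ 4 := by
  have h1 : ∑ n ∈ Finset.Icc 1 N, ((Nat.divisors (n ^ 3)).card : ℝ) / n ≤
      ∑ n ∈ Finset.Icc 1 N, ∑ q ∈ (ta_Q N).filter (fun q => q.1.1 * q.1.2 * (q.2.1 * q.2.2) = n),
        (1 / (q.1.1 : ℝ)) * (1 / (q.1.2 : ℝ)) * ((1 / (q.2.1 : ℝ)) * (1 / (q.2.2 : ℝ))) := by
    refine Finset.sum_le_sum fun n hn => ?_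
    rw [Finset.mem_Icc] at hn
    have h2 : ∑ q ∈ (ta_Q N).filter (fun q => q.1.1 * q.1.2 * (q.2.1 * q.2.2) = n),
        (1 / (q.1.1 : ℝ)) * (1 / (q.1.2 : ℝ)) * ((1 / (q.2.1 : ℝ)) * (1 / (q.2.2 : ℝ))) =
        ∑ q ∈ (ta_Q N).filter (fun q => q.1.1 * q.1.2 * (q.2.1 * q.2.2) = n), 1 / (n : ℝ) := by
      refine Finset.sum_congr rfl fun q hq => ?_
      rw [← (Finset.mem_filter.1 hq).2]
      push_cast
      rw [one_div_mul_one_div, one_div_mul_one_div, one_div_mul_one_div]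
    rw [h2, Finset.sum_const, nsmul_eq_mul, div_eq_mul_one_div]
    refine mul_le_mul_of_nonneg_right ?_ (by positivity)
    exact_mod_cast ta_card N n hn.1 hn.2
  refine h1.trans ?_
  have h2 : ∑ n ∈ Finset.Icc 1 N, ∑ q ∈ (ta_Q N).filter (fun q => q.1.1 * q.1.2 * (q.2.1 * q.2.2) = n),
        (1 / (q.1.1 : ℝ)) * (1 / (q.1.2 : ℝ)) * ((1 / (q.2.1 : ℝ)) * (1 / (q.2.2 : ℝ))) ≤
      ∑ q ∈ ta_Q N, (1 / (q.1.1 : ℝ)) * (1 / (q.1.2 : ℝ)) * ((1 / (q.2.1 : ℝ)) * (1 / (q.2.2 : ℝ))) := by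
    have h3 : ∑ n ∈ Finset.Icc 1 N, ∑ q ∈ (ta_Q N).filter (fun q => q.1.1 * q.1.2 * (q.2.1 * q.2.2) = n),
        (1 / (q.1.1 : ℝ)) * (1 / (q.1.2 : ℝ)) * ((1 / (q.2.1 : ℝ)) * (1 / (q.2.2 : ℝ))) =
        ∑ q ∈ (ta_Q N), ∑ n ∈ Finset.Icc 1 N, if q.1.1 * q.1.2 * (q.2.1 * q.2.2) = n then
        (1 / (q.1.1 : ℝ)) * (1 / (q.1.2 : ℝ)) * ((1 / (q.2.1 : ℝ)) * (1 / (q.2.2 : ℝ))) else 0 := by
      rw [Finset.sum_comm]
      refine Finset.sum_congr rfl fun n _ => ?_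
      rw [Finset.sum_filter]
    rw [h3]
    refine Finset.sum_le_sum fun q _ => ?_
    rw [Finset.sum_ite_eq]
    split_ifs
    · exact le_rfl
    · positivity
  refine h2.trans ?_
  have h3 : ∑ q ∈ ta_Q N, (1 / (q.1.1 : ℝ)) * (1 / (q.1.2 : ℝ)) * ((1 / (q.2.1 : ℝ)) * (1 / (q.2.2 : ℝ))) =
      (∑ a ∈ Finset.Icc 1 N, (1 : ℝ) / a) ^ 4 := by
    unfold ta_Q
    rw [Finset.sum_product]
    simp_rw [← Finset.mul_sum]
    rw [← Finset.sum_mul]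
    have e : ∑ p ∈ Finset.Icc 1 N ×ˢ Finset.Icc 1 N, (1 / (p.1 : ℝ)) * (1 / (p.2 : ℝ)) =
        (∑ a ∈ Finset.Icc 1 N, (1 : ℝ) / a) * ∑ a ∈ Finset.Icc 1 N, (1 : ℝ) / a := by
      rw [Finset.sum_mul_sum, Finset.sum_product]
    rw [e]
    ring
  rw [h3]
  exact pow_le_pow_left₀ (Finset.sum_nonneg fun a _ => by positivity) (h1_harm N) 4

end V44
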