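import Pool.Agent.LibV44.Defs
import Pool.Agent.LibT44.B1
import Pool.Agent.LibRC91.D8

namespace V44
open T44

/-- facts on one solution with `a = 0` -/
theorem tz1_facts {H α β : ℕ} {p q : ℝ} (h : Cl α β p q) (hH : 1 ≤ H) (z : ℤ × ℤ × ℤ)
    (hz : Sol H α β z) (ha : z.1 = 0) (hs : 0 < sS p q z) :
    0 < z.2.1 ∧ 0 < z.2.2 ∧ (z.2.1 : ℝ) ≤ sS p q z ∧ (z.2.2 : ℝ) ≤ sS p q z ∧
      ((β : ℤ) * z.2.1 ^ 3 ≠ α * z.2.2 ^ 3) ∧
      (β : ℝ) * z.2.1 ^ 3 ≤ sS p q z ^ 3 ∧ (α : ℝ) * z.2.2 ^ 3 ≤ sS p q z ^ 3 ∧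
      (z.2.2 * q / (z.2.1 * p)) ^ 3 * ((β : ℝ) * z.2.1 ^ 3) = (α : ℝ) * z.2.2 ^ 3 ∧
      |z.2.2 * q / (z.2.1 * p) - 1| ≤ 27 * (H : ℝ) ^ 6 / sS p q z ^ 3 ∧
      |z.2.2 * q / (z.2.1 * p) - 1| ≤ 1 / 100 := by
  obtain ⟨e1, -, e2, -, -, -⟩ := size h hH z hz
  obtain ⟨hp3, hq3⟩ := a3_cube h
  obtain ⟨hα, hβ, -, -, -, -, hp, hq, -, -, -⟩ := h
  obtain ⟨-, hF0, hF, -, -⟩ := hz
  have hHr : (1 : ℝ) ≤ H := by exact_mod_cast hH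
  have hH3 : (1 : ℝ) ≤ (H : ℝ) ^ 3 := one_le_pow₀ hHr
  have hαr : (1 : ℝ) ≤ α := by exact_mod_cast hα
  have hβr : (1 : ℝ) ≤ β := by exact_mod_cast hβ
  have hxi : xX p q z = -(3 * dD p q z) := by
    unfold xX
    rw [ha]
    push_cast
    ring
  rw [hxi, abs_neg, abs_mul, abs_of_pos (by norm_num : (0 : ℝ) < 3)] at e2
  obtain ⟨V, hV⟩ : ∃ V : ℝ, V = z.2.2 * q := ⟨_, rfl⟩
  obtain ⟨W, hW⟩ : ∃ W : ℝ, W = z.2.1 * p := ⟨_, rfl⟩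
  have hS : sS p q z = V + W := by unfold sS; rw [hV, hW]
  have hD : dD p q z = V - W := by unfold dD; rw [hV, hW]
  rw [hS] at e1 hs ⊢
  rw [hD] at e2
  rw [← hV, ← hW]
  have hS12 : 12 ≤ V + W := by
    by_contra hcon
    push Not at hcon
    nlinarith
  have hD1 : |V - W| ≤ 1 / 75 := by linarith
  obtain ⟨hD2, hD3⟩ := abs_le.1 hD1
  have hV5 : 5 ≤ V := by linarith
  have hW5 : 5 ≤ W := by linarith
  have hW0 : 0 < W := by linarith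
  have hV0 : 0 < V := by linarith
  have hp1 : 1 ≤ p := by
    by_contra hcon
    push Not at hcon
    have h1 : p ^ 3 < 1 := pow_lt_one₀ hp.le hcon (by norm_num)
    have h2 : 1 ≤ (α : ℝ) * (β : ℝ) ^ 2 := one_le_mul_of_one_le_of_one_le hαr (one_le_pow₀ hβr)
    linarith
  have hq1 : 1 ≤ q := by
    by_contra hcon
    push Not at hcon
    have h1 : q ^ 3 < 1 := pow_lt_one₀ hq.le hcon (by norm_num)
    have h2 : 1 ≤ (α : ℝ) ^ 2 * (β : ℝ) := one_le_mul_of_one_le_of_one_le (one_le_pow₀ hαr) hβr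
    linarith
  obtain ⟨u, hu⟩ : ∃ u : ℝ, u = z.2.1 := ⟨_, rfl⟩
  obtain ⟨v, hv⟩ : ∃ v : ℝ, v = z.2.2 := ⟨_, rfl⟩
  rw [← hu] at hW ⊢
  rw [← hv] at hV ⊢
  have hu0 : 0 < u := by
    by_contra hcon
    push Not at hcon
    have : u * p ≤ 0 := mul_nonpos_of_nonpos_of_nonneg hcon hp.le
    linarith
  have hv0 : 0 < v := by
    by_contra hcon
    push Not at hcon
    have : v * q ≤ 0 := mul_nonpos_of_nonpos_of_nonneg hcon hq.le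
    linarith
  have huW : u ≤ W := by
    rw [hW]
    exact le_mul_of_one_le_right hu0.le hp1
  have hvV : v ≤ V := by
    rw [hV]
    exact le_mul_of_one_le_right hv0.le hq1
  obtain ⟨X, hX⟩ : ∃ X : ℝ, X = β * u ^ 3 := ⟨_, rfl⟩
  obtain ⟨Y, hY⟩ : ∃ Y : ℝ, Y = α * v ^ 3 := ⟨_, rfl⟩
  have hX0 : 0 < X := by rw [hX]; positivity
  have hY0 : 0 < Y := by rw [hY]; positivity
  have hWX : W ^ 3 = α * β * X := by
    rw [hW, mul_pow, hp3, hX]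
    ring
  have hVY : V ^ 3 = α * β * Y := by
    rw [hV, mul_pow, hq3, hY]
    ring
  have hab : (1 : ℝ) ≤ α * β := one_le_mul_of_one_le_of_one_le hαr hβr
  have hFr : ((F α β z : ℤ) : ℝ) = Y - X := by
    unfold F
    rw [ha, hX, hY, hu, hv]
    push_cast
    ring
  have hn1 : (α : ℝ) * β * |Y - X| ≤ (H : ℝ) ^ 3 := by
    have h1 : (((α : ℤ) * β * |F α β z| : ℤ) : ℝ) ≤ (((H : ℤ) ^ 3 : ℤ) : ℝ) := by
      exact_mod_cast hF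
    push_cast at h1
    rw [hFr] at h1
    exact h1
  have hn2 : 1 ≤ |Y - X| := by
    have h1 : (1 : ℤ) ≤ |F α β z| := Int.one_le_abs hF0
    have h2 : ((1 : ℤ) : ℝ) ≤ ((|F α β z| : ℤ) : ℝ) := by exact_mod_cast h1
    rw [Int.cast_abs, hFr] at h2
    simpa using h2
  have hn3 : |Y - X| ≤ (H : ℝ) ^ 3 := by
    have := mul_le_mul_of_nonneg_right hab (abs_nonneg (Y - X))
    linarith
  have hn4 : (α : ℝ) * β ≤ (H : ℝ) ^ 3 := by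
    have : (α : ℝ) * β * 1 ≤ α * β * |Y - X| := mul_le_mul_of_nonneg_left hn2 (by positivity)
    linarith
  rw [← hX, ← hY]
  have hWS : W ≤ V + W := by linarith
  have hVS : V ≤ V + W := by linarith
  have hXS : X ≤ (V + W) ^ 3 := by
    have h1 : X ≤ α * β * X := le_mul_of_one_le_left hX0.le hab
    have h2 : W ^ 3 ≤ (V + W) ^ 3 := pow_le_pow_left₀ hW0.le hWS 3
    linarith
  have hYS : Y ≤ (V + W) ^ 3 := by
    have h1 : Y ≤ α * β * Y := le_mul_of_one_le_left hY0.le hab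
    have h2 : V ^ 3 ≤ (V + W) ^ 3 := pow_le_pow_left₀ hV0.le hVS 3
    linarith
  have ht3 : (V / W) ^ 3 * X = Y := by
    rw [div_pow, hWX, hVY]
    field_simp
  obtain ⟨t, ht⟩ : ∃ t : ℝ, t = V / W := ⟨_, rfl⟩
  rw [← ht] at ht3 ⊢
  have ht0 : 0 < t := by rw [ht]; positivity
  have htX : |t - 1| * X ≤ |Y - X| := by
    have h1 : Y - X = (t - 1) * (t ^ 2 + t + 1) * X := by
      rw [← ht3]
      ring
    rw [h1, abs_mul, abs_mul, abs_of_pos hX0]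
    refine mul_le_mul_of_nonneg_right ?_ hX0.le
    refine le_mul_of_one_le_right (abs_nonneg _) ?_
    rw [abs_of_pos (by positivity)]
    nlinarith
  refine ⟨?_, ?_, by linarith, by linarith, ?_, hXS, hYS, ht3, ?_, ?_⟩
  · rw [hu] at hu0
    exact_mod_cast hu0
  · rw [hv] at hv0
    exact_mod_cast hv0
  · intro he
    apply hF0
    unfold F
    rw [ha]
    linarith
  · rw [le_div_iff₀ (by positivity)]
    have h1 : (V + W) ^ 3 ≤ 27 * (H : ℝ) ^ 3 * X := by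
      have h2 : V + W ≤ 3 * W := by linarith
      calc (V + W) ^ 3 ≤ (3 * W) ^ 3 := pow_le_pow_left₀ hs.le h2 3
        _ = 27 * (α * β) * X := by rw [mul_pow, hWX]; ring
        _ ≤ 27 * (H : ℝ) ^ 3 * X := by
            refine mul_le_mul_of_nonneg_right ?_ hX0.le
            linarith
    calc |t - 1| * (V + W) ^ 3 ≤ |t - 1| * (27 * (H : ℝ) ^ 3 * X) :=
          mul_le_mul_of_nonneg_left h1 (abs_nonneg _)
      _ = 27 * (H : ℝ) ^ 3 * (|t - 1| * X) := by ring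
      _ ≤ 27 * (H : ℝ) ^ 3 * (H : ℝ) ^ 3 :=
          mul_le_mul_of_nonneg_left (htX.trans hn3) (by positivity)
      _ = 27 * (H : ℝ) ^ 6 := by ring
  · have h1 : t - 1 = (V - W) / W := by
      rw [ht]
      field_simp
    rw [h1, abs_div, abs_of_pos hW0, div_le_iff₀ hW0]
    linarith

theorem tz1_hA_le (a : ℕ → ℕ → ℤ) (ha : ∀ r s, |a r s| ≤ 300 ^ (r + 1)) (s : ℕ) {X Y B : ℝ}
    (hX : 0 < X) (hY : 0 < Y) (hXB : X ≤ B) (hYB : Y ≤ B) :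
    |RC91.hA a s Y X| ≤ (s + 1) * 300 ^ (s + 1) * B ^ s := by
  unfold RC91.hA
  refine (Finset.abs_sum_le_sum_abs _ _).trans ?_
  have h1 : ∀ j ∈ Finset.range (s + 1), |(a s j : ℝ) * Y ^ (s - j) * X ^ j| ≤
      300 ^ (s + 1) * B ^ s := by
    intro j hj
    have hj' : j ≤ s := Nat.lt_succ_iff.1 (Finset.mem_range.1 hj)
    have h2 : |(a s j : ℝ)| ≤ 300 ^ (s + 1) := by
      have h3 : ((|a s j| : ℤ) : ℝ) ≤ (((300 : ℤ) ^ (s + 1) : ℤ) : ℝ) := by exact_mod_cast ha s j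
      push_cast at h3
      exact h3
    rw [abs_mul, abs_mul, abs_of_pos (pow_pos hY _), abs_of_pos (pow_pos hX _), mul_assoc]
    have hB : B ^ s = B ^ (s - j) * B ^ j := by rw [← pow_add, Nat.sub_add_cancel hj']
    rw [hB]
    have hB0 : 0 < B := hX.trans_le hXB
    exact mul_le_mul h2 (mul_le_mul (pow_le_pow_left₀ hY.le hYB _)
      (pow_le_pow_left₀ hX.le hXB _) (by positivity) (by positivity)) (by positivity)
      (by positivity)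
  refine (Finset.sum_le_sum h1).trans ?_
  rw [Finset.sum_const, Finset.card_range, nsmul_eq_mul]
  push_cast
  rw [mul_assoc]

theorem tz1_hA_real (a : ℕ → ℕ → ℤ) (s : ℕ) (X Y : ℝ) :
    RC91.hA a s (X : ℂ) (Y : ℂ) = ((RC91.hA a s X Y : ℝ) : ℂ) := by
  unfold RC91.hA
  push_cast
  rfl

theorem tz1_hA_int (a : ℕ → ℕ → ℤ) (s : ℕ) (X Y : ℤ) {K : Type} [Field K] :
    RC91.hA a s (X : K) (Y : K) =
      ((∑ j ∈ Finset.range (s + 1), a s j * X ^ (s - j) * Y ^ j : ℤ) : K) := by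
  unfold RC91.hA
  push_cast
  rfl

/-- Row TZ1 (Pade inequality for `a = 0`). `z = (0, u, v)`: `V = vq`, `W = up`, `S = V + W`, `D = V - W`, `|3D| = |ξ| ≤ 1/25`, `S ≥ 12` (`T44.size`), so
`S/3 ≤ V, W ≤ S`, `u, v > 0`. Integers `X = βu³`, `Y = αv³`, `Y - X = n = F z ≠ 0`, `αβ|n| ≤ H³`, `αβ ≤ H³`; `W³ = αβX`, `V³ = αβY`
(`p³ = αβ²`, `q³ = α²β`: `T44.a3_cube`), so `S³/(27H³) ≤ X ≤ S³`, `Y ≤ S³`; `t = V/W`, `t³X = Y`, `|t - 1| ≤ |t³ - 1| = |n|/X ≤ 27H⁶/S³`, `|t - 1| = |D|/W ≤ 1/100`.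
Take `a` from `RC91.D8`; `X = βu₁³`, `Y = αv₁³`, `t = t₁`, and the rational `τ = v₁u₂/(u₁v₂) = t₁/t₂`: `|t₁ - τ| = t₁|t₂ - 1|/t₂ ≤ 54H⁶/S₂³`.
By the third part (`K = ℚ`, `X ≠ Y`) the integer `u₁v₂ hA a s X Y - v₁u₂ hA a s Y X` is nonzero for `s = k` or `s = k + 1`, so
`1 ≤ u₁v₂ (|hA X Y - t₁ hA Y X| + |hA Y X| |t₁ - τ|)`, `u₁ ≤ S₁`, `v₂ ≤ S₂` (`p, q ≥ 1`), second part for the first term (in `ℂ`), and
`|hA a s Y X| ≤ (s+1) 300^(s+1) S₁^(3s)`. -/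
theorem pade0 {H α β : ℕ} {p q : ℝ} (h : Cl α β p q) (hH : 1 ≤ H) (z₁ z₂ : ℤ × ℤ × ℤ)
    (hz₁ : Sol H α β z₁) (hz₂ : Sol H α β z₂) (ha₁ : z₁.1 = 0) (ha₂ : z₂.1 = 0)
    (h1 : 0 < sS p q z₁) (h2 : 0 < sS p q z₂) (k : ℕ) :
    ∃ s : ℕ, (s = k ∨ s = k + 1) ∧ 1 ≤ sS p q z₁ * sS p q z₂ * sS p q z₁ ^ (3 * s) *
      (7200 ^ (s + 1) * (27 * (H : ℝ) ^ 6 / sS p q z₁ ^ 3) ^ (2 * s + 1) +
        (s + 1) * 300 ^ (s + 1) * (54 * (H : ℝ) ^ 6 / sS p q z₂ ^ 3)) := by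
  obtain ⟨a, ha, hA2, hA3⟩ := RC91.D8
  obtain ⟨u1, v1, u1S, v1S, n1, X1S, Y1S, t1X, t1a, t1b⟩ := tz1_facts h hH z₁ hz₁ ha₁ h1
  obtain ⟨u2, v2, u2S, v2S, -, -, -, -, t2a, t2b⟩ := tz1_facts h hH z₂ hz₂ ha₂ h2
  obtain ⟨-, hβ, -, -, -, -, hp, hq, -, -, -⟩ := id h
  obtain ⟨hα, -, -, -, -, -, -, -, -, -, -⟩ := id h
  have hHr : (1 : ℝ) ≤ H := by exact_mod_cast hH
  -- names
  obtain ⟨X, hX⟩ : ∃ X : ℤ, X = (β : ℤ) * z₁.2.1 ^ 3 := ⟨_, rfl⟩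
  obtain ⟨Y, hY⟩ : ∃ Y : ℤ, Y = (α : ℤ) * z₁.2.2 ^ 3 := ⟨_, rfl⟩
  have hβz : (0 : ℤ) < β := by exact_mod_cast hβ
  have hαz : (0 : ℤ) < α := by exact_mod_cast hα
  have hX0 : 0 < X := by rw [hX]; positivity
  have hY0 : 0 < Y := by rw [hY]; positivity
  rw [← hX, ← hY] at n1
  have hXr : (β : ℝ) * (z₁.2.1 : ℝ) ^ 3 = (X : ℝ) := by rw [hX]; push_cast; ring
  have hYr : (α : ℝ) * (z₁.2.2 : ℝ) ^ 3 = (Y : ℝ) := by rw [hY]; push_cast; ring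
  rw [hXr] at X1S t1X
  rw [hYr] at Y1S t1X
  obtain ⟨u, hu⟩ : ∃ u : ℤ, u = z₁.2.1 := ⟨_, rfl⟩
  obtain ⟨v, hv⟩ : ∃ v : ℤ, v = z₁.2.2 := ⟨_, rfl⟩
  obtain ⟨u', hu'⟩ : ∃ u' : ℤ, u' = z₂.2.1 := ⟨_, rfl⟩
  obtain ⟨v', hv'⟩ : ∃ v' : ℤ, v' = z₂.2.2 := ⟨_, rfl⟩
  rw [← hu] at u1 u1S t1a t1b t1X
  rw [← hv] at v1 v1S t1a t1b t1X
  rw [← hu'] at u2 u2S t2a t2b
  rw [← hv'] at v2 v2S t2a t2b
  obtain ⟨S, hS⟩ : ∃ S : ℝ, S = sS p q z₁ := ⟨_, rfl⟩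
  obtain ⟨S', hS'⟩ : ∃ S' : ℝ, S' = sS p q z₂ := ⟨_, rfl⟩
  rw [← hS] at h1 u1S v1S X1S Y1S t1a ⊢
  rw [← hS'] at h2 u2S v2S t2a ⊢
  obtain ⟨t, ht⟩ : ∃ t : ℝ, t = (v : ℝ) * q / ((u : ℝ) * p) := ⟨_, rfl⟩
  obtain ⟨t', ht'⟩ : ∃ t' : ℝ, t' = (v' : ℝ) * q / ((u' : ℝ) * p) := ⟨_, rfl⟩
  rw [← ht] at t1a t1b t1X
  rw [← ht'] at t2a t2b
  have ur : (0 : ℝ) < u := by exact_mod_cast u1
  have vr : (0 : ℝ) < v := by exact_mod_cast v1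
  have ur' : (0 : ℝ) < u' := by exact_mod_cast u2
  have vr' : (0 : ℝ) < v' := by exact_mod_cast v2
  have hXr0 : (0 : ℝ) < X := by exact_mod_cast hX0
  have hYr0 : (0 : ℝ) < Y := by exact_mod_cast hY0
  have hτ : t / t' = (v * u') / (u * v') := by
    rw [ht, ht']
    field_simp
  obtain ⟨h3, h4⟩ := abs_le.1 t1b
  obtain ⟨h5, h6⟩ := abs_le.1 t2b
  have ht0 : 0 < t := by linarith
  have ht0' : 0 < t' := by linarith
  have hττ : |t - t / t'| ≤ 54 * (H : ℝ) ^ 6 / S' ^ 3 := by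
    have h7 : t - t / t' = t / t' * (t' - 1) := by
      field_simp
    have h8 : t / t' ≤ 2 := by
      rw [div_le_iff₀ ht0']
      linarith
    rw [h7, abs_mul, abs_of_pos (by positivity)]
    calc t / t' * |t' - 1| ≤ 2 * (27 * (H : ℝ) ^ 6 / S' ^ 3) :=
          mul_le_mul h8 t2a (abs_nonneg _) (by norm_num)
      _ = 54 * (H : ℝ) ^ 6 / S' ^ 3 := by ring
  -- the nonvanishing
  obtain ⟨s, hs, hne⟩ : ∃ s : ℕ, (s = k ∨ s = k + 1) ∧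
      RC91.hA a s (X : ℚ) (Y : ℚ) ≠ ((v : ℚ) * u') / (u * v') * RC91.hA a s (Y : ℚ) (X : ℚ) := by
    by_contra hcon
    push Not at hcon
    refine hA3 ℚ k X Y (((v : ℚ) * u') / (u * v')) ?_ ?_ (hcon k (Or.inl rfl))
      (hcon (k + 1) (Or.inr rfl))
    · exact_mod_cast hX0.ne'
    · exact_mod_cast n1
  refine ⟨s, hs, ?_⟩
  -- the integer
  obtain ⟨P, hP⟩ : ∃ P : ℤ, P = ∑ j ∈ Finset.range (s + 1), a s j * X ^ (s - j) * Y ^ j :=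
    ⟨_, rfl⟩
  obtain ⟨Q, hQ⟩ : ∃ Q : ℤ, Q = ∑ j ∈ Finset.range (s + 1), a s j * Y ^ (s - j) * X ^ j :=
    ⟨_, rfl⟩
  have hM : u * v' * P - v * u' * Q ≠ 0 := by
    intro h0
    apply hne
    rw [tz1_hA_int, tz1_hA_int, ← hP, ← hQ]
    have hu0 : (u : ℚ) ≠ 0 := by exact_mod_cast u1.ne'
    have hv0 : (v' : ℚ) ≠ 0 := by exact_mod_cast v2.ne'
    have h7 : ((u * v' * P - v * u' * Q : ℤ) : ℚ) = 0 := by rw [h0]; simp
    push_cast at h7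
    field_simp
    linarith
  have hM1 : (1 : ℝ) ≤ |(u : ℝ) * v' * P - v * u' * Q| := by
    have h7 : (1 : ℤ) ≤ |u * v' * P - v * u' * Q| := Int.one_le_abs hM
    have h8 : ((1 : ℤ) : ℝ) ≤ ((|u * v' * P - v * u' * Q| : ℤ) : ℝ) := by exact_mod_cast h7
    rw [Int.cast_abs] at h8
    push_cast at h8
    exact h8
  have hPr : (P : ℝ) = RC91.hA a s (X : ℝ) (Y : ℝ) := by rw [tz1_hA_int, hP]
  have hQr : (Q : ℝ) = RC91.hA a s (Y : ℝ) (X : ℝ) := by rw [tz1_hA_int, hQ]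
  -- the first estimate
  have hE1 : |(P : ℝ) - t * Q| ≤ 7200 ^ (s + 1) * S ^ (3 * s) *
      (27 * (H : ℝ) ^ 6 / S ^ 3) ^ (2 * s + 1) := by
    have h7 := hA2 s ((X : ℝ) : ℂ) ((Y : ℝ) : ℂ) ((t : ℝ) : ℂ)
      (by exact_mod_cast hXr0.ne') (by exact_mod_cast t1X) (by
        rw [← Complex.ofReal_one, ← Complex.ofReal_sub, Complex.norm_real, Real.norm_eq_abs]
        linarith)
    rw [tz1_hA_real, tz1_hA_real, ← Complex.ofReal_mul, ← Complex.ofReal_sub,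
      Complex.norm_real, Complex.norm_real, ← Complex.ofReal_one, ← Complex.ofReal_sub,
      Complex.norm_real, Real.norm_eq_abs, Real.norm_eq_abs, Real.norm_eq_abs,
      abs_of_pos hXr0, ← hPr, ← hQr, abs_sub_comm 1 t] at h7
    refine h7.trans ?_
    have h8 : (X : ℝ) ^ s ≤ S ^ (3 * s) := by
      rw [pow_mul]
      exact pow_le_pow_left₀ hXr0.le X1S s
    have h9 : |t - 1| ^ (2 * s + 1) ≤ (27 * (H : ℝ) ^ 6 / S ^ 3) ^ (2 * s + 1) :=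
      pow_le_pow_left₀ (abs_nonneg _) t1a _
    exact mul_le_mul (mul_le_mul_of_nonneg_left h8 (by positivity)) h9 (by positivity)
      (by positivity)
  -- the second estimate
  have hE2 : |(Q : ℝ)| ≤ (s + 1) * 300 ^ (s + 1) * S ^ (3 * s) := by
    rw [hQr, pow_mul]
    exact tz1_hA_le a ha s hXr0 hYr0 X1S Y1S
  have hid : (u : ℝ) * v' * P - v * u' * Q = u * v' * ((P - t * Q) + (t - t / t') * Q) := by
    rw [hτ]
    field_simp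
    ring
  rw [hid, abs_mul, abs_of_pos (by positivity)] at hM1
  have hE3 : |((P : ℝ) - t * Q) + (t - t / t') * Q| ≤
      7200 ^ (s + 1) * S ^ (3 * s) * (27 * (H : ℝ) ^ 6 / S ^ 3) ^ (2 * s + 1) +
        54 * (H : ℝ) ^ 6 / S' ^ 3 * ((s + 1) * 300 ^ (s + 1) * S ^ (3 * s)) := by
    refine (abs_add_le _ _).trans (add_le_add hE1 ?_)
    rw [abs_mul]
    exact mul_le_mul hττ hE2 (abs_nonneg _) (by positivity)
  have huv : (u : ℝ) * v' ≤ S * S' := mul_le_mul u1S v2S vr'.le h1.le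
  calc (1 : ℝ) ≤ u * v' * |((P : ℝ) - t * Q) + (t - t / t') * Q| := hM1
    _ ≤ S * S' * (7200 ^ (s + 1) * S ^ (3 * s) * (27 * (H : ℝ) ^ 6 / S ^ 3) ^ (2 * s + 1) +
        54 * (H : ℝ) ^ 6 / S' ^ 3 * ((s + 1) * 300 ^ (s + 1) * S ^ (3 * s))) :=
        mul_le_mul huv hE3 (abs_nonneg _) (by positivity)
    _ = _ := by ring

end V44
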