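import Pool.Agent.LibV44.AB
import Pool.Agent.LibT44.W2
import Pool.Agent.LibT44.W3

namespace V44
open T44

/-- the size comparison -/
theorem wu_real (X H : ℕ) (hX1 : 1 ≤ X) (hH3 : 1 ≤ H) (hH2 : (H : ℝ) ≤ 8 * √(X : ℝ)) :
    (H : ℝ) ^ 3 * (1 + Real.log H) ^ 4 ≤ 131072 * ((X : ℝ) ^ (3 / 2 : ℝ) * (1 + Real.log X) ^ 4) := by
  have hX1' : (1:ℝ) ≤ X := by exact_mod_cast hX1
  have hX0 : (0:ℝ) < X := by linarith
  have hs1 : 1 ≤ √(X : ℝ) := Real.one_le_sqrt.2 hX1'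
  have hH1' : (1:ℝ) ≤ H := by exact_mod_cast hH3
  have hlX : 0 ≤ Real.log X := Real.log_nonneg hX1'
  have hlH : 0 ≤ Real.log H := Real.log_nonneg hH1'
  have h1 : (H : ℝ) ^ 3 ≤ 512 * (X : ℝ) ^ (3 / 2 : ℝ) := by
    have h2 : (H : ℝ) ^ 3 ≤ (8 * √(X : ℝ)) ^ 3 := pow_le_pow_left₀ (by linarith) hH2 3
    have h3 : (√(X : ℝ)) ^ 3 = (X : ℝ) ^ (3 / 2 : ℝ) := by
      rw [Real.sqrt_eq_rpow, ← Real.rpow_natCast, ← Real.rpow_mul hX0.le]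
      norm_num
    calc (H : ℝ) ^ 3 ≤ (8 * √(X : ℝ)) ^ 3 := h2
      _ = 512 * (√(X : ℝ)) ^ 3 := by ring
      _ = 512 * (X : ℝ) ^ (3 / 2 : ℝ) := by rw [h3]
  have h4 : 1 + Real.log H ≤ 4 * (1 + Real.log X) := by
    have h5 : Real.log H ≤ Real.log (8 * √(X : ℝ)) := Real.log_le_log (by linarith) hH2
    have h6 : Real.log (8 * √(X : ℝ)) = 3 * Real.log 2 + Real.log X / 2 := by
      rw [Real.log_mul (by norm_num) (by positivity), Real.log_sqrt hX0.le]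
      have : Real.log 8 = 3 * Real.log 2 := by
        rw [show (8:ℝ) = 2 ^ 3 by norm_num, Real.log_pow]
        norm_num
      rw [this]
    have h7 : Real.log 2 ≤ 1 := by linarith [Real.log_two_lt_d9]
    linarith
  have h8 : (1 + Real.log H) ^ 4 ≤ (4 * (1 + Real.log X)) ^ 4 :=
    pow_le_pow_left₀ (by linarith) h4 4
  calc (H : ℝ) ^ 3 * (1 + Real.log H) ^ 4
      ≤ (512 * (X : ℝ) ^ (3 / 2 : ℝ)) * (4 * (1 + Real.log X)) ^ 4 :=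
        mul_le_mul h1 h8 (by positivity) (by positivity)
    _ = 131072 * ((X : ℝ) ^ (3 / 2 : ℝ) * (1 + Real.log X) ^ 4) := by ring

/-- every finite set of quadruples is small -/
theorem wu_finite {C : ℝ} (hC : 0 < C)
    (hcount : ∀ H : ℕ, 2 ≤ H → ∀ S : Finset (ℤ × ℤ × ℤ × ℤ),
    (∀ w ∈ S, w.1 ≠ 0 ∧ |w.1| ≤ (H : ℤ) ∧ |w.2.1| ≤ (H : ℤ) ^ 3 ∧ w.2.1 ≠ 0 ∧ w.1 ^ 3 ≠ 27 * w.2.1 ∧
      w.2.2.1 ≠ 0 ∧ w.2.2.2 * (w.2.2.2 + w.1 * w.2.2.1 + w.2.1) = w.2.2.1 ^ 3) →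
    (S.card : ℝ) ≤ C * ((H : ℝ) ^ 3 * (1 + Real.log H) ^ 4)) (X : ℕ) (hX1 : 1 ≤ X)
    (T : Finset (ℤ × ℤ × ℤ × ℤ)) (hT : ∀ w ∈ T, w ∈ Pts X) :
    (T.card : ℝ) ≤ C * 131072 * ((X : ℝ) ^ (3 / 2 : ℝ) * (1 + Real.log X) ^ 4) := by
  classical
  have hX1' : (1:ℝ) ≤ X := by exact_mod_cast hX1
  have hs1 : 1 ≤ √(X : ℝ) := Real.one_le_sqrt.2 hX1'
  have hs2 : √(X : ℝ) ^ 2 = X := Real.sq_sqrt (by linarith)
  obtain ⟨H, hH⟩ : ∃ H, H = ⌈7 * √(X : ℝ)⌉₊ := ⟨_, rfl⟩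
  have hH1 : 7 * √(X : ℝ) ≤ H := hH ▸ Nat.le_ceil _
  have hH2 : (H : ℝ) ≤ 8 * √(X : ℝ) := by
    have := (Nat.ceil_lt_add_one (by positivity : 0 ≤ 7 * √(X : ℝ))).le
    rw [← hH] at this
    linarith
  have hH3 : 2 ≤ H := by
    have : (2:ℝ) ≤ H := by linarith
    exact_mod_cast this
  have hH4 : 49 * X ≤ H ^ 2 := by
    have : (49:ℝ) * X ≤ (H : ℝ) ^ 2 := by nlinarith
    exact_mod_cast this
  have hkey : ∀ w ∈ Pts X, ∃ t s : ℤ, w.1 = 27 * t ^ 4 + 6 * t * s ∧ w.2.1 = s ^ 2 - 27 * t ^ 6 ∧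
      6 * t ≠ 0 ∧ |6 * t| ≤ (H : ℤ) ∧ |2 * (s + 9 * t ^ 3)| ≤ (H : ℤ) ^ 3 ∧
      2 * (s + 9 * t ^ 3) ≠ 0 ∧ (6 * t) ^ 3 ≠ 27 * (2 * (s + 9 * t ^ 3)) ∧
      w.2.2.1 - 3 * t ^ 2 ≠ 0 ∧
      (w.2.2.2 - (3 * t * (w.2.2.1 - 3 * t ^ 2) + (s + 9 * t ^ 3))) *
        ((w.2.2.2 - (3 * t * (w.2.2.1 - 3 * t ^ 2) + (s + 9 * t ^ 3))) +
          6 * t * (w.2.2.1 - 3 * t ^ 2) + 2 * (s + 9 * t ^ 3)) = (w.2.2.1 - 3 * t ^ 2) ^ 3 := by
    rintro ⟨A, B, x, y⟩ ⟨⟨hA, hB, hD, x₀, y₀, h1, h2⟩, hA0, h3, h4⟩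
    simp only at hA hB hD h1 h2 h3 h4 hA0
    obtain ⟨t, s, -, -, eA, eB⟩ := param3 A B x₀ y₀ h1 h2 hD
    subst eA eB
    obtain ⟨d1, d2⟩ := disc3 t s hD
    obtain ⟨z1, z2, z3⟩ := size3 X H hX1 hH4 t s hA hB
    refine ⟨t, s, rfl, rfl, ?_, z1, z2, d1, d2, ?_, point3 t s x y h3⟩
    · intro h0
      apply hA0
      have : t = 0 := by linarith
      rw [this]
      ring
    · intro h0
      simp only at h0
      have hx : x = 3 * t ^ 2 := by linarith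
      rw [hx] at h4
      exact h4 (div3 t s)
  choose! t s hz1 hz2 hz0 hz3 hz4 hz5 hz6 hz7 hz8 using hkey
  obtain ⟨φ, hφ⟩ : ∃ φ : ℤ × ℤ × ℤ × ℤ → ℤ × ℤ × ℤ × ℤ, φ = fun w =>
    (6 * t w, 2 * (s w + 9 * t w ^ 3), w.2.2.1 - 3 * t w ^ 2,
      w.2.2.2 - (3 * t w * (w.2.2.1 - 3 * t w ^ 2) + (s w + 9 * t w ^ 3))) := ⟨_, rfl⟩
  have hinj : Set.InjOn φ (T : Set (ℤ × ℤ × ℤ × ℤ)) := by
    intro z hz z' hz' e
    have hz := hT z (Finset.mem_coe.1 hz)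
    have hz' := hT z' (Finset.mem_coe.1 hz')
    simp only [hφ, Prod.mk.injEq] at e
    obtain ⟨e1, e2, e3, e4⟩ := e
    have f1 : t z = t z' := by linarith
    have f2 : s z = s z' := by
      rw [f1] at e2
      linarith
    have f3 : z.2.2.1 = z'.2.2.1 := by
      rw [f1] at e3
      linarith
    have f4 : z.2.2.2 = z'.2.2.2 := by
      rw [f1, f2, f3] at e4
      linarith
    refine Prod.ext ?_ (Prod.ext ?_ (Prod.ext f3 f4))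
    · rw [hz1 z hz, hz1 z' hz', f1, f2]
    · rw [hz2 z hz, hz2 z' hz', f1, f2]
  have h1 := hcount H hH3 (T.image φ) (by
    intro w hw
    obtain ⟨z, hz, rfl⟩ := Finset.mem_image.1 hw
    have hz := hT z hz
    rw [hφ]
    exact ⟨hz0 z hz, hz3 z hz, hz4 z hz, hz5 z hz, hz6 z hz, hz7 z hz, hz8 z hz⟩)
  rw [Finset.card_image_of_injOn hinj] at h1
  calc (T.card : ℝ) ≤ C * ((H : ℝ) ^ 3 * (1 + Real.log H) ^ 4) := h1
    _ ≤ C * (131072 * ((X : ℝ) ^ (3 / 2 : ℝ) * (1 + Real.log X) ^ 4)) :=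
        mul_le_mul_of_nonneg_left (wu_real X H hX1 (by omega) hH2) hC.le
    _ = C * 131072 * ((X : ℝ) ^ (3 / 2 : ℝ) * (1 + Real.log X) ^ 4) := by ring

/-- Row WU1. As `U44.ww_upper` (file LibU44/WW.lean, copy its proof; there `a = 6t` may be `0`, here `A ≠ 0` gives `t ≠ 0`): for `(A, B, x, y) ∈ Pts X`
choose `(t, s)` for `(A, B)` and map to `(a, b, x', y') = (6t, 2(s + 9t³), x - 3t², y - (3t(x - 3t²) + (s + 9t³)))` (`T44.param3, disc3, point3, div3, size3`);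
the map is injective on a finite subset if `(t, s)` depends only on `(A, B)` (or choose it for each quadruple: `(t, s)` is recovered from `(a, b)`, then
`(A, B)`, `(x, y)`). `H = ⌈7√X⌉ ≤ 8√X`, `H ≥ 7`. Every finite subset of `Pts X` has at most `C₁ H³ (1 + log H)^4` elements, so `Pts X` is finite
(e.g. `Set.Infinite.exists_subset_card_eq`), `1 + log H ≤ 4 (1 + log X)`. -/
theorem pts_upper : ∃ C : ℝ, 0 < C ∧ ∀ X : ℕ, 1 ≤ X → (Pts X).Finite ∧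
    ((Pts X).ncard : ℝ) ≤ C * ((X : ℝ) ^ (3 / 2 : ℝ) * (1 + Real.log X) ^ 4) := by
  obtain ⟨C, hC, hcount⟩ := ab_sharp
  refine ⟨C * 131072, by positivity, fun X hX1 => ?_⟩
  have hb := wu_finite hC hcount X hX1
  have hfin : (Pts X).Finite := by
    by_contra hinf
    obtain ⟨n, hn⟩ := exists_nat_gt (C * 131072 * ((X : ℝ) ^ (3 / 2 : ℝ) * (1 + Real.log X) ^ 4))
    obtain ⟨T, hT, hTn⟩ := Set.Infinite.exists_subset_card_eq hinf n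
    have := hb T (fun w hw => hT (Finset.mem_coe.2 hw))
    rw [hTn] at this
    linarith
  refine ⟨hfin, ?_⟩
  rw [Set.ncard_eq_toFinset_card _ hfin]
  exact hb hfin.toFinset (fun w hw => hfin.mem_toFinset.1 hw)

/-- Row WU2. The members with `A ≠ 0` inject into `Pts X` (choose a point); those with `A = 0`: `param3` gives `3t(9t³ + 2s) = 0`, so `B = s²`,
`|s| ≤ X^(3/2)`, or `4B = -27t⁶`, `t² ≤ X`; at most `(2 X^(3/2) + 1) + (2 X^(1/2) + 1)` values of `B`. -/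
theorem exc_upper : ∃ C : ℝ, 0 < C ∧ ∀ X : ℕ, 1 ≤ X →
    ((Exc X).ncard : ℝ) ≤ C * ((X : ℝ) ^ (3 / 2 : ℝ) * (1 + Real.log X) ^ 4) := by
  classical
  obtain ⟨C, hC, hup⟩ := pts_upper
  refine ⟨C + 6, by positivity, fun X hX1 => ?_⟩
  obtain ⟨hfin, hcard⟩ := hup X hX1
  have hX1' : (1:ℝ) ≤ X := by exact_mod_cast hX1
  have hX0 : (0:ℝ) < X := by linarith
  have hlX : 0 ≤ Real.log X := Real.log_nonneg hX1'
  obtain ⟨N, hN⟩ : ∃ N, N = Nat.sqrt (X ^ 3) := ⟨_, rfl⟩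
  obtain ⟨U, hU⟩ : ∃ U : Finset (ℤ × ℤ), U =
    (Finset.Icc (-(N : ℤ)) N).image (fun s => ((0 : ℤ), s ^ 2)) ∪
      (Finset.Icc (-(N : ℤ)) N).image (fun t => ((0 : ℤ), -27 * t ^ 6 / 4)) := ⟨_, rfl⟩
  have habs : ∀ r : ℤ, r ^ 2 ≤ (X : ℤ) ^ 3 → r ∈ Finset.Icc (-(N : ℤ)) N := by
    intro r hr
    have h1 : r.natAbs ≤ N := by
      rw [hN, Nat.le_sqrt]
      have h2 : ((r.natAbs * r.natAbs : ℕ) : ℤ) ≤ ((X ^ 3 : ℕ) : ℤ) := by
        push_cast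
        rw [← sq, sq_abs]
        exact hr
      exact_mod_cast h2
    rw [Finset.mem_Icc]
    omega
  have hsub : Exc X ⊆ (fun w : ℤ × ℤ × ℤ × ℤ => (w.1, w.2.1)) '' (Pts X) ∪ (U : Set (ℤ × ℤ)) := by
    rintro ⟨A, B⟩ ⟨hF, x, y, h3, h4⟩
    by_cases hA0 : A = 0
    · right
      obtain ⟨hA, hB, hD, x₀, y₀, h1, h2⟩ := hF
      simp only at hA hB hD h1 h2 h3 h4
      obtain ⟨t, s, -, -, eA, eB⟩ := param3 A B x₀ y₀ h1 h2 hD
      rw [hU, Finset.mem_coe, Finset.mem_union, Finset.mem_image, Finset.mem_image]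
      have hfac : 3 * t * (9 * t ^ 3 + 2 * s) = 0 := by
        rw [← hA0, eA]
        ring
      rcases mul_eq_zero.1 hfac with h5 | h5
      · left
        have ht : t = 0 := by linarith
        have hBs : B = s ^ 2 := by
          rw [eB, ht]
          ring
        refine ⟨s, habs s ?_, ?_⟩
        · rw [← hBs]
          exact (abs_le.1 hB).2
        · rw [hA0, hBs]
      · right
        have h4B : 4 * B = -27 * t ^ 6 := by
          rw [eB]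
          have h6 : 2 * s = -(9 * t ^ 3) := by linarith
          have h7 : 4 * s ^ 2 = (2 * s) ^ 2 := by ring
          calc 4 * (s ^ 2 - 27 * t ^ 6) = 4 * s ^ 2 - 108 * t ^ 6 := by ring
            _ = (2 * s) ^ 2 - 108 * t ^ 6 := by rw [h7]
            _ = -27 * t ^ 6 := by rw [h6]; ring
        have hXz : (1 : ℤ) ≤ X := by exact_mod_cast hX1
        have ht2 : t ^ 2 ≤ (X : ℤ) := by
          by_contra hc
          have hc' : (X : ℤ) < t ^ 2 := not_le.1 hc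
          have h8 : (X : ℤ) ^ 3 < (t ^ 2) ^ 3 := pow_lt_pow_left₀ hc' (by linarith) (by norm_num)
          have h9 := (abs_le.1 hB).1
          have h10 : (t ^ 2) ^ 3 = t ^ 6 := by ring
          have h11 : (0 : ℤ) < (X : ℤ) ^ 3 := by positivity
          rw [h10] at h8
          linarith
        refine ⟨t, habs t ?_, ?_⟩
        · calc t ^ 2 ≤ (X : ℤ) := ht2
            _ = (X : ℤ) ^ 1 := (pow_one _).symm
            _ ≤ (X : ℤ) ^ 3 := pow_le_pow_right₀ hXz (by norm_num)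
        · rw [hA0, ← h4B, Int.mul_ediv_cancel_left _ (by norm_num)]
    · left
      exact ⟨(A, B, x, y), ⟨hF, hA0, h3, h4⟩, rfl⟩
  have h1 : (Exc X).ncard ≤ (Pts X).ncard + U.card := by
    calc (Exc X).ncard ≤ ((fun w : ℤ × ℤ × ℤ × ℤ => (w.1, w.2.1)) '' (Pts X) ∪ (U : Set (ℤ × ℤ))).ncard :=
          Set.ncard_le_ncard hsub ((hfin.image _).union U.finite_toSet)
      _ ≤ ((fun w : ℤ × ℤ × ℤ × ℤ => (w.1, w.2.1)) '' (Pts X)).ncard + (U : Set (ℤ × ℤ)).ncard :=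
          Set.ncard_union_le _ _
      _ ≤ (Pts X).ncard + U.card := by
          rw [Set.ncard_coe_finset]
          exact Nat.add_le_add_right (Set.ncard_image_le hfin) _
  have h2 : U.card ≤ (2 * N + 1) + (2 * N + 1) := by
    rw [hU]
    have h3 : (Finset.Icc (-(N : ℤ)) N).card = 2 * N + 1 := by
      rw [Int.card_Icc]
      omega
    refine (Finset.card_union_le _ _).trans (Nat.add_le_add ?_ ?_)
    · exact Finset.card_image_le.trans h3.le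
    · exact Finset.card_image_le.trans h3.le
  have hN1 : 1 ≤ N := by
    rw [hN, Nat.le_sqrt]
    have : 1 ≤ X ^ 3 := Nat.one_le_pow _ _ hX1
    simpa using this
  have hNr : (N : ℝ) ≤ (X : ℝ) ^ (3 / 2 : ℝ) := by
    have h3 : (N : ℝ) ^ 2 ≤ (X : ℝ) ^ 3 := by
      have : N ^ 2 ≤ X ^ 3 := by
        rw [hN]
        exact Nat.sqrt_le' _
      exact_mod_cast this
    have h4 : ((X : ℝ) ^ (3 / 2 : ℝ)) ^ 2 = (X : ℝ) ^ 3 := by
      rw [← Real.rpow_natCast, ← Real.rpow_mul hX0.le, ← Real.rpow_natCast]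
      norm_num
    rw [← h4] at h3
    exact le_of_sq_le_sq h3 (by positivity) 
  have h5 : ((Exc X).ncard : ℝ) ≤ ((Pts X).ncard : ℝ) + 6 * (N : ℝ) := by
    have h6 : (Exc X).ncard ≤ (Pts X).ncard + 6 * N := by omega
    exact_mod_cast h6
  have h7 : (1 : ℝ) ≤ (1 + Real.log X) ^ 4 := one_le_pow₀ (by linarith)
  have h8 : (X : ℝ) ^ (3 / 2 : ℝ) ≤ (X : ℝ) ^ (3 / 2 : ℝ) * (1 + Real.log X) ^ 4 :=
    le_mul_of_one_le_right (by positivity) h7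
  calc ((Exc X).ncard : ℝ) ≤ ((Pts X).ncard : ℝ) + 6 * (N : ℝ) := h5
    _ ≤ C * ((X : ℝ) ^ (3 / 2 : ℝ) * (1 + Real.log X) ^ 4) +
        6 * ((X : ℝ) ^ (3 / 2 : ℝ) * (1 + Real.log X) ^ 4) := by linarith
    _ = (C + 6) * ((X : ℝ) ^ (3 / 2 : ℝ) * (1 + Real.log X) ^ 4) := by ring

end V44
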