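import Pool.Agent.LibV44.WU
import Pool.Agent.LibV44.AB0

namespace V44
open T44

/-- the quadruples `(A, B, x, y)`: an integral point `(x, y)`, not of order three, on a member `(A, B)` of `Fam X` -/
def PtsAll (X : ℕ) : Set (ℤ × ℤ × ℤ × ℤ) :=
  {w | (w.1, w.2.1) ∈ Fam X ∧ w.2.2.2 ^ 2 = w.2.2.1 ^ 3 + w.1 * w.2.2.1 + w.2.1 ∧
    3 * w.2.2.1 ^ 4 + 6 * w.1 * w.2.2.1 ^ 2 + 12 * w.2.1 * w.2.2.1 - w.1 ^ 2 ≠ 0}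

/-- every finite set of quadruples is small, all `A` -/
theorem wu0_finite {C : ℝ} (hC : 0 < C)
    (hcount : ∀ H : ℕ, 2 ≤ H → ∀ S : Finset (ℤ × ℤ × ℤ × ℤ),
    (∀ w ∈ S, |w.1| ≤ (H : ℤ) ∧ |w.2.1| ≤ (H : ℤ) ^ 3 ∧ w.2.1 ≠ 0 ∧ w.1 ^ 3 ≠ 27 * w.2.1 ∧
      w.2.2.1 ≠ 0 ∧ w.2.2.2 * (w.2.2.2 + w.1 * w.2.2.1 + w.2.1) = w.2.2.1 ^ 3) →
    (S.card : ℝ) ≤ C * ((H : ℝ) ^ 3 * (1 + Real.log H) ^ 4)) (X : ℕ) (hX1 : 1 ≤ X)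
    (T : Finset (ℤ × ℤ × ℤ × ℤ)) (hT : ∀ w ∈ T, w ∈ PtsAll X) :
    (T.card : ℝ) ≤ C * 131072 * ((X : ℝ) ^ (3 / 2 : ℝ) * (1 + Real.log X) ^ 4) := by
  classical
  have hX1' : (1:ℝ) ≤ X := by exact_mod_cast hX1
  have hs1 : 1 ≤ √(X : ℝ) := Real.one_le_sqrt.2 hX1'
  have hs2 : √(X : ℝ) ^ 2 = X := Real.sq_sqrt (by linarith)
  obtain ⟨H, hH⟩ : ∃ H, H = ⌈7 * √(X : ℝ)⌉₊ := ⟨_, rfl⟩
  have hH1 : 7 * √(X : ℝ) ≤ H := hH ▸ Nat.le_ceil _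
  have hH2 : (H : ℝ) ≤ 8 * √(X : ℝ) := by
    have := (Nat.ceil_lt_add_one (by positivity : 0 ≤ 7 * √(X : ℝ))).le
    rw [← hH] at this
    linarith
  have hH3 : 2 ≤ H := by
    have : (2:ℝ) ≤ H := by linarith
    exact_mod_cast this
  have hH4 : 49 * X ≤ H ^ 2 := by
    have : (49:ℝ) * X ≤ (H : ℝ) ^ 2 := by nlinarith
    exact_mod_cast this
  have hkey : ∀ w ∈ PtsAll X, ∃ t s : ℤ, w.1 = 27 * t ^ 4 + 6 * t * s ∧ w.2.1 = s ^ 2 - 27 * t ^ 6 ∧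
      |6 * t| ≤ (H : ℤ) ∧ |2 * (s + 9 * t ^ 3)| ≤ (H : ℤ) ^ 3 ∧
      2 * (s + 9 * t ^ 3) ≠ 0 ∧ (6 * t) ^ 3 ≠ 27 * (2 * (s + 9 * t ^ 3)) ∧
      w.2.2.1 - 3 * t ^ 2 ≠ 0 ∧
      (w.2.2.2 - (3 * t * (w.2.2.1 - 3 * t ^ 2) + (s + 9 * t ^ 3))) *
        ((w.2.2.2 - (3 * t * (w.2.2.1 - 3 * t ^ 2) + (s + 9 * t ^ 3))) +
          6 * t * (w.2.2.1 - 3 * t ^ 2) + 2 * (s + 9 * t ^ 3)) = (w.2.2.1 - 3 * t ^ 2) ^ 3 := by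
    rintro ⟨A, B, x, y⟩ ⟨⟨hA, hB, hD, x₀, y₀, h1, h2⟩, h3, h4⟩
    simp only at hA hB hD h1 h2 h3 h4
    obtain ⟨t, s, -, -, eA, eB⟩ := param3 A B x₀ y₀ h1 h2 hD
    subst eA eB
    obtain ⟨d1, d2⟩ := disc3 t s hD
    obtain ⟨z1, z2, z3⟩ := size3 X H hX1 hH4 t s hA hB
    refine ⟨t, s, rfl, rfl, z1, z2, d1, d2, ?_, point3 t s x y h3⟩
    · intro h0
      simp only at h0
      have hx : x = 3 * t ^ 2 := by linarith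
      rw [hx] at h4
      exact h4 (div3 t s)
  choose! t s hz1 hz2 hz3 hz4 hz5 hz6 hz7 hz8 using hkey
  obtain ⟨φ, hφ⟩ : ∃ φ : ℤ × ℤ × ℤ × ℤ → ℤ × ℤ × ℤ × ℤ, φ = fun w =>
    (6 * t w, 2 * (s w + 9 * t w ^ 3), w.2.2.1 - 3 * t w ^ 2,
      w.2.2.2 - (3 * t w * (w.2.2.1 - 3 * t w ^ 2) + (s w + 9 * t w ^ 3))) := ⟨_, rfl⟩
  have hinj : Set.InjOn φ (T : Set (ℤ × ℤ × ℤ × ℤ)) := by
    intro z hz z' hz' e
    have hz := hT z (Finset.mem_coe.1 hz)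
    have hz' := hT z' (Finset.mem_coe.1 hz')
    simp only [hφ, Prod.mk.injEq] at e
    obtain ⟨e1, e2, e3, e4⟩ := e
    have f1 : t z = t z' := by linarith
    have f2 : s z = s z' := by
      rw [f1] at e2
      linarith
    have f3 : z.2.2.1 = z'.2.2.1 := by
      rw [f1] at e3
      linarith
    have f4 : z.2.2.2 = z'.2.2.2 := by
      rw [f1, f2, f3] at e4
      linarith
    refine Prod.ext ?_ (Prod.ext ?_ (Prod.ext f3 f4))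
    · rw [hz1 z hz, hz1 z' hz', f1, f2]
    · rw [hz2 z hz, hz2 z' hz', f1, f2]
  have h1 := hcount H hH3 (T.image φ) (by
    intro w hw
    obtain ⟨z, hz, rfl⟩ := Finset.mem_image.1 hw
    have hz := hT z hz
    rw [hφ]
    exact ⟨hz3 z hz, hz4 z hz, hz5 z hz, hz6 z hz, hz7 z hz, hz8 z hz⟩)
  rw [Finset.card_image_of_injOn hinj] at h1
  calc (T.card : ℝ) ≤ C * ((H : ℝ) ^ 3 * (1 + Real.log H) ^ 4) := h1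
    _ ≤ C * (131072 * ((X : ℝ) ^ (3 / 2 : ℝ) * (1 + Real.log X) ^ 4)) :=
        mul_le_mul_of_nonneg_left (wu_real X H hX1 (by omega) hH2) hC.le
    _ = C * 131072 * ((X : ℝ) ^ (3 / 2 : ℝ) * (1 + Real.log X) ^ 4) := by ring

/-- `pts_upper` for all `A` -/
theorem ptsAll_upper : ∃ C : ℝ, 0 < C ∧ ∀ X : ℕ, 1 ≤ X → (PtsAll X).Finite ∧
    ((PtsAll X).ncard : ℝ) ≤ C * ((X : ℝ) ^ (3 / 2 : ℝ) * (1 + Real.log X) ^ 4) := by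
  obtain ⟨C, hC, hcount⟩ := ab_full
  refine ⟨C * 131072, by positivity, fun X hX1 => ?_⟩
  have hb := wu0_finite hC hcount X hX1
  have hfin : (PtsAll X).Finite := by
    by_contra hinf
    obtain ⟨n, hn⟩ := exists_nat_gt (C * 131072 * ((X : ℝ) ^ (3 / 2 : ℝ) * (1 + Real.log X) ^ 4))
    obtain ⟨T, hT, hTn⟩ := Set.Infinite.exists_subset_card_eq hinf n
    have := hb T (fun w hw => hT (Finset.mem_coe.2 hw))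
    rw [hTn] at this
    linarith
  refine ⟨hfin, ?_⟩
  rw [Set.ncard_eq_toFinset_card _ hfin]
  exact hb hfin.toFinset (fun w hw => hfin.mem_toFinset.1 hw)

end V44
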