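import Pool.Agent.LibV44.WU
import Pool.Agent.LibV44.LO4
import Pool.Agent.LibT44.W4

namespace V44
open T44

/-- Row WV. `T44.fam_finite`, `T44.fam_lower`, `exc_lower`, `exc_upper`, `pts_upper` with common constants `c = min`, `C = max` (all the quantities are `≥ 0`). -/
theorem theorem_V : ∃ c C : ℝ, 0 < c ∧ 0 < C ∧ ∀ X : ℕ, 1 ≤ X →
    (Fam X).Finite ∧ c * (X : ℝ) ^ 2 ≤ ((Fam X).ncard : ℝ) ∧
    c * (X : ℝ) ^ (3 / 2 : ℝ) / (1 + Real.log X) ≤ ((Exc X).ncard : ℝ) ∧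
    ((Exc X).ncard : ℝ) ≤ C * (X : ℝ) ^ (3 / 2 : ℝ) * (1 + Real.log X) ^ 4 ∧
    (Pts X).Finite ∧ ((Pts X).ncard : ℝ) ≤ C * (X : ℝ) ^ (3 / 2 : ℝ) * (1 + Real.log X) ^ 4 := by
  obtain ⟨c1, hc1, h1⟩ := fam_lower
  obtain ⟨c2, hc2, h2⟩ := exc_lower
  obtain ⟨C1, hC1, h3⟩ := pts_upper
  obtain ⟨C2, hC2, h4⟩ := exc_upper
  refine ⟨min c1 c2, max C1 C2, lt_min hc1 hc2, lt_max_of_lt_left hC1, fun X hX => ?_⟩
  have hX1 : (1 : ℝ) ≤ X := by exact_mod_cast hX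
  have hL : 0 ≤ Real.log X := Real.log_nonneg hX1
  have hL1 : 0 ≤ (X : ℝ) ^ (3 / 2 : ℝ) * (1 + Real.log X) ^ 4 := by positivity
  refine ⟨fam_finite X, ?_, ?_, ?_, (h3 X hX).1, ?_⟩
  · exact (mul_le_mul_of_nonneg_right (min_le_left _ _) (by positivity)).trans (h1 X hX)
  · refine le_trans ?_ (h2 X hX)
    exact div_le_div_of_nonneg_right
      (mul_le_mul_of_nonneg_right (min_le_right _ _) (by positivity)) (by linarith)
  · rw [mul_assoc]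
    exact (h4 X hX).trans (mul_le_mul_of_nonneg_right (le_max_right _ _) hL1)
  · rw [mul_assoc]
    exact ((h3 X hX).2).trans (mul_le_mul_of_nonneg_right (le_max_left _ _) hL1)

end V44
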