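import Pool.Agent.LibV44.AV
import Pool.Agent.LibV44.WV

namespace V44
open T44

theorem theorem_V0 : ∃ c C : ℝ, 0 < c ∧ 0 < C ∧ ∀ X : ℕ, 1 ≤ X →
    (Fam X).Finite ∧ (IntPts X).Finite ∧ c * (X : ℝ) ^ 2 ≤ ((Fam X).ncard : ℝ) ∧
    c * (X : ℝ) ^ (3 / 2 : ℝ) / (1 + Real.log X) ≤ ((Exc X).ncard : ℝ) ∧
    ((Exc X).ncard : ℝ) ≤ (IntPts X).ncard - 2 * (Fam X).ncard ∧
    ((IntPts X).ncard : ℝ) - 2 * (Fam X).ncard ≤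
      C * (X : ℝ) ^ (3 / 2 : ℝ) * (1 + Real.log X) ^ 4 := by
  obtain ⟨c, C', hc, -, hV⟩ := theorem_V
  obtain ⟨C, hC, hup⟩ := ptsAll_upper
  refine ⟨c, C, hc, hC, fun X hX => ?_⟩
  obtain ⟨v1, v2, v3, -, -, -⟩ := hV X hX
  obtain ⟨u1, u2⟩ := hup X hX
  obtain ⟨i1, i2⟩ := int_count X u1
  have i3 : ((IntPts X).ncard : ℝ) = 2 * (Fam X).ncard + (PtsAll X).ncard := by exact_mod_cast i2
  have i4 : ((Exc X).ncard : ℝ) ≤ (PtsAll X).ncard := by exact_mod_cast exc_le X u1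
  refine ⟨v1, i1, v2, v3, ?_, ?_⟩
  · rw [i3]
    linarith
  · rw [i3]
    calc 2 * ((Fam X).ncard : ℝ) + (PtsAll X).ncard - 2 * (Fam X).ncard = (PtsAll X).ncard := by ring
      _ ≤ C * ((X : ℝ) ^ (3 / 2 : ℝ) * (1 + Real.log X) ^ 4) := u2
      _ = C * (X : ℝ) ^ (3 / 2 : ℝ) * (1 + Real.log X) ^ 4 := by ring

end V44
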